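import Pool.Agent.R660.SC.Defs

/-! SC-CODE: the attractor is the range of the coding map (helper656). -/

set_option autoImplicit false

open Set Filter Topology MeasureTheory Metric

namespace Pool.Agent.R660.SC.CODE

open Pool.Agent.R660.SC

variable {ι : Type}

lemma PP_succ (ρ : Fin 2 → ι → ℝ) (h : Fin 2) (ω : ℕ → ι) (n : ℕ) :
    PP ρ h ω (n + 1) = PP ρ h ω n * ρ h (ω n) := by
  unfold PP
  rw [Finset.prod_range_succ]

lemma lft_succ (ρ τ : Fin 2 → ι → ℝ) (h : Fin 2) (ω : ℕ → ι) (n : ℕ) :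
    lft ρ τ h ω (n + 1) = lft ρ τ h ω n + PP ρ h ω n * τ h (ω n) := by
  unfold lft
  rw [Finset.sum_range_succ]

lemma PP_pos {ρ τ : Fin 2 → ι → ℝ} (hA : Adm ρ τ) (h : Fin 2) (ω : ℕ → ι) (n : ℕ) :
    0 < PP ρ h ω n := Finset.prod_pos fun m _ => (hA h (ω m)).1

lemma PP_le {ρ τ : Fin 2 → ι → ℝ} (hA : Adm ρ τ) {c : ℝ} (hc : ∀ h i, ρ h i ≤ c) (h : Fin 2)
    (ω : ℕ → ι) (n : ℕ) : PP ρ h ω n ≤ c ^ n := by
  induction n with
  | zero => simp [PP]
  | succ n ih =>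
    rw [PP_succ, pow_succ]
    exact mul_le_mul ih (hc _ _) (hA h (ω n)).1.le ((PP_pos hA h ω n).le.trans ih)

lemma summ {ρ τ : Fin 2 → ι → ℝ} (hA : Adm ρ τ) {c : ℝ} (hc0 : 0 ≤ c) (hc1 : c < 1)
    (hc : ∀ h i, ρ h i ≤ c) (h : Fin 2) (ω : ℕ → ι) :
    Summable fun q => PP ρ h ω q * τ h (ω q) := by
  refine Summable.of_nonneg_of_le (fun q => mul_nonneg (PP_pos hA h ω q).le (hA h (ω q)).2.2.1)
    (fun q => ?_) (summable_geometric_of_lt_one hc0 hc1)
  have h1 : τ h (ω q) ≤ 1 := by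
    have := hA h (ω q)
    linarith [this.1, this.2.2.2]
  calc PP ρ h ω q * τ h (ω q) ≤ c ^ q * 1 :=
        mul_le_mul (PP_le hA hc h ω q) h1 (hA h (ω q)).2.2.1 (pow_nonneg hc0 q)
    _ = c ^ q := mul_one _

lemma lft_tendsto {ρ τ : Fin 2 → ι → ℝ} (hA : Adm ρ τ) {c : ℝ} (hc0 : 0 ≤ c) (hc1 : c < 1)
    (hc : ∀ h i, ρ h i ≤ c) (h : Fin 2) (ω : ℕ → ι) (X : ℕ → ℝ) (M : ℝ) (hX : ∀ n, |X n| ≤ M) :
    Tendsto (fun n => lft ρ τ h ω n + PP ρ h ω n * X n) atTop
      (𝓝 (∑' q, PP ρ h ω q * τ h (ω q))) := by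
  have h1 : Tendsto (fun n => lft ρ τ h ω n) atTop (𝓝 (∑' q, PP ρ h ω q * τ h (ω q))) :=
    (summ hA hc0 hc1 hc h ω).hasSum.tendsto_sum_nat
  have h2 : Tendsto (fun n => PP ρ h ω n * X n) atTop (𝓝 0) := by
    refine squeeze_zero_norm (a := fun n => c ^ n * M) (fun n => ?_) ?_
    · rw [Real.norm_eq_abs, abs_mul, abs_of_pos (PP_pos hA h ω n)]
      exact mul_le_mul (PP_le hA hc h ω n) (hX n) (abs_nonneg _) (pow_nonneg hc0 n)
    · have := (tendsto_pow_atTop_nhds_zero_of_lt_one hc0 hc1).mul_const M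
      rwa [zero_mul] at this
  have := h1.add h2
  rwa [add_zero] at this

theorem main : S_CODE := by
  intro ι _ ρ τ F hA hF
  obtain ⟨hcomp, ⟨x₀, hx₀⟩, hFF⟩ := hF
  have hmemF : ∀ x ∈ F, ∃ i, ∃ x' ∈ F, Smap ρ τ i x' = x := by
    intro x hx
    rw [hFF] at hx
    obtain ⟨i, hi⟩ := mem_iUnion.1 hx
    obtain ⟨x', hx', he⟩ := hi
    exact ⟨i, x', hx', he⟩
  have hmapF : ∀ i, ∀ x ∈ F, Smap ρ τ i x ∈ F := by
    intro i x hx
    rw [hFF]
    exact mem_iUnion.2 ⟨i, x, hx, rfl⟩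
  obtain ⟨i₀, -⟩ := hmemF x₀ hx₀
  have : Nonempty ι := ⟨i₀⟩
  obtain ⟨m, hm⟩ := Finite.exists_max (fun p : Fin 2 × ι => ρ p.1 p.2)
  set c : ℝ := ρ m.1 m.2 with hcdef
  have hc : ∀ h i, ρ h i ≤ c := fun h i => hm (h, i)
  have hc0 : 0 ≤ c := (hA m.1 m.2).1.le
  have hc1 : c < 1 := (hA m.1 m.2).2.1
  obtain ⟨M, hM⟩ := hcomp.isBounded.exists_norm_le
  have hcoord : ∀ x ∈ F, ∀ h : Fin 2, |x h| ≤ M := fun x hx h =>
    (PiLp.norm_apply_le x h).trans (hM x hx)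
  apply Subset.antisymm
  · intro x hx
    choose dg nx hnx hdg using hmemF
    let X : ℕ → F := fun n => (fun y : F => (⟨nx y.1 y.2, hnx y.1 y.2⟩ : F))^[n] ⟨x, hx⟩
    have hX0 : X 0 = ⟨x, hx⟩ := rfl
    have hXs : ∀ n, X (n + 1) = ⟨nx (X n).1 (X n).2, hnx (X n).1 (X n).2⟩ := fun n =>
      Function.iterate_succ_apply' _ _ _
    let ω : ℕ → ι := fun n => dg (X n).1 (X n).2
    have hXω : ∀ n, Smap ρ τ (ω n) (X (n + 1)).1 = (X n).1 := by
      intro n
      rw [hXs n]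
      exact hdg (X n).1 (X n).2
    have hcl : ∀ (h : Fin 2) (n : ℕ), x h = lft ρ τ h ω n + PP ρ h ω n * (X n).1 h := by
      intro h n
      induction n with
      | zero => simp [lft, PP, hX0]
      | succ n ih =>
        have h1 : (X n).1 h = ρ h (ω n) * (X (n + 1)).1 h + τ h (ω n) := by
          conv_lhs => rw [← hXω n]
          rfl
        rw [ih, lft_succ, PP_succ, h1]
        ring
    refine ⟨ω, ?_⟩
    ext h
    have h1 := lft_tendsto hA hc0 hc1 hc h ω (fun n => (X n).1 h) M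
      (fun n => hcoord _ (X n).2 h)
    have h2 : Tendsto (fun n => lft ρ τ h ω n + PP ρ h ω n * (X n).1 h) atTop (𝓝 (x h)) := by
      have : (fun n => lft ρ τ h ω n + PP ρ h ω n * (X n).1 h) = fun _ => x h := by
        funext n
        exact (hcl h n).symm
      rw [this]
      exact tendsto_const_nhds
    exact tendsto_nhds_unique h1 h2
  · rintro _ ⟨ω, rfl⟩
    have hy : ∀ (n : ℕ) (x : E2), x ∈ F →
        (WithLp.toLp 2 (fun h => lft ρ τ h ω n + PP ρ h ω n * x h) : E2) ∈ F := by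
      intro n
      induction n with
      | zero =>
        intro x hx
        have : (WithLp.toLp 2 (fun h => lft ρ τ h ω 0 + PP ρ h ω 0 * x h) : E2) = x := by
          ext h
          simp [lft, PP]
        rw [this]
        exact hx
      | succ n ih =>
        intro x hx
        have h1 := ih (Smap ρ τ (ω n) x) (hmapF (ω n) x hx)
        have h2 : (WithLp.toLp 2 (fun h => lft ρ τ h ω (n + 1) + PP ρ h ω (n + 1) * x h) : E2) =
            WithLp.toLp 2 (fun h => lft ρ τ h ω n + PP ρ h ω n * (Smap ρ τ (ω n) x) h) := by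
          congr 1
          funext h
          have h3 : (Smap ρ τ (ω n) x) h = ρ h (ω n) * x h + τ h (ω n) := rfl
          rw [lft_succ, PP_succ, h3]
          ring
        rw [h2]
        exact h1
    have hlim : Tendsto (fun n => (WithLp.toLp 2 (fun h => lft ρ τ h ω n + PP ρ h ω n * x₀ h) : E2))
        atTop (𝓝 (pt ρ τ ω)) := by
      have h1 : Tendsto (fun n => fun h : Fin 2 => lft ρ τ h ω n + PP ρ h ω n * x₀ h) atTop
          (𝓝 (fun h => ∑' q, PP ρ h ω q * τ h (ω q))) := by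
        rw [tendsto_pi_nhds]
        intro h
        exact lft_tendsto hA hc0 hc1 hc h ω (fun _ => x₀ h) M (fun _ => hcoord _ hx₀ h)
      exact ((PiLp.continuous_toLp 2 (fun _ : Fin 2 => ℝ)).tendsto _).comp h1
    exact hcomp.isClosed.mem_of_tendsto hlim (Eventually.of_forall fun n => hy n x₀ hx₀)

end Pool.Agent.R660.SC.CODE
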