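import Pool.Agent.R660.SC.Defs

namespace Pool.Agent.R660.SC.COMP

open Set Filter Topology

variable {ι : Type}

/-- elementary size estimate. -/
theorem size {δ B x a : ℝ} (hδ : 0 < δ) (hB : 0 < B) (h1 : δ * B ≤ x) (h2 : x ≤ B) :
    δ ^ |a| * B ^ a ≤ x ^ a ∧ x ^ a ≤ δ ^ (-|a|) * B ^ a := by
  have hx : 0 < x := lt_of_lt_of_le (mul_pos hδ hB) h1
  set y : ℝ := x / B with hy
  have hy0 : 0 < y := div_pos hx hB
  have hy1 : y ≤ 1 := (div_le_one hB).2 h2
  have hyδ : δ ≤ y := (le_div_iff₀ hB).2 h1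
  have hxy : x = y * B := by rw [hy]; field_simp
  have hxa : x ^ a = y ^ a * B ^ a := by rw [hxy, Real.mul_rpow hy0.le hB.le]
  have hBa : 0 ≤ B ^ a := Real.rpow_nonneg hB.le a
  rw [hxa]
  constructor
  · refine mul_le_mul_of_nonneg_right ?_ hBa
    calc δ ^ |a| ≤ y ^ |a| := Real.rpow_le_rpow hδ.le hyδ (abs_nonneg a)
      _ ≤ y ^ a := Real.rpow_le_rpow_of_exponent_ge hy0 hy1 (le_abs_self a)
  · refine mul_le_mul_of_nonneg_right ?_ hBa
    calc y ^ a ≤ y ^ (-|a|) := Real.rpow_le_rpow_of_exponent_ge hy0 hy1 (neg_abs_le a)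
      _ ≤ δ ^ (-|a|) := Real.rpow_le_rpow_of_nonpos hδ hyδ (by simp)

/-- the potential seen from the axis `h`. -/
theorem Tn_eq (φF : ι → ℝ) (φ1 : Fin 2 → ι → ℝ) (ω : ℕ → ι) (n : Fin 2 → ℕ) (h : Fin 2) :
    Tn φF φ1 ω n = ∏ q ∈ Finset.range (max (n h) (n (1 - h))),
      if q < n h ∧ q < n (1 - h) then φF (ω q) else if q < n h then φ1 h (ω q)
        else φ1 (1 - h) (ω q) := by
  unfold Tn
  fin_cases h
  · simp
  · have h1 : (1 : Fin 2) - 1 = 0 := rfl
    simp only [Fin.mk_one, h1]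
    rw [max_comm (n 1) (n 0)]
    refine Finset.prod_congr rfl fun q hq => ?_
    rw [Finset.mem_range, lt_max_iff] at hq
    by_cases a : q < n 0 <;> by_cases b : q < n 1 <;> simp [a, b]
    · omega

/-- product of `PP` powers. -/
theorem PP_rpow (ρ : Fin 2 → ι → ℝ) (h : Fin 2) (ω : ℕ → ι) (n : ℕ) (a : ℝ)
    (hρ : ∀ i, 0 < ρ h i) : PP ρ h ω n ^ a = ∏ q ∈ Finset.range n, ρ h (ω q) ^ a := by
  unfold PP
  rw [← Real.finsetProd_rpow _ _ (fun i _ => (hρ (ω i)).le)]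

/-- truncated product. -/
theorem prod_trunc (f : ℕ → ℝ) (m n : ℕ) (hmn : m ≤ n) :
    ∏ q ∈ Finset.range n, (if q < m then f q else 1) = ∏ q ∈ Finset.range m, f q := by
  rw [← Finset.prod_filter]
  congr 1
  ext q
  simp only [Finset.mem_filter, Finset.mem_range]
  omega

theorem main (hLEN : S_LEN) : S_COMP := by
  intro ι _ _ ρ τ β h p e φF φ1 hA hβ hp hF h1 h1'
  have hLab : Lab ρ τ (fun (_ : Fin 2) (i : ι) => i) :=
    ⟨fun h i j hij => by simp only at hij; subst hij; exact ⟨rfl, rfl⟩, fun i j hij => hij 0,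
      fun _ _ => rfl⟩
  obtain ⟨-, -, hup, -, ⟨δ, hδ, hlow⟩, -⟩ := hLEN ι ρ τ _ β hA hLab hβ
  have hρ : ∀ h i, 0 < ρ h i := fun h i => (hA h i).1
  have hF0 : ∀ i, 0 < φF i := fun i => by
    rw [hF]; exact mul_pos (Real.rpow_pos_of_pos (hρ _ _) _) (Real.rpow_pos_of_pos (hρ _ _) _)
  have h10 : ∀ i, 0 < φ1 h i := fun i => by
    rw [h1]; exact Real.rpow_pos_of_pos (hρ _ _) _
  have hB : ∀ k : ℕ, 0 < (1 / β) ^ k := fun k => by positivity
  -- the model value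
  set W : ℕ → (ℕ → ι) → ℝ := fun k ω =>
    PP ρ h ω (Ln ρ β h ω k) ^ p * PP ρ (1 - h) ω (Ln ρ β (1 - h) ω k) ^ (e - p) with hW
  set κ : ℝ := δ ^ (-|p|) * δ ^ (-|e - p|) with hκ
  have hκ0 : 0 < κ := mul_pos (Real.rpow_pos_of_pos hδ _) (Real.rpow_pos_of_pos hδ _)
  have hκi : 1 / κ = δ ^ |p| * δ ^ |e - p| := by
    rw [hκ, Real.rpow_neg hδ.le, Real.rpow_neg hδ.le]
    have := Real.rpow_pos_of_pos hδ |p|
    have := Real.rpow_pos_of_pos hδ |e - p|
    field_simp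
  have hWb : ∀ k ω, 1 / κ * ((1 / β) ^ k) ^ e ≤ W k ω ∧ W k ω ≤ κ * ((1 / β) ^ k) ^ e := by
    intro k ω
    obtain ⟨a1, a2⟩ := size (a := p) hδ (hB k) (hlow h ω k) (hup h ω k)
    obtain ⟨b1, b2⟩ := size (a := e - p) hδ (hB k) (hlow (1 - h) ω k) (hup (1 - h) ω k)
    have hsplit : ((1 / β) ^ k) ^ e = ((1 / β) ^ k) ^ p * ((1 / β) ^ k) ^ (e - p) := by
      rw [← Real.rpow_add (hB k)]; congr 1; ring
    have q1 := Real.rpow_pos_of_pos hδ |p|
    have q2 := Real.rpow_pos_of_pos hδ |e - p|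
    have q3 := Real.rpow_pos_of_pos hδ (-|p|)
    have q4 := Real.rpow_pos_of_pos hδ (-|e - p|)
    have q5 := Real.rpow_pos_of_pos (hB k) p
    have q6 := Real.rpow_pos_of_pos (hB k) (e - p)
    rw [hκi, hsplit, hκ]
    constructor
    · calc δ ^ |p| * δ ^ |e - p| * (((1 / β) ^ k) ^ p * ((1 / β) ^ k) ^ (e - p))
          = (δ ^ |p| * ((1 / β) ^ k) ^ p) * (δ ^ |e - p| * ((1 / β) ^ k) ^ (e - p)) := by ring
        _ ≤ W k ω := by
            apply mul_le_mul a1 b1 (by positivity)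
            exact le_trans (by positivity) a1
    · calc W k ω ≤ (δ ^ (-|p|) * ((1 / β) ^ k) ^ p) * (δ ^ (-|e - p|) * ((1 / β) ^ k) ^ (e - p)) := by
            apply mul_le_mul a2 b2 _ (by positivity)
            exact le_trans (by positivity) b1
        _ = _ := by ring
  have hG : ∀ k ω, GG ρ β φF φ1 k ω = ∏ q ∈ Finset.range (max (Ln ρ β h ω k) (Ln ρ β (1 - h) ω k)),
      if q < Ln ρ β h ω k ∧ q < Ln ρ β (1 - h) ω k then φF (ω q) else if q < Ln ρ β h ω k then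
        φ1 h (ω q) else φ1 (1 - h) (ω q) := by
    intro k ω
    unfold GG
    rw [Tn_eq φF φ1 ω _ h]
  have hcase1 : ∀ k ω, Ln ρ β (1 - h) ω k ≤ Ln ρ β h ω k → GG ρ β φF φ1 k ω = W k ω := by
    intro k ω hle
    rw [hG, max_eq_left hle]
    simp only [hW]
    rw [PP_rpow ρ h ω _ p (hρ h), PP_rpow ρ (1 - h) ω _ (e - p) (hρ (1 - h)),
      ← prod_trunc (fun q => ρ (1 - h) (ω q) ^ (e - p)) _ _ hle, ← Finset.prod_mul_distrib]
    refine Finset.prod_congr rfl fun q hq => ?_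
    rw [Finset.mem_range] at hq
    by_cases b : q < Ln ρ β (1 - h) ω k
    · simp [hq, b, hF]
    · simp [hq, b, h1]
  refine ⟨κ, hκ0, ?_, ?_, ?_⟩
  · intro k ω
    rw [hG]
    refine Finset.prod_nonneg fun q _ => ?_
    split_ifs
    · exact (hF0 _).le
    · exact (h10 _).le
    · exact h1' _
  · intro k ω hle
    rw [hcase1 k ω hle]
    exact hWb k ω
  · intro hφ k ω
    refine le_trans ?_ (hWb k ω).2
    rcases le_total (Ln ρ β (1 - h) ω k) (Ln ρ β h ω k) with hle | hle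
    · exact (hcase1 k ω hle).le
    · rw [hG, max_eq_right hle]
      simp only [hW]
      rw [PP_rpow ρ h ω _ p (hρ h), PP_rpow ρ (1 - h) ω _ (e - p) (hρ (1 - h)),
        ← prod_trunc (fun q => ρ h (ω q) ^ p) _ _ hle, ← Finset.prod_mul_distrib]
      refine Finset.prod_le_prod ?_ ?_
      · intro q _
        split_ifs
        · exact (hF0 _).le
        · exact (h10 _).le
        · exact h1' _
      · intro q hq
        rw [Finset.mem_range] at hq
        by_cases b : q < Ln ρ β h ω k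
        · simp [hq, b, hF]
        · simp only [b, false_and, if_false, one_mul]
          exact hφ _

end Pool.Agent.R660.SC.COMP
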