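import Mathlib

/-!
# Project SC: sharp measures on self-affine carpets (MP_a82451_an, full answer YES to Q1 and Q2)
-/

open Set Filter Topology MeasureTheory Metric

namespace Pool.Agent.R660.SC

/-! ## Public definitions -/

/-- the plane. -/
abbrev E2 := EuclideanSpace ℝ (Fin 2)

variable {ι : Type}

/-- the diagonal map `x ↦ (ρ 0 i * x 0 + τ 0 i, ρ 1 i * x 1 + τ 1 i)`. -/
noncomputable def Smap (ρ τ : Fin 2 → ι → ℝ) (i : ι) (x : E2) : E2 :=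
  WithLp.toLp 2 (fun h => ρ h i * x h + τ h i)

/-- orientation preserving contractions of the unit square into itself. -/
def Adm (ρ τ : Fin 2 → ι → ℝ) : Prop :=
  ∀ h i, 0 < ρ h i ∧ ρ h i < 1 ∧ 0 ≤ τ h i ∧ τ h i + ρ h i ≤ 1

/-- the projections of the rectangles `i`, `j` to the axis `h` coincide. -/
def Same (ρ τ : Fin 2 → ι → ℝ) (h : Fin 2) (i j : ι) : Prop := ρ h i = ρ h j ∧ τ h i = τ h j

/-- the projections of the rectangles `i`, `j` to the axis `h` have disjoint interiors. -/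
def Disj (ρ τ : Fin 2 → ι → ℝ) (h : Fin 2) (i j : ι) : Prop :=
  τ h i + ρ h i ≤ τ h j ∨ τ h j + ρ h j ≤ τ h i

/-- Lalley-Gatzouras type (for the long axis `h`, both choices of `h` are allowed). -/
def IsLG (ρ τ : Fin 2 → ι → ℝ) : Prop :=
  Adm ρ τ ∧ ∃ h : Fin 2, (∀ i, ρ (1 - h) i ≤ ρ h i) ∧
    (∀ i j, i ≠ j → Disj ρ τ 0 i j ∨ Disj ρ τ 1 i j) ∧
    (∀ i j, Same ρ τ h i j ∨ Disj ρ τ h i j)

/-- Baranski type: the projections to each axis coincide or have disjoint interiors (different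
maps give different rectangles); the intervals of the grid need not cover `[0,1]`. -/
def IsBar (ρ τ : Fin 2 → ι → ℝ) : Prop :=
  Adm ρ τ ∧ (∀ i j, i ≠ j → ∃ h, ¬ Same ρ τ h i j) ∧
    ∀ h i j, Same ρ τ h i j ∨ Disj ρ τ h i j

/-- `F` is the attractor. -/
def Attr (ρ τ : Fin 2 → ι → ℝ) (F : Set E2) : Prop :=
  IsCompact F ∧ F.Nonempty ∧ F = ⋃ i, Smap ρ τ i '' F

/-- `N_r(E)`. -/
noncomputable def coverN (r : ℝ) (E : Set E2) : ℕ :=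
  sInf {m : ℕ | ∃ U : Fin m → Set E2, (∀ i, Metric.ediam (U i) ≤ ENNReal.ofReal r) ∧ E ⊆ ⋃ i, U i}

noncomputable def dimA (F : Set E2) : ℝ :=
  sInf {s : ℝ | 0 ≤ s ∧ ∃ C : ℝ, 0 < C ∧ ∀ x ∈ F, ∀ r R : ℝ, 0 < r → r < R →
    (coverN r (closedBall x R ∩ F) : ℝ) ≤ C * (R / r) ^ s}

noncomputable def dimL (F : Set E2) : ℝ :=
  sSup {s : ℝ | 0 ≤ s ∧ ∃ C : ℝ, 0 < C ∧ ∀ x ∈ F, ∀ r R : ℝ, 0 < r → r < R → R ≤ Metric.diam F →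
    C * (R / r) ^ s ≤ (coverN r (closedBall x R ∩ F) : ℝ)}

/-- `μ` has support `F`. -/
def Supp (μ : Measure E2) (F : Set E2) : Prop := μ Fᶜ = 0 ∧ ∀ x ∈ F, ∀ r : ℝ, 0 < r → 0 < μ (ball x r)

/-- `(U_s)`. -/
def UU (μ : Measure E2) (F : Set E2) (s : ℝ) : Prop := ∃ c : ℝ, 0 < c ∧ ∀ ρ : ℝ, 0 < ρ → ρ < 1 →
  ∀ x ∈ F, ∀ r : ℝ, 0 < r →
    μ.real (closedBall x r) ≤ c * ρ ^ (-s) * μ.real (closedBall x (ρ * r))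

/-- `(L_s)`. -/
def LL (μ : Measure E2) (F : Set E2) (s : ℝ) : Prop := ∃ c : ℝ, 0 < c ∧ ∀ ρ : ℝ, 0 < ρ → ρ < 1 →
  ∀ x ∈ F, ∀ r : ℝ, 0 < r → r ≤ Metric.diam F →
    c * ρ ^ (-s) * μ.real (closedBall x (ρ * r)) ≤ μ.real (closedBall x r)

/-! ## Working definitions -/

/-- structure along the axis `h`. -/
def Str (ρ τ : Fin 2 → ι → ℝ) (h : Fin 2) : Prop :=
  (∀ i j, Same ρ τ h i j ∨ Disj ρ τ h i j) ∧
    ∀ i j, i ≠ j → Same ρ τ h i j → Disj ρ τ (1 - h) i j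

/-- product of the first `n` ratios. -/
noncomputable def PP (ρ : Fin 2 → ι → ℝ) (h : Fin 2) (ω : ℕ → ι) (n : ℕ) : ℝ :=
  ∏ m ∈ Finset.range n, ρ h (ω m)

/-- left end of the interval of the first `n` digits. -/
noncomputable def lft (ρ τ : Fin 2 → ι → ℝ) (h : Fin 2) (ω : ℕ → ι) (n : ℕ) : ℝ :=
  ∑ q ∈ Finset.range n, PP ρ h ω q * τ h (ω q)

/-- coding map. -/
noncomputable def pt (ρ τ : Fin 2 → ι → ℝ) (ω : ℕ → ι) : E2 :=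
  WithLp.toLp 2 (fun h => ∑' q, PP ρ h ω q * τ h (ω q))

/-- number of digits in direction `h` at level `k`. -/
noncomputable def Ln (ρ : Fin 2 → ι → ℝ) (β : ℝ) (h : Fin 2) (ω : ℕ → ι) (k : ℕ) : ℕ :=
  sInf {n : ℕ | PP ρ h ω n ≤ (1 / β) ^ k}

/-- the box (approximate square) of level `k`. -/
noncomputable def box (ρ : Fin 2 → ι → ℝ) (lab : Fin 2 → ι → ι) (β : ℝ) (k : ℕ) (ω : ℕ → ι) :
    Fin 2 → List ι := fun h => (List.range (Ln ρ β h ω k)).map (fun q => lab h (ω q))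

/-- labels. -/
def Lab (ρ τ : Fin 2 → ι → ℝ) (lab : Fin 2 → ι → ι) : Prop :=
  (∀ h i j, lab h i = lab h j → Same ρ τ h i j) ∧ (∀ i j, (∀ h, lab h i = lab h j) → i = j) ∧
    ∀ h i, lab h (lab h i) = lab h i

/-- different boxes have disjoint interiors. -/
def Sep (ρ τ : Fin 2 → ι → ℝ) (lab : Fin 2 → ι → ι) (β : ℝ) : Prop :=
  ∀ k ω ω', box ρ lab β k ω ≠ box ρ lab β k ω' → ∃ h : Fin 2,
    lft ρ τ h ω (Ln ρ β h ω k) + PP ρ h ω (Ln ρ β h ω k) ≤ lft ρ τ h ω' (Ln ρ β h ω' k) ∨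
    lft ρ τ h ω' (Ln ρ β h ω' k) + PP ρ h ω' (Ln ρ β h ω' k) ≤ lft ρ τ h ω (Ln ρ β h ω k)

/-- product potential: `φF` for positions with both coordinates known, `φ1 h` for positions where
only the coordinate `h` is known. -/
noncomputable def Tn (φF : ι → ℝ) (φ1 : Fin 2 → ι → ℝ) (ω : ℕ → ι) (n : Fin 2 → ℕ) : ℝ :=
  ∏ q ∈ Finset.range (max (n 0) (n 1)),
    if q < n 0 ∧ q < n 1 then φF (ω q) else if q < n 0 then φ1 0 (ω q) else φ1 1 (ω q)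

noncomputable def GG (ρ : Fin 2 → ι → ℝ) (β : ℝ) (φF : ι → ℝ) (φ1 : Fin 2 → ι → ℝ) (k : ℕ)
    (ω : ℕ → ι) : ℝ := Tn φF φ1 ω (fun h => Ln ρ β h ω k)

/-! ## Abstract pieces -/

/-- STEP: one step of the mass transport, with weights `gU`, `gV`. -/
def S_STEP : Prop := ∀ (U V : Type) [Fintype U] [Fintype V] (π : U → V) (adjU : U → U → Prop)
  (adjV : V → V → Prop) (w : U → ℝ) (gU : U → ℝ) (gV : V → ℝ) (m : V → ℝ) (a b C : ℝ),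
  (∀ u, adjU u u) → (∀ u u', adjU u u' → adjU u' u) →
  (∀ u0 u1 u2 u3, adjU u0 u1 → adjU u1 u2 → adjU u2 u3 → adjV (π u0) (π u3)) →
  (∀ u, 0 < gU u) → (∀ v, 0 < gV v) →
  (∀ v, 0 < m v) → (∀ v v', adjV v v' → m v / gV v ≤ C * (m v' / gV v')) →
  0 < a → 0 < b → 1 ≤ C → b ≤ C * a → (∀ u, 0 < w u) →
  (∀ u, 1 / b ≤ w u * gV (π u) / gU u ∧ w u * gV (π u) / gU u ≤ 1 / a) →
  (∀ (v : V) (F : Finset U), (∀ u, u ∈ F ↔ π u = v) → ∑ u ∈ F, w u = 1) →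
  ∃ m' : U → ℝ, (∀ u, 0 < m' u) ∧
    (∀ u u', adjU u u' → m' u / gU u ≤ C * (m' u' / gU u')) ∧
    (∀ u, m (π u) / gV (π u) ≤ b * (m' u / gU u)) ∧
    (∀ u, a * (m' u / gU u) ≤ m (π u) / gV (π u)) ∧ (∑ u, m' u = ∑ v, m v) ∧
    (∀ (S : Finset V) (F : Finset U), (∀ u u', adjU u u' → π u' ∈ S → u ∈ F) →
      ∑ v ∈ S, m v ≤ ∑ u ∈ F, m' u)

/-- MEAS: iteration of the transport and weak limit. -/
def S_MEAS : Prop := ∀ (X : Type) [MetricSpace X] [CompactSpace X] [MeasurableSpace X]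
  [BorelSpace X] (V : ℕ → Type) [∀ k, Fintype (V k)] (par : ∀ k, V (k + 1) → V k)
  (adj : ∀ k, V k → V k → Prop) (w : ∀ k, V (k + 1) → ℝ) (g : ∀ k, V k → ℝ) (c : ∀ k, V k → X)
  (a b C β Λ0 Λ1 : ℝ),
  (∀ k u, adj k u u) → (∀ k u u', adj k u u' → adj k u' u) →
  (∀ k u0 u1 u2 u3, adj (k + 1) u0 u1 → adj (k + 1) u1 u2 → adj (k + 1) u2 u3 →
    adj k (par k u0) (par k u3)) →
  (∃ v0 : V 0, ∀ v, v = v0) → (∀ k v, 0 < g k v) →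
  0 < a → 0 < b → 1 ≤ C → b ≤ C * a → (∀ k u, 0 < w k u) →
  (∀ k u, 1 / b ≤ w k u * g k (par k u) / g (k + 1) u ∧
    w k u * g k (par k u) / g (k + 1) u ≤ 1 / a) →
  (∀ k (v : V k) (F : Finset (V (k + 1))), (∀ u, u ∈ F ↔ par k u = v) → ∑ u ∈ F, w k u = 1) →
  2 ≤ β → 0 ≤ Λ0 → 0 ≤ Λ1 → Λ1 ≤ β →
  (∀ k u, dist (c (k + 1) u) (c k (par k u)) ≤ Λ0 * (1 / β) ^ k) →
  (∀ k u u', adj k u u' → dist (c k u) (c k u') ≤ Λ1 * (1 / β) ^ k) →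
  ∃ (μ : Measure X) (m : ∀ k, V k → ℝ), IsProbabilityMeasure μ ∧ (∀ k v, 0 < m k v) ∧
    (∀ k u u', adj k u u' → m k u / g k u ≤ C * (m k u' / g k u')) ∧
    (∀ k u, m k (par k u) / g k (par k u) ≤ b * (m (k + 1) u / g (k + 1) u)) ∧
    (∀ k u, a * (m (k + 1) u / g (k + 1) u) ≤ m k (par k u) / g k (par k u)) ∧
    (∀ k v, m k v ≤ μ.real (closedBall (c k v) (2 * (Λ0 + 1) * (1 / β) ^ k))) ∧
    (∀ k (x : X) (R : ℝ) (F : Finset (V k)),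
      (∀ u, dist (c k u) x < R + 2 * (Λ0 + 1) * (1 / β) ^ k → u ∈ F) →
      μ.real (ball x R) ≤ ∑ u ∈ F, m k u)

/-- BALL: ball estimates; `M k x` is the mass of the box of `x`. -/
def S_BALL : Prop := ∀ (X : Type) [MetricSpace X] [MeasurableSpace X]
  [BorelSpace X] (V : ℕ → Type) [∀ k, Fintype (V k)] (c : ∀ k, V k → X) (code : ∀ k, X → V k)
  (C β Λ0 s Cb : ℝ) (H : ℕ) (μ : Measure X) (m : ∀ k, V k → ℝ),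
  IsProbabilityMeasure μ →
  (∀ k x, dist (c k (code k x)) x ≤ Λ0 * (1 / β) ^ k) →
  (∀ k x u, dist (c k u) x < (2 * Λ0 + 3) * (1 / β) ^ k → m k u ≤ C * m k (code k x)) →
  (∀ k x (F : Finset (V k)), (∀ u ∈ F, dist (c k u) x < (2 * Λ0 + 3) * (1 / β) ^ k) →
    F.card ≤ H) →
  (∀ k v, 0 < m k v) →
  (∀ k v, m k v ≤ μ.real (closedBall (c k v) (2 * (Λ0 + 1) * (1 / β) ^ k))) →
  (∀ k (x : X) (R : ℝ) (F : Finset (V k)),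
    (∀ u, dist (c k u) x < R + 2 * (Λ0 + 1) * (1 / β) ^ k → u ∈ F) →
    μ.real (ball x R) ≤ ∑ u ∈ F, m k u) →
  1 ≤ C → 2 ≤ β → 0 ≤ Λ0 → 0 ≤ s → 1 ≤ Cb →
  ∃ C2 : ℝ, 0 < C2 ∧ (∀ (x : X) (r : ℝ), 0 < r → 0 < μ.real (ball x r)) ∧
    ((∀ k k' x, k ≤ k' → m k (code k x) ≤ Cb * (β ^ (k' - k)) ^ s * m k' (code k' x)) →
      ∀ (x : X) (r R : ℝ), 0 < r → r < R → R ≤ 1 →
        μ.real (ball x R) ≤ C2 * (R / r) ^ s * μ.real (ball x r)) ∧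
    ((∀ k k' x, k ≤ k' → (β ^ (k' - k)) ^ s * m k' (code k' x) ≤ Cb * m k (code k x)) →
      ∀ (x : X) (r R : ℝ), 0 < r → r < R → R ≤ 1 →
        (R / r) ^ s * μ.real (ball x r) ≤ C2 * μ.real (ball x R))

/-- TREE: a super/subharmonic function `G ≈ β^{-ks}` on the boxes gives a sharp measure. -/
def S_TREE : Prop := ∀ (X : Type) [MetricSpace X] [CompactSpace X] [MeasurableSpace X]
  [BorelSpace X] (V : ℕ → Type) [∀ k, Fintype (V k)] (par : ∀ k, V (k + 1) → V k)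
  (G : ∀ k, V k → ℝ) (c : ∀ k, V k → X) (code : ∀ k, X → V k) (β Λ0 κ s : ℝ),
  (∃ v0 : V 0, ∀ v, v = v0) → (∀ k v, ∃ u, par k u = v) →
  (∀ k x, par k (code (k + 1) x) = code k x) →
  (∀ k x, dist (c k (code k x)) x ≤ Λ0 * (1 / β) ^ k) →
  (∀ k u, dist (c (k + 1) u) (c k (par k u)) ≤ Λ0 * (1 / β) ^ k) →
  (∀ A : ℝ, ∃ H : ℕ, ∀ k v (F : Finset (V k)),
    (∀ u ∈ F, dist (c k u) (c k v) ≤ A * (1 / β) ^ k) → F.card ≤ H) →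
  0 < κ → 0 ≤ s → 0 ≤ Λ0 → 12 ≤ β → 4 * Λ0 + 4 ≤ β →
  (∀ k v, 1 / κ * ((1 / β) ^ k) ^ s ≤ G k v ∧ G k v ≤ κ * ((1 / β) ^ k) ^ s) →
  ((∀ k v (F : Finset (V (k + 1))), (∀ u, u ∈ F ↔ par k u = v) → ∑ u ∈ F, G (k + 1) u ≤ G k v) →
    ∃ (μ : Measure X) (C2 : ℝ), IsProbabilityMeasure μ ∧ 0 < C2 ∧
      (∀ (x : X) (r : ℝ), 0 < r → 0 < μ.real (ball x r)) ∧
      ∀ (x : X) (r R : ℝ), 0 < r → r < R → R ≤ 1 →
        μ.real (ball x R) ≤ C2 * (R / r) ^ s * μ.real (ball x r)) ∧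
  ((∀ k v (F : Finset (V (k + 1))), (∀ u, u ∈ F ↔ par k u = v) → G k v ≤ ∑ u ∈ F, G (k + 1) u) →
    ∃ (μ : Measure X) (C2 : ℝ), IsProbabilityMeasure μ ∧ 0 < C2 ∧
      (∀ (x : X) (r : ℝ), 0 < r → 0 < μ.real (ball x r)) ∧
      ∀ (x : X) (r R : ℝ), 0 < r → r < R → R ≤ 1 →
        (R / r) ^ s * μ.real (ball x r) ≤ C2 * μ.real (ball x R))

/-! ## Pieces on the carpets -/

/-- CODE: the attractor is the image of the coding map. -/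
def S_CODE : Prop := ∀ (ι : Type) [Fintype ι] (ρ τ : Fin 2 → ι → ℝ) (F : Set E2),
  Adm ρ τ → Attr ρ τ F → F = range (pt ρ τ)

/-- LEN: elementary facts on levels, boxes and distances. -/
def S_LEN : Prop := ∀ (ι : Type) [Fintype ι] [Nonempty ι] (ρ τ : Fin 2 → ι → ℝ)
  (lab : Fin 2 → ι → ι) (β : ℝ), Adm ρ τ → Lab ρ τ lab → 1 < β →
  (∀ h ω n, lft ρ τ h ω n ≤ pt ρ τ ω h ∧ pt ρ τ ω h ≤ lft ρ τ h ω n + PP ρ h ω n) ∧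
  (∀ h ω, Ln ρ β h ω 0 = 0) ∧
  (∀ h ω k, PP ρ h ω (Ln ρ β h ω k) ≤ (1 / β) ^ k) ∧
  (∀ h ω k n, n < Ln ρ β h ω k → (1 / β) ^ k < PP ρ h ω n) ∧
  (∃ δ : ℝ, 0 < δ ∧ ∀ h ω k, δ * (1 / β) ^ k ≤ PP ρ h ω (Ln ρ β h ω k)) ∧
  (∀ h ω k, Ln ρ β h ω k ≤ Ln ρ β h ω (k + 1)) ∧
  (∀ k, ∃ N, ∀ h ω, Ln ρ β h ω k ≤ N) ∧
  (∀ k ω ω', box ρ lab β (k + 1) ω = box ρ lab β (k + 1) ω' →
    box ρ lab β k ω = box ρ lab β k ω') ∧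
  (∀ k ω ω', box ρ lab β k ω = box ρ lab β k ω' →
    dist (pt ρ τ ω) (pt ρ τ ω') ≤ 2 * (1 / β) ^ k)

/-- SEPLG: separation of boxes, Lalley-Gatzouras type. -/
def S_SEPLG : Prop := ∀ (ι : Type) [Fintype ι] (ρ τ : Fin 2 → ι → ℝ) (lab : Fin 2 → ι → ι)
  (β : ℝ) (h : Fin 2), Adm ρ τ → Str ρ τ h → (∀ i, ρ (1 - h) i ≤ ρ h i) → 1 < β →
  (∀ i j, lab h i = lab h j ↔ Same ρ τ h i j) → (∀ i, lab (1 - h) i = i) → Sep ρ τ lab β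

/-- SEPBAR: separation of boxes, Baranski type. -/
def S_SEPBAR : Prop := ∀ (ι : Type) [Fintype ι] (ρ τ : Fin 2 → ι → ℝ) (lab : Fin 2 → ι → ι)
  (β : ℝ), Adm ρ τ → (∀ h i j, Same ρ τ h i j ∨ Disj ρ τ h i j) → 1 < β →
  (∀ h i j, lab h i = lab h j ↔ Same ρ τ h i j) → Sep ρ τ lab β

/-- COUNT: boundedly many boxes of level `k` in a ball of radius `A β⁻ᵏ`. -/
def S_COUNT : Prop := ∀ (ι : Type) [Fintype ι] [Nonempty ι] (ρ τ : Fin 2 → ι → ℝ)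
  (lab : Fin 2 → ι → ι) (β : ℝ), Adm ρ τ → Lab ρ τ lab → 1 < β → Sep ρ τ lab β →
  ∀ A : ℝ, ∃ H : ℕ, ∀ (k : ℕ) (x : E2) (F : Finset (Fin 2 → List ι))
    (rep : (Fin 2 → List ι) → ℕ → ι), (∀ v ∈ F, box ρ lab β k (rep v) = v ∧
      dist (pt ρ τ (rep v)) x ≤ A * (1 / β) ^ k) → F.card ≤ H

/-- STOP: sums of product potentials over the children of a box. -/
def S_STOP : Prop := ∀ (ι : Type) [Fintype ι] [Nonempty ι] (ρ τ : Fin 2 → ι → ℝ)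
  (lab : Fin 2 → ι → ι) (β : ℝ) (φF : ι → ℝ) (φ1 : Fin 2 → ι → ℝ),
  Adm ρ τ → Lab ρ τ lab → 1 < β → (∀ i, 0 ≤ φF i) → (∀ h i, 0 ≤ φ1 h i) →
  (∀ h i j, lab h i = lab h j → φ1 h i = φ1 h j) →
  (∀ k ω ω', box ρ lab β k ω = box ρ lab β k ω' → GG ρ β φF φ1 k ω = GG ρ β φF φ1 k ω') ∧
  ((∀ h (S : Finset ι), (∀ j, j ∈ S ↔ lab h j = j) → ∑ j ∈ S, φ1 h j ≤ 1) →
   (∀ h i (S : Finset ι), (∀ j, j ∈ S ↔ lab h j = lab h i) → ∑ j ∈ S, φF j ≤ φ1 h i) →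
    ∀ (k : ℕ) (ω0 : ℕ → ι) (rep : (Fin 2 → List ι) → ℕ → ι) (S : Finset (Fin 2 → List ι)),
      (∀ v ∈ S, box ρ lab β (k + 1) (rep v) = v) →
      (∀ v, v ∈ S ↔ ∃ ω, box ρ lab β (k + 1) ω = v ∧ box ρ lab β k ω = box ρ lab β k ω0) →
      ∑ v ∈ S, GG ρ β φF φ1 (k + 1) (rep v) ≤ GG ρ β φF φ1 k ω0) ∧
  ((∀ h (S : Finset ι), (∀ j, j ∈ S ↔ lab h j = j) → 1 ≤ ∑ j ∈ S, φ1 h j) →
   (∀ h i (S : Finset ι), (∀ j, j ∈ S ↔ lab h j = lab h i) → φ1 h i ≤ ∑ j ∈ S, φF j) →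
    ∀ (k : ℕ) (ω0 : ℕ → ι) (rep : (Fin 2 → List ι) → ℕ → ι) (S : Finset (Fin 2 → List ι)),
      (∀ v ∈ S, box ρ lab β (k + 1) (rep v) = v) →
      (∀ v, v ∈ S ↔ ∃ ω, box ρ lab β (k + 1) ω = v ∧ box ρ lab β k ω = box ρ lab β k ω0) →
      GG ρ β φF φ1 k ω0 ≤ ∑ v ∈ S, GG ρ β φF φ1 (k + 1) (rep v))

/-- COMP: size of the potential with exponents `p` (axis `h`) and `e - p` (axis `1 - h`). -/
def S_COMP : Prop := ∀ (ι : Type) [Fintype ι] [Nonempty ι] (ρ τ : Fin 2 → ι → ℝ) (β : ℝ)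
  (h : Fin 2) (p e : ℝ) (φF : ι → ℝ) (φ1 : Fin 2 → ι → ℝ), Adm ρ τ → 1 < β → 0 ≤ p →
  (∀ i, φF i = ρ h i ^ p * ρ (1 - h) i ^ (e - p)) → (∀ i, φ1 h i = ρ h i ^ p) →
  (∀ i, 0 ≤ φ1 (1 - h) i) →
  ∃ κ : ℝ, 0 < κ ∧ (∀ k ω, 0 ≤ GG ρ β φF φ1 k ω) ∧
    (∀ k ω, Ln ρ β (1 - h) ω k ≤ Ln ρ β h ω k →
      1 / κ * ((1 / β) ^ k) ^ e ≤ GG ρ β φF φ1 k ω ∧ GG ρ β φF φ1 k ω ≤ κ * ((1 / β) ^ k) ^ e) ∧
    ((∀ i, φ1 (1 - h) i ≤ ρ (1 - h) i ^ (e - p)) →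
      ∀ k ω, GG ρ β φF φ1 k ω ≤ κ * ((1 / β) ^ k) ^ e)

/-- NUMB: similarity dimension. -/
def S_NUMB : Prop := ∀ (ι : Type) (S : Finset ι) (r : ι → ℝ), S.Nonempty →
  (∀ i, 0 < r i ∧ r i < 1) → ∃ s : ℝ, 0 ≤ s ∧ ∑ i ∈ S, r i ^ s = 1 ∧
    (∀ s', s ≤ s' → ∑ i ∈ S, r i ^ s' ≤ 1) ∧ (∀ s', s' ≤ s → 1 ≤ ∑ i ∈ S, r i ^ s')

/-- DIMA: lower bound of the Assouad dimension. -/
def S_DIMA : Prop := ∀ (ι : Type) [Fintype ι] (ρ τ : Fin 2 → ι → ℝ) (F : Set E2) (h : Fin 2)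
  (lab : ι → ι) (S T : Finset ι) (j : ι) (p t : ℝ), Adm ρ τ → Str ρ τ h →
  (∃ i, ρ (1 - h) i < ρ h i) → Attr ρ τ F →
  (∀ i j, lab i = lab j ↔ Same ρ τ h i j) → (∀ i, lab (lab i) = lab i) →
  (∀ i, i ∈ S ↔ lab i = i) → (∀ i, i ∈ T ↔ Same ρ τ h i j) → 0 ≤ p → 0 ≤ t →
  ∑ i ∈ S, ρ h i ^ p = 1 → ∑ i ∈ T, ρ (1 - h) i ^ t = 1 → p + t ≤ dimA F

/-- DIML: upper bound of the lower dimension. -/
def S_DIML : Prop := ∀ (ι : Type) [Fintype ι] (ρ τ : Fin 2 → ι → ℝ) (F : Set E2) (h : Fin 2)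
  (lab : ι → ι) (S T : Finset ι) (j : ι) (p t : ℝ), Adm ρ τ → Str ρ τ h →
  (∃ i, ρ (1 - h) i < ρ h i) → Attr ρ τ F →
  (∀ i j, lab i = lab j ↔ Same ρ τ h i j) → (∀ i, lab (lab i) = lab i) →
  (∀ i, i ∈ S ↔ lab i = i) → (∀ i, i ∈ T ↔ Same ρ τ h i j) → 0 ≤ p → 0 ≤ t →
  ∑ i ∈ S, ρ h i ^ p = 1 → ∑ i ∈ T, ρ (1 - h) i ^ t = 1 → dimL F ≤ p + t

/-- GENU: a measure with exponent `s` (upper) bounds the lower dimension. -/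
def S_GENU : Prop := ∀ (F : Set E2) (μ : Measure E2) (C s : ℝ), IsCompact F → F.Nontrivial →
  IsProbabilityMeasure μ → μ Fᶜ = 0 → 0 < C → 0 ≤ s →
  (∀ x ∈ F, ∀ r : ℝ, 0 < r → 0 < μ.real (ball x r)) →
  (∀ x ∈ F, ∀ r R : ℝ, 0 < r → r < R → R ≤ 1 →
    μ.real (ball x R) ≤ C * (R / r) ^ s * μ.real (ball x r)) → dimL F ≤ s

/-- GENL: a measure with exponent `s` (lower) bounds the Assouad dimension. -/
def S_GENL : Prop := ∀ (F : Set E2) (μ : Measure E2) (C s : ℝ), IsCompact F → F.Nonempty →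
  IsProbabilityMeasure μ → μ Fᶜ = 0 → 0 < C → 0 ≤ s →
  (∀ x ∈ F, ∀ r : ℝ, 0 < r → 0 < μ.real (ball x r)) →
  (∀ x ∈ F, ∀ r R : ℝ, 0 < r → r < R → R ≤ 1 →
    (R / r) ^ s * μ.real (ball x r) ≤ C * μ.real (ball x R)) → s ≤ dimA F

end Pool.Agent.R660.SC
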