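import Mathlib
import Pool.Agent.R660.SC.Defs

/-! SC-COUNT (MP_a82451_an): boundedly many boxes of level `k` in a ball of radius `A β⁻ᵏ`.
helper634. The left ends of different boxes fall in different cells of a grid of mesh `δ β⁻ᵏ`. -/

open Set Filter Topology MeasureTheory Metric

namespace Pool.Agent.R660.SC.COUNT

theorem main (hL : S_LEN) : S_COUNT := by
  classical
  intro ι _ _ ρ τ lab β hAdm hLab hβ hSep A
  obtain ⟨h1, -, h3, -, ⟨δ, hδ, h5⟩, -, -, -, -⟩ := hL ι ρ τ lab β hAdm hLab hβ
  set m : ℤ := ⌊-((A + 1) / δ)⌋ with hm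
  set M : ℤ := ⌊A / δ⌋ with hM
  refine ⟨(Fintype.piFinset (fun _ : Fin 2 => Finset.Icc m M)).card, ?_⟩
  intro k x F rep hF
  have hb : 0 < (1 / β) ^ k := by positivity
  set s : ℝ := δ * (1 / β) ^ k with hs
  have hspos : 0 < s := by positivity
  set key : (Fin 2 → List ι) → Fin 2 → ℤ := fun v h =>
    ⌊(lft ρ τ h (rep v) (Ln ρ β h (rep v) k) - x h) / s⌋ with hkey
  apply Finset.card_le_card_of_injOn key
  · intro v hv
    obtain ⟨-, hd⟩ := hF v hv
    rw [Finset.mem_coe, Fintype.mem_piFinset]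
    intro h
    have hpt := h1 h (rep v) (Ln ρ β h (rep v) k)
    have hP := h3 h (rep v) k
    have hxh : |pt ρ τ (rep v) h - x h| ≤ A * (1 / β) ^ k := by
      refine le_trans ?_ hd
      rw [dist_eq_norm]
      have := PiLp.norm_apply_le (pt ρ τ (rep v) - x) h
      simpa [Real.norm_eq_abs] using this
    have hx2 := abs_le.1 hxh
    rw [Finset.mem_Icc]
    constructor
    · rw [hm, hkey]
      apply Int.floor_le_floor
      rw [le_div_iff₀ hspos, hs]
      have e1 : -((A + 1) / δ) * (δ * (1 / β) ^ k) = -((A + 1) * (1 / β) ^ k) := by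
        field_simp
      rw [e1]
      linarith
    · rw [hM, hkey]
      apply Int.floor_le_floor
      rw [div_le_iff₀ hspos, hs]
      have e1 : A / δ * (δ * (1 / β) ^ k) = A * (1 / β) ^ k := by
        field_simp
      rw [e1]
      linarith
  · intro v hv w hw hvw
    by_contra hne
    have hbv := (hF v hv).1
    have hbw := (hF w hw).1
    obtain ⟨h, hh⟩ := hSep k (rep v) (rep w) (by rw [hbv, hbw]; exact hne)
    have hfl : ⌊(lft ρ τ h (rep v) (Ln ρ β h (rep v) k) - x h) / s⌋ =
        ⌊(lft ρ τ h (rep w) (Ln ρ β h (rep w) k) - x h) / s⌋ := congrFun hvw h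
    have habs := Int.abs_sub_lt_one_of_floor_eq_floor hfl
    rw [← sub_div, abs_div, abs_of_pos hspos, div_lt_one hspos] at habs
    have habs2 := abs_lt.1 habs
    have hv5 := h5 h (rep v) k
    have hw5 := h5 h (rep w) k
    rcases hh with hh | hh <;> linarith

end Pool.Agent.R660.SC.COUNT
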