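import Pool.Agent.R660.SC.Defs

/-! SC-DIMA: lower bound of the Assouad dimension (adapted from helper888's SH/DIMA.lean). -/

set_option autoImplicit false

open Set Filter Topology MeasureTheory Metric

namespace Pool.Agent.R660.SC.DIMA

/-! ### metric lemmas -/

lemma coverN_le {ι : Type} [Fintype ι] {r : ℝ} {E : Set E2}
    (U : ι → Set E2) (hU : ∀ i, Metric.ediam (U i) ≤ ENNReal.ofReal r)
    (hE : E ⊆ ⋃ i, U i) : coverN r E ≤ Fintype.card ι := by
  unfold coverN
  apply Nat.sInf_le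
  refine ⟨fun i => U ((Fintype.equivFin ι).symm i), fun i => hU _, ?_⟩
  intro x hx
  obtain ⟨i, hi⟩ := mem_iUnion.1 (hE hx)
  refine mem_iUnion.2 ⟨Fintype.equivFin ι i, ?_⟩
  simpa using hi

lemma coverN_spec {K E : Set E2} (hK : IsCompact K) (hE : E ⊆ K) {r : ℝ}
    (hr : 0 < r) : ∃ U : Fin (coverN r E) → Set E2,
      (∀ i, Metric.ediam (U i) ≤ ENNReal.ofReal r) ∧ E ⊆ ⋃ i, U i := by
  have hne : {m : ℕ | ∃ U : Fin m → Set E2,
      (∀ i, Metric.ediam (U i) ≤ ENNReal.ofReal r) ∧ E ⊆ ⋃ i, U i}.Nonempty := by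
    obtain ⟨t, htK, htf, ht⟩ := finite_cover_balls_of_compact hK (show 0 < r / 2 by positivity)
    have := htf.fintype
    refine ⟨Fintype.card t, fun i => ball ((Fintype.equivFin t).symm i : E2)
      (r / 2), ?_, ?_⟩
    · intro i
      apply Metric.ediam_le
      intro y hy z hz
      rw [edist_dist]
      apply ENNReal.ofReal_le_ofReal
      have h1 := dist_triangle_right y z ((Fintype.equivFin t).symm i : E2)
      rw [mem_ball] at hy hz
      linarith
    · intro x hx
      obtain ⟨y, hy, hxy⟩ := mem_iUnion₂.1 (ht (hE hx))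
      refine mem_iUnion.2 ⟨Fintype.equivFin t ⟨y, hy⟩, ?_⟩
      simpa using hxy
  exact Nat.sInf_mem hne

lemma dist_le_sum (x y : E2) : dist x y ≤ ∑ l, |x l - y l| := by
  rw [EuclideanSpace.dist_eq]
  apply Real.sqrt_le_iff.2
  refine ⟨Finset.sum_nonneg (fun _ _ => abs_nonneg _), ?_⟩
  simp_rw [Real.dist_eq]
  exact Finset.sum_sq_le_sq_sum_of_nonneg (fun i _ => abs_nonneg _)

lemma abs_sub_le_dist (x y : E2) (l : Fin 2) : |x l - y l| ≤ dist x y := by
  rw [dist_eq_norm]
  have h := PiLp.norm_apply_le (x - y) l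
  simpa using h

lemma grid_nonempty (K : Set E2) :
    {s : ℝ | 0 ≤ s ∧ ∃ C : ℝ, 0 < C ∧ ∀ x ∈ K, ∀ r R : ℝ, 0 < r → r < R →
    (coverN r (closedBall x R ∩ K) : ℝ) ≤ C * (R / r) ^ s}.Nonempty := by
  refine ⟨((2 : ℕ) : ℝ), by positivity, 7 ^ 2, by positivity, ?_⟩
  intro x _ r R hr hrR
  have hR : 0 < R := hr.trans hrR
  set q : ℕ := ⌊2 * R * 3 / r⌋₊ with hq
  -- the cover
  let U : (Fin 2 → Fin (q + 1)) → Set E2 := fun c =>
    {y | y ∈ closedBall x R ∧ ∀ l, ⌊(y l - (x l - R)) * 3 / r⌋₊ = (c l).val}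
  have hcov : closedBall x R ∩ K ⊆ ⋃ c, U c := by
    intro y hy
    have hyl : ∀ l, |y l - x l| ≤ R := fun l => (abs_sub_le_dist y x l).trans hy.1
    refine mem_iUnion.2 ⟨fun l => ⟨⌊(y l - (x l - R)) * 3 / r⌋₊, ?_⟩, hy.1, fun l => rfl⟩
    rw [Nat.lt_succ_iff]
    apply Nat.floor_le_floor
    apply div_le_div_of_nonneg_right _ hr.le
    apply mul_le_mul_of_nonneg_right _ (by positivity)
    have := (abs_le.1 (hyl l)).2
    linarith
  have hdiam : ∀ c, Metric.ediam (U c) ≤ ENNReal.ofReal r := by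
    intro c
    apply Metric.ediam_le
    rintro y ⟨hy, hyc⟩ z ⟨hz, hzc⟩
    rw [edist_dist]
    apply ENNReal.ofReal_le_ofReal
    refine (dist_le_sum y z).trans ?_
    have hl : ∀ l ∈ (Finset.univ : Finset (Fin 2)), |y l - z l| ≤ r / 3 := by
      intro l _
      have e1 := hyc l
      have e2 := hzc l
      have a1 : 0 ≤ (y l - (x l - R)) * 3 / r := by
        have := (abs_le.1 ((abs_sub_le_dist y x l).trans hy)).1
        have : 0 ≤ y l - (x l - R) := by linarith
        positivity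
      have a2 : 0 ≤ (z l - (x l - R)) * 3 / r := by
        have := (abs_le.1 ((abs_sub_le_dist z x l).trans hz)).1
        have : 0 ≤ z l - (x l - R) := by linarith
        positivity
      have b1 := Nat.floor_le a1
      have b2 := Nat.floor_le a2
      have b3 := Nat.lt_floor_add_one ((y l - (x l - R)) * 3 / r)
      have b4 := Nat.lt_floor_add_one ((z l - (x l - R)) * 3 / r)
      rw [e1] at b1 b3
      rw [e2] at b2 b4
      have key : |(y l - z l) * 3 / r| ≤ 1 := by
        have e : (y l - z l) * 3 / r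
            = (y l - (x l - R)) * 3 / r - (z l - (x l - R)) * 3 / r := by ring
        rw [e, abs_le]
        constructor <;> linarith
      rw [abs_div, abs_mul, abs_of_pos (by norm_num : (0:ℝ) < 3), abs_of_pos hr,
        div_le_one hr] at key
      rw [le_div_iff₀ (by norm_num)]
      exact key
    refine (Finset.sum_le_sum hl).trans ?_
    rw [Finset.sum_const, Finset.card_univ, Fintype.card_fin, nsmul_eq_mul]
    push_cast
    linarith
  have h1 := coverN_le (E := closedBall x R ∩ K) U hdiam hcov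
  rw [Fintype.card_fun, Fintype.card_fin, Fintype.card_fin] at h1
  have h2 : (coverN r (closedBall x R ∩ K) : ℝ) ≤ ((q:ℝ) + 1) ^ 2 := by exact_mod_cast h1
  refine h2.trans ?_
  have h3 : (q:ℝ) + 1 ≤ 7 * (R / r) := by
    have h4 : (q:ℝ) ≤ 2 * R * 3 / r := Nat.floor_le (by positivity)
    have h5 : 1 ≤ R / r := by rw [le_div_iff₀ hr]; linarith
    have h6 : 2 * R * 3 / r = 6 * (R / r) := by ring
    nlinarith
  rw [Real.rpow_natCast, ← mul_pow]
  exact pow_le_pow_left₀ (by positivity) h3 2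

/-- counting separated points -/
lemma geo {κ : Type} {K : Set E2} (hK : IsCompact K) (x0 : E2) {R r : ℝ} (hr : 0 < r)
    (G : Finset κ) (P : κ → E2) (hP : ∀ g ∈ G, P g ∈ closedBall x0 R ∩ K)
    (y : κ → Fin 2 → ℝ) (hy1 : ∀ g ∈ G, ∀ l, y g l ≤ P g l ∧ P g l - r ≤ y g l)
    (hy2 : ∀ g ∈ G, ∀ g' ∈ G, g ≠ g' → ∃ l, r ≤ |y g l - y g' l|) :
    (G.card : ℝ) ≤ 16 * (coverN r (closedBall x0 R ∩ K) : ℝ) := by
  classical
  obtain ⟨U, hU, hcov⟩ := coverN_spec (E := closedBall x0 R ∩ K) hK inter_subset_right hr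
  have hidx : ∀ u : κ, ∃ i : Option (Fin (coverN r (closedBall x0 R ∩ K))),
      u ∈ G → ∃ j, i = some j ∧ P u ∈ U j := by
    intro u
    by_cases hu : u ∈ G
    · obtain ⟨j, hj⟩ := mem_iUnion.1 (hcov (hP u hu))
      exact ⟨some j, fun _ => ⟨j, rfl, hj⟩⟩
    · exact ⟨none, fun h => absurd h hu⟩
  choose idx hidx using hidx
  have hmain : G.card ≤ 16 * ((Finset.univ :
      Finset (Fin (coverN r (closedBall x0 R ∩ K)))).image some).card := by
    apply Finset.card_le_mul_card_image_of_maps_to (f := idx)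
    · intro u hu
      obtain ⟨j, hj, -⟩ := hidx u hu
      rw [hj]
      exact Finset.mem_image_of_mem _ (Finset.mem_univ _)
    · intro i hi
      obtain ⟨j, -, rfl⟩ := Finset.mem_image.1 hi
      rcases (Finset.filter (fun u => idx u = some j) G).eq_empty_or_nonempty with h0 | ⟨u0, hu0⟩
      · rw [h0]; simp
      · have hmaps : ∀ u ∈ Finset.filter (fun u => idx u = some j) G,
            (fun l => ⌊y u l / r⌋) ∈ Fintype.piFinset
              (fun l => Finset.Icc (⌊P u0 l / r⌋ - 2) (⌊P u0 l / r⌋ + 1)) := by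
          intro u hu
          rw [Finset.mem_filter] at hu hu0
          obtain ⟨j1, hj1, hu1⟩ := hidx u hu.1
          obtain ⟨j2, hj2, hu2⟩ := hidx u0 hu0.1
          have hjj1 : j1 = j := Option.some_injective _ (hj1.symm.trans hu.2)
          have hjj2 : j2 = j := Option.some_injective _ (hj2.symm.trans hu0.2)
          rw [hjj1] at hu1
          rw [hjj2] at hu2
          have hd1 : dist (P u) (P u0) ≤ r := by
            have h5 := (Metric.edist_le_ediam_of_mem hu1 hu2).trans (hU j)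
            rw [edist_dist] at h5
            exact (ENNReal.ofReal_le_ofReal_iff hr.le).1 h5
          rw [Fintype.mem_piFinset]
          intro l
          have b3 := abs_le.1 ((abs_sub_le_dist (P u) (P u0) l).trans hd1)
          have b4 := hy1 u hu.1 l
          rw [Finset.mem_Icc]
          have c1 : P u0 l / r - 2 ≤ y u l / r := by
            rw [div_sub' hr.ne', div_le_div_iff_of_pos_right hr]
            linarith
          have c2 : y u l / r ≤ P u0 l / r + 1 := by
            rw [div_add' _ _ _ hr.ne', div_le_div_iff_of_pos_right hr]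
            linarith
          constructor
          · rw [Int.le_floor]
            push_cast
            have := Int.floor_le (P u0 l / r)
            linarith
          · rw [← Int.lt_add_one_iff, Int.floor_lt]
            push_cast
            have := Int.lt_floor_add_one (P u0 l / r)
            linarith
        have hinj : Set.InjOn (fun (u : κ) (l : Fin 2) => ⌊y u l / r⌋)
            (Finset.filter (fun u => idx u = some j) G : Set κ) := by
          intro u hu u' hu' he
          have hu1 := (Finset.mem_filter.1 (Finset.mem_coe.1 hu)).1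
          have hu2 := (Finset.mem_filter.1 (Finset.mem_coe.1 hu')).1
          by_contra hne
          obtain ⟨l, hl⟩ := hy2 u hu1 u' hu2 hne
          have h1 : ⌊y u l / r⌋ = ⌊y u' l / r⌋ := congrFun he l
          have h2 := Int.abs_sub_lt_one_of_floor_eq_floor h1
          rw [← sub_div, abs_div, abs_of_pos hr, div_lt_one hr] at h2
          linarith
        refine (Finset.card_le_card_of_injOn _ hmaps hinj).trans ?_
        rw [Fintype.card_piFinset]
        simp only [Int.card_Icc, Fin.prod_univ_two]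
        have e : ∀ c : ℤ, (c + 1 + 1 - (c - 2)).toNat = 4 := by intro c; omega
        rw [e, e]
        norm_num
  have hcard : ((Finset.univ : Finset (Fin (coverN r (closedBall x0 R ∩ K)))).image
      some).card ≤ coverN r (closedBall x0 R ∩ K) := by
    refine Finset.card_image_le.trans ?_
    simp
  have hfin := hmain.trans (Nat.mul_le_mul_left 16 hcard)
  exact_mod_cast hfin

/-! ### words -/

variable {ι : Type}

/-- adding a digit -/
def cons (i : ι) (ω : ℕ → ι) : ℕ → ι
  | 0 => i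
  | (q + 1) => ω q

/-- adding a word -/
def app : List ι → (ℕ → ι) → ℕ → ι
  | [], ω => ω
  | i :: w, ω => cons i (app w ω)

/-- product of the ratios -/
def pr (ρ : Fin 2 → ι → ℝ) (h : Fin 2) (w : List ι) : ℝ := (w.map (ρ h)).prod

/-- left end -/
def lf (ρ τ : Fin 2 → ι → ℝ) (h : Fin 2) : List ι → ℝ
  | [] => 0
  | i :: w => τ h i + ρ h i * lf ρ τ h w

lemma app_append (w w' : List ι) (ω : ℕ → ι) : app (w ++ w') ω = app w (app w' ω) := by
  induction w with
  | nil => rfl
  | cons i w ih => simp [app, ih]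

lemma PP_cons (ρ : Fin 2 → ι → ℝ) (h : Fin 2) (i : ι) (ω : ℕ → ι) (n : ℕ) :
    PP ρ h (cons i ω) (n + 1) = ρ h i * PP ρ h ω n := by
  unfold PP
  rw [Finset.prod_range_succ', mul_comm]
  rfl

lemma lft_cons (ρ τ : Fin 2 → ι → ℝ) (h : Fin 2) (i : ι) (ω : ℕ → ι) (n : ℕ) :
    lft ρ τ h (cons i ω) (n + 1) = τ h i + ρ h i * lft ρ τ h ω n := by
  unfold lft
  rw [Finset.sum_range_succ', Finset.mul_sum, add_comm]
  congr 1
  · simp [PP, cons]
  · refine Finset.sum_congr rfl fun q _ => ?_
    rw [PP_cons]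
    simp [cons, mul_assoc]

lemma PP_app (ρ : Fin 2 → ι → ℝ) (h : Fin 2) (w : List ι) (ω : ℕ → ι) :
    PP ρ h (app w ω) w.length = pr ρ h w := by
  induction w with
  | nil => simp [PP, pr]
  | cons i w ih =>
    rw [List.length_cons]
    show PP ρ h (cons i (app w ω)) (w.length + 1) = _
    rw [PP_cons, ih]
    simp [pr]

lemma lft_app (ρ τ : Fin 2 → ι → ℝ) (h : Fin 2) (w : List ι) (ω : ℕ → ι) :
    lft ρ τ h (app w ω) w.length = lf ρ τ h w := by
  induction w with
  | nil => simp [lft, lf]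
  | cons i w ih =>
    rw [List.length_cons]
    show lft ρ τ h (cons i (app w ω)) (w.length + 1) = _
    rw [lft_cons, ih]
    simp [lf]

lemma pr_append (ρ : Fin 2 → ι → ℝ) (h : Fin 2) (w w' : List ι) :
    pr ρ h (w ++ w') = pr ρ h w * pr ρ h w' := by
  simp [pr]

lemma lf_append (ρ τ : Fin 2 → ι → ℝ) (h : Fin 2) (w w' : List ι) :
    lf ρ τ h (w ++ w') = lf ρ τ h w + pr ρ h w * lf ρ τ h w' := by
  induction w with
  | nil => simp [lf, pr]
  | cons i w ih =>
    simp only [List.cons_append, lf, ih, pr, List.map_cons, List.prod_cons]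
    ring

lemma pr_replicate (ρ : Fin 2 → ι → ℝ) (h : Fin 2) (n : ℕ) (i : ι) :
    pr ρ h (List.replicate n i) = ρ h i ^ n := by
  simp [pr]

lemma pr_pos {ρ τ : Fin 2 → ι → ℝ} (hA : Adm ρ τ) (h : Fin 2) (w : List ι) : 0 < pr ρ h w := by
  induction w with
  | nil => simp [pr]
  | cons i w ih =>
    have : pr ρ h (i :: w) = ρ h i * pr ρ h w := by simp [pr]
    rw [this]
    exact mul_pos (hA h i).1 ih

lemma lf_mem {ρ τ : Fin 2 → ι → ℝ} (hA : Adm ρ τ) (h : Fin 2) (w : List ι) :
    0 ≤ lf ρ τ h w ∧ lf ρ τ h w + pr ρ h w ≤ 1 := by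
  induction w with
  | nil => simp [lf, pr]
  | cons i w ih =>
    have h1 : pr ρ h (i :: w) = ρ h i * pr ρ h w := by simp [pr]
    have h2 : lf ρ τ h (i :: w) = τ h i + ρ h i * lf ρ τ h w := rfl
    obtain ⟨a1, a2, a3, a4⟩ := hA h i
    rw [h1, h2]
    constructor
    · have := mul_nonneg a1.le ih.1
      linarith
    · have : ρ h i * (lf ρ τ h w + pr ρ h w) ≤ ρ h i * 1 := mul_le_mul_of_nonneg_left ih.2 a1.le
      linarith

/-- words in the class of `j` look like `j` in direction `h` -/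
lemma same_word {ρ τ : Fin 2 → ι → ℝ} {h : Fin 2} {j : ι} (w : List ι)
    (hw : ∀ i ∈ w, Same ρ τ h i j) : pr ρ h w = pr ρ h (List.replicate w.length j) ∧
      lf ρ τ h w = lf ρ τ h (List.replicate w.length j) := by
  induction w with
  | nil => exact ⟨rfl, rfl⟩
  | cons i w ih =>
    have h1 := ih (fun i hi => hw i (List.mem_cons_of_mem _ hi))
    have h2 := hw i List.mem_cons_self
    rw [List.length_cons, List.replicate_succ]
    constructor
    · have e1 : pr ρ h (i :: w) = ρ h i * pr ρ h w := by simp [pr]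
      have e2 : pr ρ h (j :: List.replicate w.length j)
        = ρ h j * pr ρ h (List.replicate w.length j) := by simp [pr]
      rw [e1, e2, h1.1, h2.1]
    · show τ h i + ρ h i * lf ρ τ h w = τ h j + ρ h j * lf ρ τ h (List.replicate w.length j)
      rw [h1.2, h2.1, h2.2]

/-- many words with separated intervals -/
lemma words [DecidableEq ι] {ρ τ : Fin 2 → ι → ℝ} (hA : Adm ρ τ) (h : Fin 2) (T : Finset ι)
    {t δ c : ℝ} (ht : 0 ≤ t) (hδ : 0 < δ) (hρδ : ∀ i, δ ≤ ρ h i)
    (hc : 0 < c) (hρc : ∀ i, ρ h i ≤ c)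
    (hT : ∀ i ∈ T, ∀ i' ∈ T, i ≠ i' → Disj ρ τ h i i')
    (hsum : ∑ i ∈ T, ρ h i ^ t = 1) : ∀ (n : ℕ) (ε : ℝ), 0 < ε → c ^ n ≤ ε → δ * ε ≤ 1 →
    ∃ V : Finset (List ι), (∀ v ∈ V, (∀ i ∈ v, i ∈ T) ∧ δ * ε ≤ pr ρ h v) ∧
      (∀ v ∈ V, ∀ v' ∈ V, v ≠ v' → lf ρ τ h v + pr ρ h v ≤ lf ρ τ h v' ∨
        lf ρ τ h v' + pr ρ h v' ≤ lf ρ τ h v) ∧ ε ^ (-t) ≤ (V.card : ℝ) := by
  have base : ∀ ε : ℝ, 1 ≤ ε → δ * ε ≤ 1 →
      ∃ V : Finset (List ι), (∀ v ∈ V, (∀ i ∈ v, i ∈ T) ∧ δ * ε ≤ pr ρ h v) ∧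
      (∀ v ∈ V, ∀ v' ∈ V, v ≠ v' → lf ρ τ h v + pr ρ h v ≤ lf ρ τ h v' ∨
        lf ρ τ h v' + pr ρ h v' ≤ lf ρ τ h v) ∧ ε ^ (-t) ≤ (V.card : ℝ) := by
    intro ε h1 h2
    refine ⟨{[]}, ?_, ?_, ?_⟩
    · intro v hv
      rw [Finset.mem_singleton] at hv
      subst hv
      refine ⟨by simp, ?_⟩
      simpa [pr] using h2
    · intro v hv v' hv' hne
      rw [Finset.mem_singleton] at hv hv'
      exact absurd (hv.trans hv'.symm) hne
    · rw [Finset.card_singleton]
      push_cast
      exact Real.rpow_le_one_of_one_le_of_nonpos h1 (by linarith)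
  intro n
  induction n with
  | zero =>
    intro ε _ h1 h2
    exact base ε (by simpa using h1) h2
  | succ n ih =>
    intro ε hε h1 h2
    rcases le_or_gt 1 ε with h3 | h3
    · exact base ε h3 h2
    · have hi : ∀ i, ∃ V : Finset (List ι), (∀ v ∈ V, (∀ i ∈ v, i ∈ T) ∧
          δ * (ε / ρ h i) ≤ pr ρ h v) ∧
          (∀ v ∈ V, ∀ v' ∈ V, v ≠ v' → lf ρ τ h v + pr ρ h v ≤ lf ρ τ h v' ∨
            lf ρ τ h v' + pr ρ h v' ≤ lf ρ τ h v) ∧ (ε / ρ h i) ^ (-t) ≤ (V.card : ℝ) := by
        intro i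
        have hp := (hA h i).1
        apply ih (ε / ρ h i) (by positivity)
        · rw [le_div_iff₀ hp]
          calc c ^ n * ρ h i ≤ c ^ n * c := by gcongr; exact hρc i
            _ ≤ ε := by rw [← pow_succ]; exact h1
        · rw [← mul_div_assoc, div_le_one hp]
          have := hρδ i
          nlinarith
      choose V hV1 hV2 hV3 using hi
      refine ⟨T.biUnion fun i => (V i).image (fun v => i :: v), ?_, ?_, ?_⟩
      · intro v hv
        rw [Finset.mem_biUnion] at hv
        obtain ⟨i, hiT, hv⟩ := hv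
        rw [Finset.mem_image] at hv
        obtain ⟨v, hv, rfl⟩ := hv
        have hp := (hA h i).1
        refine ⟨?_, ?_⟩
        · intro i' hi'
          rcases List.mem_cons.1 hi' with rfl | h4
          · exact hiT
          · exact (hV1 i v hv).1 i' h4
        · have e1 : pr ρ h (i :: v) = ρ h i * pr ρ h v := by simp [pr]
          rw [e1]
          calc δ * ε = ρ h i * (δ * (ε / ρ h i)) := by field_simp
            _ ≤ ρ h i * pr ρ h v := mul_le_mul_of_nonneg_left (hV1 i v hv).2 hp.le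
      · intro v hv v' hv' hne
        rw [Finset.mem_biUnion] at hv hv'
        obtain ⟨i, hiT, hv⟩ := hv
        obtain ⟨i', hiT', hv'⟩ := hv'
        rw [Finset.mem_image] at hv hv'
        obtain ⟨v, hv, rfl⟩ := hv
        obtain ⟨v', hv', rfl⟩ := hv'
        have e1 : pr ρ h (i :: v) = ρ h i * pr ρ h v := by simp [pr]
        have e2 : pr ρ h (i' :: v') = ρ h i' * pr ρ h v' := by simp [pr]
        have e3 : lf ρ τ h (i :: v) = τ h i + ρ h i * lf ρ τ h v := rfl
        have e4 : lf ρ τ h (i' :: v') = τ h i' + ρ h i' * lf ρ τ h v' := rfl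
        rw [e1, e2, e3, e4]
        have m1 := lf_mem hA h v
        have m2 := lf_mem hA h v'
        have p1 := (hA h i).1
        have p2 := (hA h i').1
        by_cases hii : i = i'
        · subst hii
          have hne' : v ≠ v' := fun h => hne (by rw [h])
          rcases hV2 i v hv v' hv' hne' with h5 | h5
          · left
            have := mul_le_mul_of_nonneg_left h5 p1.le
            linarith
          · right
            have := mul_le_mul_of_nonneg_left h5 p1.le
            linarith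
        · have q1 := mul_le_mul_of_nonneg_left m1.2 p1.le
          have q2 := mul_le_mul_of_nonneg_left m2.2 p2.le
          have q3 := mul_nonneg p1.le m1.1
          have q4 := mul_nonneg p2.le m2.1
          rcases hT i hiT i' hiT' hii with h5 | h5
          · left; linarith
          · right; linarith
      · rw [Finset.card_biUnion]
        · push_cast
          have e1 : ∀ i ∈ T, ε ^ (-t) * ρ h i ^ t ≤
              (((V i).image (fun v => i :: v)).card : ℝ) := by
            intro i _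
            rw [Finset.card_image_of_injective _ (List.cons_injective)]
            refine le_trans (le_of_eq ?_) (hV3 i)
            have hp := (hA h i).1
            rw [Real.div_rpow hε.le hp.le, Real.rpow_neg hp.le, div_inv_eq_mul]
          refine le_trans ?_ (Finset.sum_le_sum e1)
          rw [← Finset.mul_sum, hsum, mul_one]
        · intro i _ i' _ hne
          show Disjoint ((V i).image (fun v => i :: v)) ((V i').image (fun v => i' :: v))
          rw [Finset.disjoint_left]
          intro v hv hv'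
          rw [Finset.mem_image] at hv hv'
          obtain ⟨v1, -, rfl⟩ := hv
          obtain ⟨v2, -, h2⟩ := hv'
          exact hne (List.cons.inj h2).1.symm

/-- sub-intervals of the same length are separated -/
lemma sep {lo hi lo' hi' x x' r : ℝ} (h1 : lo + r ≤ hi) (h2 : lo' + r ≤ hi')
    (hx : x ≤ hi) (hx' : x' ≤ hi') (hd : hi ≤ lo' ∨ hi' ≤ lo) :
    r ≤ |max lo (x - r) - max lo' (x' - r)| := by
  have a1 : max lo (x - r) + r ≤ hi := by
    rcases max_choice lo (x - r) with h | h <;> rw [h] <;> linarith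
  have a2 : max lo' (x' - r) + r ≤ hi' := by
    rcases max_choice lo' (x' - r) with h | h <;> rw [h] <;> linarith
  have a3 := le_max_left lo (x - r)
  have a4 := le_max_left lo' (x' - r)
  rw [le_abs]
  rcases hd with h | h
  · right; linarith
  · left; linarith

lemma fne (h : Fin 2) : (1 - h) ≠ h := by
  fin_cases h <;> decide

lemma for2 (h l : Fin 2) : l = h ∨ l = 1 - h := by
  fin_cases h <;> fin_cases l <;> decide

lemma quot {a R x : ℝ} (ha : a ≠ 0) (hR : R ≠ 0) (hx : x ≠ 0) :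
    2 * R / (a * x⁻¹ * R) = 2 / a * x := by
  field_simp

theorem main (hC : S_CODE) (hL : S_LEN) : S_DIMA := by
  intro ι _ ρ τ F h lab S T j p t hA hStr hex0 hF hlab1 hlab2 hS hT hp ht hsS hsT
  obtain ⟨i0, hi0⟩ := hex0
  classical
  have : Nonempty ι := ⟨i0⟩
  have hrange := hC ι ρ τ F hA hF
  have hlabel : Lab ρ τ (fun _ i => i) := by
    refine ⟨?_, fun i j hij => hij 0, fun _ _ => rfl⟩
    intro k i j hij
    have hij' : i = j := hij
    rw [hij']
    exact ⟨rfl, rfl⟩
  have hbox := (hL ι ρ τ (fun _ i => i) 2 hA hlabel (by norm_num)).1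
  have hpt : ∀ k w ω, lf ρ τ k w ≤ pt ρ τ (app w ω) k ∧
      pt ρ τ (app w ω) k ≤ lf ρ τ k w + pr ρ k w := by
    intro k w ω
    have := hbox k (app w ω) w.length
    rwa [lft_app, PP_app] at this
  obtain ⟨δ, hδ, hδ1, hρδ⟩ : ∃ δ : ℝ, 0 < δ ∧ δ ≤ 1 ∧ ∀ k i, δ ≤ ρ k i := by
    obtain ⟨z, -, hz⟩ := Finset.exists_min_image (Finset.univ : Finset (Fin 2 × ι))
      (fun z => ρ z.1 z.2) ⟨(0, i0), Finset.mem_univ _⟩
    exact ⟨ρ z.1 z.2, (hA z.1 z.2).1, (hA z.1 z.2).2.1.le, fun k i => hz (k, i) (Finset.mem_univ _)⟩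
  obtain ⟨c, hc0, hc1, hρc⟩ : ∃ c : ℝ, 0 < c ∧ c < 1 ∧ ∀ k i, ρ k i ≤ c := by
    obtain ⟨z, -, hz⟩ := Finset.exists_max_image (Finset.univ : Finset (Fin 2 × ι))
      (fun z => ρ z.1 z.2) ⟨(0, i0), Finset.mem_univ _⟩
    exact ⟨ρ z.1 z.2, (hA z.1 z.2).1, (hA z.1 z.2).2.1, fun k i => hz (k, i) (Finset.mem_univ _)⟩
  have hdT : ∀ i ∈ T, ∀ i' ∈ T, i ≠ i' → Disj ρ τ (1 - h) i i' := by
    intro i hi i' hi' hne
    have h1 := (hT i).1 hi
    have h2 := (hT i').1 hi'
    exact hStr.2 i i' hne ⟨h1.1.trans h2.1.symm, h1.2.trans h2.2.symm⟩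
  have hdS : ∀ i ∈ S, ∀ i' ∈ S, i ≠ i' → Disj ρ τ h i i' := by
    intro i hi i' hi' hne
    rcases hStr.1 i i' with h1 | h1
    · have h2 := (hlab1 i i').2 h1
      rw [(hS i).1 hi, (hS i').1 hi'] at h2
      exact absurd h2 hne
    · exact h1
  have hhne : (1 - h) ≠ h := fne h
  have hor : ∀ l : Fin 2, l = h ∨ l = 1 - h := for2 h
  refine le_csInf (grid_nonempty F) ?_
  rintro s' ⟨hs', C, hC0, hcov⟩
  by_contra hlt
  rw [not_le] at hlt
  have key : ∀ x : ℝ, 1 < x → x ^ t * x ^ p ≤ 16 * C * (2 / δ ^ 2) ^ s' * x ^ s' := by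
    intro x hx
    have hx0 : 0 < x := by linarith
    set ε : ℝ := x⁻¹ with hε'
    have hε : 0 < ε := by positivity
    have hε1 : ε < 1 := inv_lt_one_of_one_lt₀ hx
    have hδε : δ * ε ≤ 1 := by nlinarith
    obtain ⟨n, hn⟩ := exists_pow_lt_of_lt_one hε hc1
    obtain ⟨V, hV1, hV2, hV3⟩ := words hA (1 - h) T ht hδ (hρδ (1 - h)) hc0 (hρc (1 - h)) hdT
      hsT n ε hε hn.le hδε
    obtain ⟨W, hW1, hW2, hW3⟩ := words hA h S hp hδ (hρδ h) hc0 (hρc h) hdS
      hsS n ε hε hn.le hδε
    set M := V.sup List.length with hMdef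
    have hM : ∀ v ∈ V, v.length ≤ M := fun v hv => Finset.le_sup (f := List.length) hv
    have ha : 0 < ρ h i0 := (hA h i0).1
    have hb : 0 < ρ (1 - h) i0 := (hA (1 - h) i0).1
    have hj : 0 < ρ h j := (hA h j).1
    have hj1 : ρ h j < 1 := (hA h j).2.1
    obtain ⟨N, hN⟩ := exists_pow_lt_of_lt_one (show 0 < ρ h j ^ M by positivity)
      (show ρ (1 - h) i0 / ρ h i0 < 1 by rw [div_lt_one ha]; exact hi0)
    have hN' : ρ (1 - h) i0 ^ N < ρ h j ^ M * ρ h i0 ^ N := by
      rwa [div_pow, div_lt_iff₀ (by positivity)] at hN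
    have hex : ∃ m, ρ h j ^ m * ρ h i0 ^ N ≤ ρ (1 - h) i0 ^ N := by
      obtain ⟨m, hm⟩ := exists_pow_lt_of_lt_one
        (show 0 < ρ (1 - h) i0 ^ N / ρ h i0 ^ N by positivity) hj1
      rw [lt_div_iff₀ (by positivity)] at hm
      exact ⟨m, hm.le⟩
    set m := Nat.find hex with hmdef
    have hm1 : ρ h j ^ m * ρ h i0 ^ N ≤ ρ (1 - h) i0 ^ N := Nat.find_spec hex
    have hMm : M < m := by
      by_contra hcon
      push Not at hcon
      have h1 : ρ h j ^ M ≤ ρ h j ^ m := pow_le_pow_of_le_one hj.le hj1.le hcon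
      have h2 : ρ h j ^ M * ρ h i0 ^ N ≤ ρ h j ^ m * ρ h i0 ^ N := by gcongr
      linarith
    have hm2 : ρ (1 - h) i0 ^ N < ρ h j ^ (m - 1) * ρ h i0 ^ N :=
      not_le.1 (Nat.find_min hex (by omega))
    set R : ℝ := ρ (1 - h) i0 ^ N with hR
    have hR0 : 0 < R := by positivity
    set A : ℝ := ρ h j ^ m * ρ h i0 ^ N with hAdef
    have hA0 : 0 < A := by positivity
    have hAR : δ * R ≤ A := by
      have e1 : A = ρ h j * (ρ h j ^ (m - 1) * ρ h i0 ^ N) := by
        rw [hAdef, ← mul_assoc, ← pow_succ', Nat.sub_add_cancel (by omega)]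
      rw [e1]
      exact mul_le_mul (hρδ h j) hm2.le hR0.le hj.le
    set r : ℝ := δ ^ 2 * ε * R with hr
    have hr0 : 0 < r := by positivity
    set ω0 : ℕ → ι := fun _ => i0 with hω0
    set L0 : List ι := List.replicate N i0 with hL0
    have hprL0 : pr ρ (1 - h) L0 = R := pr_replicate _ _ _ _
    set L1 : List ι := List.replicate m j with hL1
    have hprA : pr ρ h (L0 ++ L1) = A := by
      rw [pr_append, hL0, hL1, pr_replicate, pr_replicate, hAdef]; ring
    set P : List ι × List ι → E2 := fun g =>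
      pt ρ τ (app (L0 ++ (g.1 ++ (List.replicate (m - g.1.length) j ++ g.2))) ω0) with hP
    set x0 : E2 := pt ρ τ (app (L0 ++ L1) ω0) with hx0def
    -- coordinates in direction `1 - h`
    have c1 : ∀ g, lf ρ τ (1 - h) (L0 ++ g.1) ≤ P g (1 - h) ∧
        P g (1 - h) ≤ lf ρ τ (1 - h) (L0 ++ g.1) + pr ρ (1 - h) (L0 ++ g.1) := by
      intro g
      have e1 : app (L0 ++ (g.1 ++ (List.replicate (m - g.1.length) j ++ g.2))) ω0 =
          app (L0 ++ g.1) (app (List.replicate (m - g.1.length) j ++ g.2) ω0) := by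
        rw [← List.append_assoc, app_append]
      rw [hP]
      simp only
      rw [e1]
      exact hpt _ _ _
    -- coordinates in direction `h`
    have c2 : ∀ g ∈ V ×ˢ W, lf ρ τ h (L0 ++ L1) + A * lf ρ τ h g.2 ≤ P g h ∧
        P g h ≤ lf ρ τ h (L0 ++ L1) + A * lf ρ τ h g.2 + A * pr ρ h g.2 := by
      intro g hg
      have hg1 := (Finset.mem_product.1 hg).1
      have hlen := hM _ hg1
      set w1 := g.1 ++ List.replicate (m - g.1.length) j with hw1
      have hw1len : w1.length = m := by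
        rw [hw1, List.length_append, List.length_replicate]; omega
      have hsame : ∀ i ∈ w1, Same ρ τ h i j := by
        intro i hi
        rw [hw1, List.mem_append] at hi
        rcases hi with hi | hi
        · exact (hT i).1 ((hV1 _ hg1).1 i hi)
        · rw [List.eq_of_mem_replicate hi]
          exact ⟨rfl, rfl⟩
      obtain ⟨s1, s2⟩ := same_word w1 hsame
      rw [hw1len] at s1 s2
      have e1 : app (L0 ++ (g.1 ++ (List.replicate (m - g.1.length) j ++ g.2))) ω0 =
          app ((L0 ++ w1) ++ g.2) ω0 := by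
        rw [hw1]
        simp only [List.append_assoc]
      have e2 : pr ρ h (L0 ++ w1) = A := by rw [pr_append, s1, ← pr_append, hprA]
      have e3 : lf ρ τ h (L0 ++ w1) = lf ρ τ h (L0 ++ L1) := by
        rw [lf_append, s2, ← lf_append]
      have h3 := hpt h ((L0 ++ w1) ++ g.2) ω0
      rw [lf_append, pr_append ρ h (L0 ++ w1), e2, e3, ← e1] at h3
      exact h3
    -- the window
    have w1 : ∀ g, lf ρ τ (1 - h) L0 ≤ P g (1 - h) ∧ P g (1 - h) ≤ lf ρ τ (1 - h) L0 + R := by
      intro g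
      have h3 := hpt (1 - h) L0 (app (g.1 ++ (List.replicate (m - g.1.length) j ++ g.2)) ω0)
      rw [← app_append, hprL0] at h3
      exact h3
    have w2 : lf ρ τ (1 - h) L0 ≤ x0 (1 - h) ∧ x0 (1 - h) ≤ lf ρ τ (1 - h) L0 + R := by
      have h3 := hpt (1 - h) L0 (app L1 ω0)
      rw [← app_append, hprL0] at h3
      exact h3
    have w3 : lf ρ τ h (L0 ++ L1) ≤ x0 h ∧ x0 h ≤ lf ρ τ h (L0 ++ L1) + A := by
      have h3 := hpt h (L0 ++ L1) ω0
      rw [hprA] at h3
      exact h3
    have w4 : ∀ g ∈ V ×ˢ W, lf ρ τ h (L0 ++ L1) ≤ P g h ∧ P g h ≤ lf ρ τ h (L0 ++ L1) + A := by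
      intro g hg
      have h3 := c2 g hg
      have h4 := lf_mem hA h g.2
      have h5 := mul_nonneg hA0.le h4.1
      have h6 := mul_le_mul_of_nonneg_left h4.2 hA0.le
      constructor <;> linarith [h3.1, h3.2]
    have hball : ∀ g ∈ V ×ˢ W, P g ∈ closedBall x0 (2 * R) ∩ F := by
      intro g hg
      refine ⟨?_, ?_⟩
      · rw [mem_closedBall]
        refine (dist_le_sum _ _).trans ?_
        have h3 : ∀ l, |P g l - x0 l| ≤ R := by
          intro l
          rcases hor l with rfl | rfl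
          · have := w4 g hg
            rw [abs_le]
            constructor <;> linarith [w3.1, w3.2, this.1, this.2]
          · have := w1 g
            rw [abs_le]
            constructor <;> linarith [w2.1, w2.2, this.1, this.2]
        rw [Fin.sum_univ_two]
        linarith [h3 0, h3 1]
      · rw [hrange]
        exact mem_range_self _
    set y : List ι × List ι → Fin 2 → ℝ := fun g l =>
      if l = h then max (lf ρ τ h (L0 ++ L1) + A * lf ρ τ h g.2) (P g h - r)
      else max (lf ρ τ (1 - h) (L0 ++ g.1)) (P g (1 - h) - r) with hy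
    have yh : ∀ g, y g h = max (lf ρ τ h (L0 ++ L1) + A * lf ρ τ h g.2) (P g h - r) :=
      fun g => if_pos rfl
    have yh' : ∀ g, y g (1 - h) = max (lf ρ τ (1 - h) (L0 ++ g.1)) (P g (1 - h) - r) :=
      fun g => if_neg hhne
    have hy1 : ∀ g ∈ V ×ˢ W, ∀ l, y g l ≤ P g l ∧ P g l - r ≤ y g l := by
      intro g hg l
      rcases hor l with hl | hl
      · rw [hl, yh]
        exact ⟨max_le (c2 g hg).1 (by linarith), le_max_right _ _⟩
      · rw [hl, yh']
        exact ⟨max_le (c1 g).1 (by linarith), le_max_right _ _⟩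
    have hlen1 : ∀ v ∈ V, r ≤ pr ρ (1 - h) (L0 ++ v) := by
      intro v hv
      rw [pr_append, hprL0, hr]
      calc δ ^ 2 * ε * R = R * (δ * (δ * ε)) := by ring
        _ ≤ R * (1 * (δ * ε)) := by gcongr
        _ = R * (δ * ε) := by ring
        _ ≤ R * pr ρ (1 - h) v := mul_le_mul_of_nonneg_left (hV1 v hv).2 hR0.le
    have hlen2 : ∀ u ∈ W, r ≤ A * pr ρ h u := by
      intro u hu
      rw [hr]
      calc δ ^ 2 * ε * R = (δ * R) * (δ * ε) := by ring
        _ ≤ A * pr ρ h u := mul_le_mul hAR (hW1 u hu).2 (by positivity) hA0.le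
    have hy2 : ∀ g ∈ V ×ˢ W, ∀ g' ∈ V ×ˢ W, g ≠ g' → ∃ l, r ≤ |y g l - y g' l| := by
      intro g hg g' hg' hne
      obtain ⟨hg1, hg2⟩ := Finset.mem_product.1 hg
      obtain ⟨hg1', hg2'⟩ := Finset.mem_product.1 hg'
      by_cases h1 : g.1 = g'.1
      · have h2 : g.2 ≠ g'.2 := fun h2 => hne (Prod.ext h1 h2)
        refine ⟨h, ?_⟩
        rw [yh, yh]
        refine sep (hi := lf ρ τ h (L0 ++ L1) + A * lf ρ τ h g.2 + A * pr ρ h g.2)
          (hi' := lf ρ τ h (L0 ++ L1) + A * lf ρ τ h g'.2 + A * pr ρ h g'.2)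
          (by linarith [hlen2 _ hg2]) (by linarith [hlen2 _ hg2']) (c2 g hg).2 (c2 g' hg').2 ?_
        rcases hW2 _ hg2 _ hg2' h2 with h3 | h3
        · left
          have := mul_le_mul_of_nonneg_left h3 hA0.le
          linarith
        · right
          have := mul_le_mul_of_nonneg_left h3 hA0.le
          linarith
      · refine ⟨1 - h, ?_⟩
        rw [yh', yh']
        refine sep (hi := lf ρ τ (1 - h) (L0 ++ g.1) + pr ρ (1 - h) (L0 ++ g.1))
          (hi' := lf ρ τ (1 - h) (L0 ++ g'.1) + pr ρ (1 - h) (L0 ++ g'.1))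
          (by linarith [hlen1 _ hg1]) (by linarith [hlen1 _ hg1']) (c1 g).2 (c1 g').2 ?_
        rw [lf_append, lf_append, pr_append, pr_append, hprL0]
        rcases hV2 _ hg1 _ hg1' h1 with h3 | h3
        · left
          have := mul_le_mul_of_nonneg_left h3 hR0.le
          linarith
        · right
          have := mul_le_mul_of_nonneg_left h3 hR0.le
          linarith
    have hcard := geo hF.1 x0 hr0 (V ×ˢ W) P hball y hy1 hy2
    have hx0F : x0 ∈ F := by
      rw [hrange]; exact mem_range_self _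
    have hrR : r < 2 * R := by
      have h1 : δ ^ 2 * ε ≤ 1 := by
        have : δ ^ 2 ≤ 1 := pow_le_one₀ hδ.le hδ1
        nlinarith
      have h2 : δ ^ 2 * ε * R ≤ 1 * R := mul_le_mul_of_nonneg_right h1 hR0.le
      rw [hr]
      linarith
    have hc := hcov x0 hx0F r (2 * R) hr0 hrR
    have e5 : 2 * R / r = (2 / δ ^ 2) * x := by
      rw [hr, hε']
      exact quot (by positivity) hR0.ne' hx0.ne'
    rw [e5, Real.mul_rpow (by positivity) hx0.le] at hc
    rw [Finset.card_product] at hcard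
    push_cast at hcard
    have e6 : ∀ e : ℝ, ε ^ (-e) = x ^ e := by
      intro e
      rw [hε', Real.inv_rpow hx0.le, Real.rpow_neg hx0.le, inv_inv]
    rw [e6] at hV3 hW3
    calc x ^ t * x ^ p ≤ (V.card : ℝ) * W.card :=
          mul_le_mul hV3 hW3 (Real.rpow_nonneg hx0.le _) (Nat.cast_nonneg _)
      _ ≤ 16 * (coverN r (closedBall x0 (2 * R) ∩ F) : ℝ) := hcard
      _ ≤ 16 * (C * ((2 / δ ^ 2) ^ s' * x ^ s')) := by gcongr
      _ = _ := by ring
  have hy : 0 < t + p - s' := by linarith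
  obtain ⟨x, hx1, hx2⟩ := ((tendsto_rpow_atTop hy).eventually_gt_atTop
    (16 * C * (2 / δ ^ 2) ^ s')).and (eventually_gt_atTop 1) |>.exists
  have h1 := key x hx2
  have hx0 : 0 < x := by linarith
  have h2 : x ^ t * x ^ p = x ^ (t + p - s') * x ^ s' := by
    rw [← Real.rpow_add hx0, ← Real.rpow_add hx0]
    congr 1
    ring
  rw [h2] at h1
  have h3 := le_of_mul_le_mul_right h1 (by positivity)
  linarith

end Pool.Agent.R660.SC.DIMA
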