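import Pool.Agent.R660.SC.Defs

/-!
# Project SC: piece DIML (upper bound of the lower dimension)
-/

set_option autoImplicit false

open Set Filter Topology MeasureTheory Metric

namespace Pool.Agent.R660.SC.DIML

variable {ι : Type}

/-- sets coded by the digits of `T` -/
def AA (r s : ι → ℝ) (T : Finset ι) : ℕ → Set ℝ
  | 0 => Icc 0 1
  | m + 1 => {x | ∃ i ∈ T, ∃ z ∈ AA r s T m, x = s i + r i * z}

lemma AA_sub {r s : ι → ℝ} {T : Finset ι} (h1 : ∀ i, 0 < r i) (h2 : ∀ i, 0 ≤ s i)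
    (h3 : ∀ i, s i + r i ≤ 1) (m : ℕ) : AA r s T m ⊆ Icc 0 1 := by
  induction m with
  | zero => exact subset_rfl
  | succ m ih =>
    rintro x ⟨i, -, z, hz, rfl⟩
    obtain ⟨hz0, hz1⟩ := ih hz
    have := h1 i
    have := h2 i
    have := h3 i
    constructor <;> nlinarith

lemma cov [Fintype ι] {r s : ι → ℝ} {T : Finset ι} {δ M t : ℝ} (h1 : ∀ i, 0 < r i)
    (h2 : ∀ i, 0 ≤ s i) (h3 : ∀ i, s i + r i ≤ 1) (hδ : 0 < δ) (hδr : ∀ i, δ ≤ r i)
    (hM : ∀ i, r i ≤ M) (ht : 0 ≤ t) (hsum : ∑ i ∈ T, r i ^ t ≤ 1) (hM0 : 0 ≤ M) (m : ℕ) :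
    ∀ l : ℝ, 0 < l → δ * l < 1 → M ^ m ≤ l → ∃ G : Finset ℝ,
      (G.card : ℝ) ≤ (1 / (δ * l)) ^ t ∧ ∀ x ∈ AA r s T m, ∃ a ∈ G, a ≤ x ∧ x ≤ a + l := by
  classical
  induction m with
  | zero =>
    intro l hl hdl hMl
    refine ⟨{0}, ?_, ?_⟩
    · rw [Finset.card_singleton, Nat.cast_one]
      refine Real.one_le_rpow ?_ ht
      rw [le_div_iff₀ (by positivity)]
      linarith
    · intro x hx
      rw [pow_zero] at hMl
      exact ⟨0, Finset.mem_singleton_self _, hx.1, by linarith [hx.2]⟩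
  | succ m ih =>
    intro l hl hdl hMl
    by_cases hl1 : 1 ≤ l
    · refine ⟨{0}, ?_, ?_⟩
      · rw [Finset.card_singleton, Nat.cast_one]
        refine Real.one_le_rpow ?_ ht
        rw [le_div_iff₀ (by positivity)]
        linarith
      · intro x hx
        have := AA_sub (T := T) h1 h2 h3 (m + 1) hx
        exact ⟨0, Finset.mem_singleton_self _, this.1, by linarith [this.2]⟩
    · push Not at hl1
      have hex : ∀ i : ι, ∃ G : Finset ℝ, (G.card : ℝ) ≤ (1 / (δ * (l / r i))) ^ t ∧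
          ∀ x ∈ AA r s T m, ∃ a ∈ G, a ≤ x ∧ x ≤ a + l / r i := by
        intro i
        have hri := h1 i
        refine ih (l / r i) (by positivity) ?_ ?_
        · rw [← mul_div_assoc, div_lt_one hri]
          have := hδr i
          nlinarith
        · rw [le_div_iff₀ hri]
          calc M ^ m * r i ≤ M ^ m * M := mul_le_mul_of_nonneg_left (hM i) (pow_nonneg hM0 m)
            _ = M ^ (m + 1) := by ring
            _ ≤ l := hMl
      choose G hG1 hG2 using hex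
      refine ⟨T.biUnion fun i => (G i).image fun a => s i + r i * a, ?_, ?_⟩
      · have c1 : ((T.biUnion fun i => (G i).image fun a => s i + r i * a).card : ℝ) ≤
            ∑ i ∈ T, ((G i).card : ℝ) := by
          have c2 : (T.biUnion fun i => (G i).image fun a => s i + r i * a).card ≤
              ∑ i ∈ T, (G i).card :=
            Finset.card_biUnion_le.trans (Finset.sum_le_sum fun i _ => Finset.card_image_le)
          exact_mod_cast c2
        refine c1.trans ?_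
        calc ∑ i ∈ T, ((G i).card : ℝ) ≤ ∑ i ∈ T, (1 / (δ * l)) ^ t * r i ^ t := by
              refine Finset.sum_le_sum fun i _ => (hG1 i).trans (le_of_eq ?_)
              have hri := h1 i
              rw [← Real.mul_rpow (by positivity) hri.le]
              congr 1
              field_simp
          _ = (1 / (δ * l)) ^ t * ∑ i ∈ T, r i ^ t := by rw [Finset.mul_sum]
          _ ≤ (1 / (δ * l)) ^ t * 1 := by
              refine mul_le_mul_of_nonneg_left hsum (Real.rpow_nonneg (by positivity) _)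
          _ = _ := mul_one _
      · rintro x ⟨i, hi, z, hz, rfl⟩
        obtain ⟨a, ha, ha1, ha2⟩ := hG2 i z hz
        have hri := h1 i
        refine ⟨s i + r i * a, Finset.mem_biUnion.2 ⟨i, hi, Finset.mem_image_of_mem _ ha⟩, ?_, ?_⟩
        · nlinarith
        · have h5 : r i * z ≤ r i * (a + l / r i) := mul_le_mul_of_nonneg_left ha2 hri.le
          have h6 : r i * (a + l / r i) = r i * a + l := by field_simp
          linarith

lemma coverN_le {E : Set E2} {h : Fin 2} {l r : ℝ} (GV GH : Finset ℝ) (hl : 2 * l ≤ r)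
    (hE : ∀ y ∈ E, (∃ a ∈ GV, a ≤ y (1 - h) ∧ y (1 - h) ≤ a + l) ∧
      ∃ b ∈ GH, b ≤ y h ∧ y h ≤ b + l) : coverN r E ≤ GV.card * GH.card := by
  classical
  rw [← Finset.card_product]
  apply Nat.sInf_le
  let e := (GV ×ˢ GH).equivFin
  refine ⟨fun i => {y | (((e.symm i : ↥(GV ×ˢ GH)) : ℝ × ℝ).1 ≤ y (1 - h) ∧
    y (1 - h) ≤ ((e.symm i : ↥(GV ×ˢ GH)) : ℝ × ℝ).1 + l) ∧
    ((e.symm i : ↥(GV ×ˢ GH)) : ℝ × ℝ).2 ≤ y h ∧
    y h ≤ ((e.symm i : ↥(GV ×ˢ GH)) : ℝ × ℝ).2 + l}, ?_, ?_⟩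
  · intro i
    apply Metric.ediam_le
    rintro x ⟨hx1, hx2⟩ y ⟨hy1, hy2⟩
    rw [edist_dist]
    apply ENNReal.ofReal_le_ofReal
    refine le_trans ?_ hl
    have a1 : |x (1 - h) - y (1 - h)| ≤ l := by rw [abs_le]; constructor <;> linarith [hx1.1, hx1.2, hy1.1, hy1.2]
    have a2 : |x h - y h| ≤ l := by rw [abs_le]; constructor <;> linarith [hx2.1, hx2.2, hy2.1, hy2.2]
    have hs : dist x y ≤ |x 0 - y 0| + |x 1 - y 1| := by
      rw [EuclideanSpace.dist_eq, Fin.sum_univ_two]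
      apply Real.sqrt_le_iff.2
      refine ⟨by positivity, ?_⟩
      have e0 : dist (x 0) (y 0) = |x 0 - y 0| := rfl
      have e1 : dist (x 1) (y 1) = |x 1 - y 1| := rfl
      rw [e0, e1]
      nlinarith [abs_nonneg (x 0 - y 0), abs_nonneg (x 1 - y 1)]
    fin_cases h
    · have a1' : |x 1 - y 1| ≤ l := a1
      have a2' : |x 0 - y 0| ≤ l := a2
      linarith
    · have a1' : |x 0 - y 0| ≤ l := a1
      have a2' : |x 1 - y 1| ≤ l := a2
      linarith
  · intro y hy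
    obtain ⟨⟨a, ha, ha1, ha2⟩, b, hb, hb1, hb2⟩ := hE y hy
    rw [mem_iUnion]
    refine ⟨e ⟨(a, b), Finset.mem_product.2 ⟨ha, hb⟩⟩, ?_⟩
    simp only [mem_ofPred_eq, Equiv.symm_apply_apply]
    exact ⟨⟨ha1, ha2⟩, hb1, hb2⟩

section coding

variable {ρ τ : Fin 2 → ι → ℝ}

lemma PP_nonneg (hA : Adm ρ τ) (g : Fin 2) (ω : ℕ → ι) (n : ℕ) : 0 < PP ρ g ω n :=
  Finset.prod_pos fun m _ => (hA g (ω m)).1

lemma PP_succ (g : Fin 2) (ω : ℕ → ι) (n : ℕ) : PP ρ g ω (n + 1) = PP ρ g ω n * ρ g (ω n) :=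
  Finset.prod_range_succ _ _

lemma lft_succ (g : Fin 2) (ω : ℕ → ι) (n : ℕ) :
    lft ρ τ g ω (n + 1) = lft ρ τ g ω n + PP ρ g ω n * τ g (ω n) :=
  Finset.sum_range_succ _ _

lemma end_le (hA : Adm ρ τ) (g : Fin 2) (ω : ℕ → ι) (n : ℕ) :
    lft ρ τ g ω n + PP ρ g ω n ≤ 1 := by
  induction n with
  | zero => simp [lft, PP]
  | succ n ih =>
    rw [lft_succ, PP_succ]
    have h1 := (hA g (ω n)).2.2.2
    have h2 := PP_nonneg hA g ω n
    nlinarith

lemma term_nonneg (hA : Adm ρ τ) (g : Fin 2) (ω : ℕ → ι) (n : ℕ) :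
    0 ≤ PP ρ g ω n * τ g (ω n) := mul_nonneg (PP_nonneg hA g ω n).le (hA g (ω n)).2.2.1

lemma sum_le (hA : Adm ρ τ) (g : Fin 2) (ω : ℕ → ι) (n : ℕ) :
    ∑ q ∈ Finset.range n, PP ρ g ω q * τ g (ω q) ≤ 1 := by
  have h1 := end_le hA g ω n
  have h2 := PP_nonneg hA g ω n
  unfold lft at h1
  linarith

lemma summ (hA : Adm ρ τ) (g : Fin 2) (ω : ℕ → ι) : Summable fun q => PP ρ g ω q * τ g (ω q) :=
  summable_of_sum_range_le (term_nonneg hA g ω) (sum_le hA g ω)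

lemma X_mem (hA : Adm ρ τ) (g : Fin 2) (ω : ℕ → ι) : 0 ≤ pt ρ τ ω g ∧ pt ρ τ ω g ≤ 1 :=
  ⟨tsum_nonneg (term_nonneg hA g ω), Real.tsum_le_of_sum_range_le (term_nonneg hA g ω)
    (sum_le hA g ω)⟩

lemma X_step (hA : Adm ρ τ) (g : Fin 2) (ω : ℕ → ι) :
    pt ρ τ ω g = τ g (ω 0) + ρ g (ω 0) * pt ρ τ (fun q => ω (q + 1)) g := by
  show ∑' q, PP ρ g ω q * τ g (ω q) = τ g (ω 0) + ρ g (ω 0) *
    ∑' q, PP ρ g (fun q => ω (q + 1)) q * τ g (ω (q + 1))
  rw [(summ hA g ω).tsum_eq_zero_add, ← tsum_mul_left]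
  congr 1
  · simp [PP]
  · refine tsum_congr fun q => ?_
    have h1 : PP ρ g ω (q + 1) = PP ρ g (fun q => ω (q + 1)) q * ρ g (ω 0) := by
      unfold PP
      rw [Finset.prod_range_succ']
    rw [h1]
    ring

lemma X_nstep (hA : Adm ρ τ) (g : Fin 2) (ω : ℕ → ι) (n : ℕ) :
    pt ρ τ ω g = lft ρ τ g ω n + PP ρ g ω n * pt ρ τ (fun q => ω (q + n)) g := by
  induction n with
  | zero => simp [lft, PP]
  | succ n ih =>
    rw [ih, lft_succ, PP_succ, X_step hA g (fun q => ω (q + n))]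
    have h1 : (fun q => ω (q + 1 + n)) = fun q => ω (q + (n + 1)) := by
      funext q
      congr 1
      omega
    have h2 : ω (0 + n) = ω n := by rw [zero_add]
    rw [h1, h2]
    ring

lemma X_bd (hA : Adm ρ τ) (g : Fin 2) (ω : ℕ → ι) (n : ℕ) :
    lft ρ τ g ω n ≤ pt ρ τ ω g ∧ pt ρ τ ω g ≤ lft ρ τ g ω n + PP ρ g ω n := by
  have h1 := X_nstep hA g ω n
  have h2 := X_mem hA g (fun q => ω (q + n))
  have h3 := PP_nonneg hA g ω n
  constructor <;> nlinarith [h2.1, h2.2]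

lemma lft_mono (hA : Adm ρ τ) (g : Fin 2) (ω : ℕ → ι) : Monotone (lft ρ τ g ω) := by
  refine monotone_nat_of_le_succ fun n => ?_
  rw [lft_succ]
  linarith [term_nonneg hA g ω n]

lemma rgt_anti (hA : Adm ρ τ) (g : Fin 2) (ω : ℕ → ι) :
    Antitone (fun n => lft ρ τ g ω n + PP ρ g ω n) := by
  refine antitone_nat_of_succ_le fun n => ?_
  show lft ρ τ g ω (n + 1) + PP ρ g ω (n + 1) ≤ lft ρ τ g ω n + PP ρ g ω n
  rw [lft_succ, PP_succ]
  have h1 := (hA g (ω n)).2.2.2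
  have h2 := PP_nonneg hA g ω n
  nlinarith

lemma pref {g : Fin 2} {ω ω' : ℕ → ι} {n : ℕ} (h : ∀ q < n, Same ρ τ g (ω q) (ω' q)) :
    PP ρ g ω' n = PP ρ g ω n ∧ lft ρ τ g ω' n = lft ρ τ g ω n := by
  induction n with
  | zero => simp [PP, lft]
  | succ n ih =>
    obtain ⟨h1, h2⟩ := ih fun q hq => h q (by omega)
    obtain ⟨h3, h4⟩ := h n (by omega)
    rw [PP_succ, PP_succ, lft_succ, lft_succ, h1, h2, h3, h4]
    exact ⟨rfl, rfl⟩

lemma sep (hA : Adm ρ τ) {g : Fin 2} {ω ω' : ℕ → ι} {n : ℕ} {η : ℝ}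
    (hlo : lft ρ τ g ω n + η ≤ pt ρ τ ω g) (hhi : pt ρ τ ω g ≤ lft ρ τ g ω n + PP ρ g ω n - η)
    (hd : |pt ρ τ ω' g - pt ρ τ ω g| < η)
    (hdich : ∀ q < n, Same ρ τ g (ω q) (ω' q) ∨ Disj ρ τ g (ω q) (ω' q)) :
    ∀ q < n, ¬ Disj ρ τ g (ω q) (ω' q) := by
  intro q
  induction q using Nat.strong_induction_on with
  | _ q ih =>
    intro hq hD
    have hpre : ∀ q' < q, Same ρ τ g (ω q') (ω' q') := fun q' hq' =>
      (hdich q' (by omega)).resolve_right (ih q' hq' (by omega))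
    obtain ⟨e1, e2⟩ := pref hpre
    rw [abs_lt] at hd
    have hP := PP_nonneg hA g ω q
    have b1 := (X_bd hA g ω' (q + 1))
    rw [lft_succ, PP_succ, e1, e2] at b1
    rcases hD with hD | hD
    · have h1 := rgt_anti hA g ω (show q + 1 ≤ n by omega)
      simp only at h1
      rw [lft_succ g ω q, PP_succ g ω q] at h1
      have h2 : PP ρ g ω q * (τ g (ω q) + ρ g (ω q)) ≤ PP ρ g ω q * τ g (ω' q) :=
        mul_le_mul_of_nonneg_left hD hP.le
      nlinarith [b1.1]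
    · have h1 := lft_mono hA g ω (show q + 1 ≤ n by omega)
      rw [lft_succ g ω q] at h1
      have h2 : PP ρ g ω q * (τ g (ω' q) + ρ g (ω' q)) ≤ PP ρ g ω q * τ g (ω q) :=
        mul_le_mul_of_nonneg_left hD hP.le
      nlinarith [b1.2]

lemma two_digit (hA : Adm ρ τ) {δ : ℝ} (hδ : 0 < δ) (hδr : ∀ g i, δ ≤ ρ g i) {g : Fin 2}
    {ζ : ℕ → ι} (h : τ g (ζ 1) + ρ g (ζ 1) ≤ τ g (ζ 0)) :
    δ ^ 2 ≤ pt ρ τ ζ g ∧ pt ρ τ ζ g ≤ 1 - δ ^ 2 := by
  have h1 := X_step hA g ζ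
  have h2 := X_step hA g (fun q => ζ (q + 1))
  have h3 := X_mem hA g (fun q => ζ (q + 1 + 1))
  have h4 := X_mem hA g (fun q => ζ (q + 1))
  have z1 : ζ (0 + 1) = ζ 1 := rfl
  rw [z1] at h2
  obtain ⟨a1, a2, a3, a4⟩ := hA g (ζ 0)
  obtain ⟨b1, b2, b3, b4⟩ := hA g (ζ 1)
  have d0 := hδr g (ζ 0)
  have d1 := hδr g (ζ 1)
  have h5 : pt ρ τ (fun q => ζ (q + 1)) g ≤ τ g (ζ 1) + ρ g (ζ 1) := by
    rw [h2]
    nlinarith [h3.2]
  have h6 : pt ρ τ (fun q => ζ (q + 1)) g ≤ 1 - ρ g (ζ 0) := by linarith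
  constructor
  · rw [h1]
    nlinarith [h4.1, mul_nonneg a1.le h4.1]
  · rw [h1]
    have h7 : ρ g (ζ 0) * pt ρ τ (fun q => ζ (q + 1)) g ≤ ρ g (ζ 0) * (1 - ρ g (ζ 0)) :=
      mul_le_mul_of_nonneg_left h6 a1.le
    nlinarith

lemma mem_AA (hA : Adm ρ τ) {g : Fin 2} {T : Finset ι} (n : ℕ) :
    ∀ ζ : ℕ → ι, (∀ q < n, ∃ i ∈ T, Same ρ τ g i (ζ q)) →
      pt ρ τ ζ g ∈ AA (ρ g) (τ g) T n := by
  induction n with
  | zero =>
    intro ζ _
    exact X_mem hA g ζ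
  | succ n ih =>
    intro ζ hζ
    obtain ⟨i, hi, e1, e2⟩ := hζ 0 (by omega)
    refine ⟨i, hi, pt ρ τ (fun q => ζ (q + 1)) g, ih _ fun q hq => hζ (q + 1) (by omega), ?_⟩
    rw [e1, e2]
    exact X_step hA g ζ

end coding

lemma key [Fintype ι] {ρ τ : Fin 2 → ι → ℝ} {F : Set E2} {h : Fin 2} {lab : ι → ι}
    {S T : Finset ι} {j i0 : ι} {p t δ M : ℝ} (hA : Adm ρ τ) (hStr : Str ρ τ h)
    (hi0 : ρ (1 - h) i0 < ρ h i0) (hF : F = range (pt ρ τ))
    (hlab1 : ∀ i j, lab i = lab j ↔ Same ρ τ h i j) (hlab2 : ∀ i, lab (lab i) = lab i)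
    (hS : ∀ i, i ∈ S ↔ lab i = i) (hT : ∀ i, i ∈ T ↔ Same ρ τ h i j) (hp : 0 ≤ p) (ht : 0 ≤ t)
    (hSp : ∑ i ∈ S, ρ h i ^ p = 1) (hTt : ∑ i ∈ T, ρ (1 - h) i ^ t = 1)
    (hδ0 : 0 < δ) (hδ1 : δ < 1) (hδr : ∀ g i, δ ≤ ρ g i)
    (hM0 : 0 < M) (hM1 : M < 1) (hM : ∀ g i, ρ g i ≤ M) (hd : 0 < Metric.diam F)
    {s' C : ℝ} (hbd : ∀ x ∈ F, ∀ r R : ℝ, 0 < r → r < R → R ≤ Metric.diam F →
      C * (R / r) ^ s' ≤ (coverN r (closedBall x R ∩ F) : ℝ))
    {l : ℝ} (hl : 0 < l) (hl2 : l < δ ^ 3 / 4) :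
    C * (δ ^ 3 / 2 / (2 * l)) ^ s' ≤
      (Fintype.card ι : ℝ) ^ 2 * (1 / (δ * l)) ^ t * (1 / (δ * l)) ^ p := by
  classical
  have hδ3 : δ ^ 3 ≤ 1 := pow_le_one₀ hδ0.le hδ1.le
  have hl1 : l < 1 := by linarith
  have hdl : δ * l < 1 := by nlinarith
  obtain ⟨m0, hm0⟩ : ∃ m0 : ℕ, M ^ m0 < l := exists_pow_lt_of_lt_one hl hM1
  have hpair : ∀ g : Fin 2, ∃ b a : ι, (∃ a b, τ g a + ρ g a ≤ τ g b) →
      τ g a + ρ g a ≤ τ g b := by
    intro g
    by_cases hh : ∃ a b, τ g a + ρ g a ≤ τ g b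
    · obtain ⟨a, b, hab⟩ := hh
      exact ⟨b, a, fun _ => hab⟩
    · exact ⟨j, j, fun h' => absurd h' hh⟩
  obtain ⟨bV, aV, hVd⟩ := hpair (1 - h)
  obtain ⟨bH, aH, hHd⟩ := hpair h
  set c : ℝ := δ ^ 3 / 2 with hc
  have hc0 : 0 < c := by positivity
  have hV0 : 0 < ρ (1 - h) i0 := (hA _ _).1
  have hH0 : 0 < ρ h i0 := (hA _ _).1
  have T1 : Tendsto (fun N : ℕ => (ρ (1 - h) i0 / ρ h i0) ^ N) atTop (𝓝 0) :=
    tendsto_pow_atTop_nhds_zero_of_lt_one (by positivity) ((div_lt_one hH0).2 hi0)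
  have T2 : Tendsto (fun N : ℕ => c * (ρ (1 - h) i0) ^ N) atTop (𝓝 0) := by
    have := (tendsto_pow_atTop_nhds_zero_of_lt_one hV0.le (hA (1 - h) i0).2.1).const_mul c
    rwa [mul_zero] at this
  obtain ⟨N, hN1, hN2⟩ := ((T1.eventually_lt_const (show 0 < δ ^ (2 + m0) by positivity)).and
    (T2.eventually_lt_const hd)).exists
  set R : ℝ := (ρ (1 - h) i0) ^ N with hR
  have hR0 : 0 < R := by positivity
  set Q : ℝ := ρ h i0 ^ N * ρ h bV * ρ h aV with hQ
  have hbV := hδr h bV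
  have haV := hδr h aV
  have hbV0 := (hA h bV).1
  have haV0 := (hA h aV).1
  have hj0 := (hA h j).1
  have hQ0 : 0 < Q := by positivity
  have hPN : 0 < ρ h i0 ^ N := by positivity
  have hQR : R < Q * δ ^ m0 := by
    rw [div_pow, div_lt_iff₀ hPN] at hN1
    calc R < δ ^ (2 + m0) * ρ h i0 ^ N := hN1
      _ = ρ h i0 ^ N * δ * δ * δ ^ m0 := by ring
      _ ≤ ρ h i0 ^ N * ρ h bV * ρ h aV * δ ^ m0 := by gcongr
      _ = Q * δ ^ m0 := by rw [hQ]
  have hex : ∃ n : ℕ, Q * ρ h j ^ n ≤ R := by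
    obtain ⟨n, hn⟩ := exists_pow_lt_of_lt_one (show 0 < R / Q by positivity) (hA h j).2.1
    refine ⟨n, ?_⟩
    rw [lt_div_iff₀ hQ0] at hn
    linarith
  obtain ⟨n, hn1, hn2⟩ : ∃ n : ℕ, Q * ρ h j ^ n ≤ R ∧ ∀ k < n, R < Q * ρ h j ^ k :=
    ⟨Nat.find hex, Nat.find_spec hex, fun k hk => not_le.1 (Nat.find_min hex hk)⟩
  have hmn : m0 < n := by
    by_contra hcon
    push Not at hcon
    have h1 : δ ^ m0 ≤ ρ h j ^ n :=
      (pow_le_pow_of_le_one hδ0.le hδ1.le hcon).trans (pow_le_pow_left₀ hδ0.le (hδr h j) n)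
    have h2 : Q * δ ^ m0 ≤ Q * ρ h j ^ n := mul_le_mul_of_nonneg_left h1 hQ0.le
    linarith
  have hn3 : δ * R < Q * ρ h j ^ n := by
    obtain ⟨k, rfl⟩ : ∃ k, n = k + 1 := ⟨n - 1, by omega⟩
    have h1 := hn2 k (by omega)
    have h2 : δ * R < δ * (Q * ρ h j ^ k) := mul_lt_mul_of_pos_left h1 hδ0
    have h3 : 0 < Q * ρ h j ^ k := by positivity
    have h4 := mul_le_mul_of_nonneg_right (hδr h j) h3.le
    calc δ * R < δ * (Q * ρ h j ^ k) := h2
      _ ≤ ρ h j * (Q * ρ h j ^ k) := h4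
      _ = Q * ρ h j ^ (k + 1) := by ring
  have hMn : M ^ n ≤ l := (pow_le_pow_of_le_one hM0.le hM1.le hmn.le).trans hm0.le
  -- the digits
  obtain ⟨ω, hω1, hωN, hωN1, hω2, hω3, hω4⟩ : ∃ ω : ℕ → ι, (∀ q < N, ω q = i0) ∧ ω N = bV ∧
      ω (N + 1) = aV ∧ (∀ q, N + 2 ≤ q → q < N + 2 + n → ω q = j) ∧ ω (N + 2 + n) = bH ∧
      ω (N + 2 + n + 1) = aH := by
    refine ⟨fun q => if q < N then i0 else if q = N then bV else if q = N + 1 then aV else
      if q < N + 2 + n then j else if q = N + 2 + n then bH else aH, ?_, ?_, ?_, ?_, ?_, ?_⟩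
    · intro q hq
      exact if_pos hq
    · show (if N < N then i0 else if N = N then bV else _) = bV
      rw [if_neg (lt_irrefl N), if_pos rfl]
    · show (if N + 1 < N then i0 else if N + 1 = N then bV else if N + 1 = N + 1 then aV else _)
        = aV
      rw [if_neg (by omega), if_neg (by omega), if_pos rfl]
    · intro q hq1 hq2
      show (if q < N then i0 else if q = N then bV else if q = N + 1 then aV else
        if q < N + 2 + n then j else _) = j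
      rw [if_neg (by omega), if_neg (by omega), if_neg (by omega), if_pos hq2]
    · show (if N + 2 + n < N then i0 else if N + 2 + n = N then bV else
        if N + 2 + n = N + 1 then aV else if N + 2 + n < N + 2 + n then j else
        if N + 2 + n = N + 2 + n then bH else aH) = bH
      rw [if_neg (by omega), if_neg (by omega), if_neg (by omega), if_neg (by omega), if_pos rfl]
    · show (if N + 2 + n + 1 < N then i0 else if N + 2 + n + 1 = N then bV else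
        if N + 2 + n + 1 = N + 1 then aV else if N + 2 + n + 1 < N + 2 + n then j else
        if N + 2 + n + 1 = N + 2 + n then bH else aH) = aH
      rw [if_neg (by omega), if_neg (by omega), if_neg (by omega), if_neg (by omega),
        if_neg (by omega)]
  have hPPN : ∀ g, PP ρ g ω N = ρ g i0 ^ N := by
    intro g
    unfold PP
    rw [Finset.prod_congr rfl (fun q hq => by rw [hω1 q (Finset.mem_range.1 hq)]),
      Finset.prod_const, Finset.card_range]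
  have hPPV : PP ρ (1 - h) ω N = R := hPPN _
  have hPPk : ∀ k ≤ n, PP ρ h ω (N + 2 + k) = Q * ρ h j ^ k := by
    intro k
    induction k with
    | zero =>
      intro _
      rw [show N + 2 + 0 = N + 1 + 1 by omega, PP_succ, PP_succ, hPPN, hωN, hωN1, pow_zero,
        mul_one]
    | succ k ih =>
      intro hk
      rw [show N + 2 + (k + 1) = (N + 2 + k) + 1 by omega, PP_succ, ih (by omega),
        hω2 _ (by omega) (by omega)]
      ring
  set K : ℕ := N + 2 + n with hK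
  set PH : ℝ := Q * ρ h j ^ n with hPH
  have hPPH : PP ρ h ω K = PH := hPPk n le_rfl
  have hPH0 : 0 < PH := by positivity
  set x : E2 := pt ρ τ ω with hx
  have hxF : x ∈ F := by rw [hF]; exact mem_range_self _
  have sepV : (∃ a b, τ (1 - h) a + ρ (1 - h) a ≤ τ (1 - h) b) →
      lft ρ τ (1 - h) ω N + δ ^ 2 * R ≤ x (1 - h) ∧
      x (1 - h) ≤ lft ρ τ (1 - h) ω N + PP ρ (1 - h) ω N - δ ^ 2 * R := by
    intro hh
    have h1 := hVd hh
    have h2 := two_digit hA hδ0 hδr (g := 1 - h) (ζ := fun q => ω (q + N)) (by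
      show τ (1 - h) (ω (1 + N)) + ρ (1 - h) (ω (1 + N)) ≤ τ (1 - h) (ω (0 + N))
      rw [zero_add, hωN, add_comm 1 N, hωN1]
      exact h1)
    have h3 := X_nstep hA (1 - h) ω N
    rw [hPPV] at h3 ⊢
    rw [hx, h3]
    constructor <;> nlinarith [h2.1, h2.2]
  have sepH : (∃ a b, τ h a + ρ h a ≤ τ h b) →
      lft ρ τ h ω K + δ ^ 2 * PH ≤ x h ∧
      x h ≤ lft ρ τ h ω K + PP ρ h ω K - δ ^ 2 * PH := by
    intro hh
    have h1 := hHd hh
    have h2 := two_digit hA hδ0 hδr (g := h) (ζ := fun q => ω (q + K)) (by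
      show τ h (ω (1 + K)) + ρ h (ω (1 + K)) ≤ τ h (ω (0 + K))
      rw [zero_add, hω3, add_comm 1 K, hω4]
      exact h1)
    have h3 := X_nstep hA h ω K
    rw [hPPH] at h3 ⊢
    rw [hx, h3]
    constructor <;> nlinarith [h2.1, h2.2]
  have hcR1 : c * R < δ ^ 2 * R := by
    refine mul_lt_mul_of_pos_right ?_ hR0
    rw [hc]
    have : 0 < δ ^ 2 := by positivity
    nlinarith
  have hcR2 : c * R < δ ^ 2 * PH := by
    have h1 : δ ^ 2 * (δ * R) < δ ^ 2 * PH := mul_lt_mul_of_pos_left hn3 (by positivity)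
    have h2 : c * R ≤ δ ^ 2 * (δ * R) := by
      rw [hc]
      have : 0 < δ ^ 3 * R := by positivity
      nlinarith
    linarith
  have hbox : ∀ ω' : ℕ → ι, dist (pt ρ τ ω') x ≤ c * R →
      (∀ q < K, Same ρ τ h (ω q) (ω' q)) ∧ ∀ q < N, ω' q = ω q := by
    intro ω' hω'
    have hcoord : ∀ g, |pt ρ τ ω' g - x g| ≤ c * R := by
      intro g
      refine le_trans ?_ hω'
      rw [dist_eq_norm]
      exact PiLp.norm_apply_le (pt ρ τ ω' - x) g
    have hH : ∀ q < K, Same ρ τ h (ω q) (ω' q) := by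
      intro q hq
      rcases hStr.1 (ω q) (ω' q) with h1 | h1
      · exact h1
      · exfalso
        have hh : ∃ a b, τ h a + ρ h a ≤ τ h b := by
          rcases h1 with h1 | h1
          · exact ⟨_, _, h1⟩
          · exact ⟨_, _, h1⟩
        exact sep hA (sepH hh).1 (sepH hh).2 (lt_of_le_of_lt (hcoord h) hcR2)
          (fun q _ => hStr.1 _ _) q hq h1
    refine ⟨hH, fun q hq => ?_⟩
    by_contra hne
    have hdj : ∀ q < N, ω q ≠ ω' q → Disj ρ τ (1 - h) (ω q) (ω' q) := fun q hq hne =>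
      hStr.2 _ _ hne (hH q (by omega))
    have h1 := hdj q hq (Ne.symm hne)
    have hh : ∃ a b, τ (1 - h) a + ρ (1 - h) a ≤ τ (1 - h) b := by
      rcases h1 with h1 | h1
      · exact ⟨_, _, h1⟩
      · exact ⟨_, _, h1⟩
    refine sep hA (sepV hh).1 (sepV hh).2 (lt_of_le_of_lt (hcoord (1 - h)) hcR1)
      (fun q hq => ?_) q hq h1
    by_cases he : ω q = ω' q
    · left
      rw [he]
      exact ⟨rfl, rfl⟩
    · exact Or.inr (hdj q hq he)
  -- the covers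
  obtain ⟨GV0, gv1, gv2⟩ := cov (T := T) (fun i => (hA (1 - h) i).1)
    (fun i => (hA (1 - h) i).2.2.1) (fun i => (hA (1 - h) i).2.2.2) hδ0 (hδr (1 - h)) (hM (1 - h))
    ht hTt.le hM0.le n l hl hdl hMn
  obtain ⟨GH0, gh1, gh2⟩ := cov (T := S) (fun i => (hA h i).1)
    (fun i => (hA h i).2.2.1) (fun i => (hA h i).2.2.2) hδ0 (hδr h) (hM h)
    hp hSp.le hM0.le n l hl hdl hMn
  set GV : Finset ℝ := ((Finset.univ : Finset ι) ×ˢ ((Finset.univ : Finset ι) ×ˢ GV0)).image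
    (fun w => lft ρ τ (1 - h) ω N + R * (τ (1 - h) w.1 + ρ (1 - h) w.1 *
      (τ (1 - h) w.2.1 + ρ (1 - h) w.2.1 * w.2.2))) with hGV
  set GH : Finset ℝ := GH0.image (fun a => lft ρ τ h ω K + PH * a) with hGH
  have hcov : coverN (2 * (R * l)) (closedBall x (c * R) ∩ F) ≤ GV.card * GH.card := by
    refine coverN_le (h := h) (l := R * l) GV GH le_rfl ?_
    rintro y ⟨hy1, hy2⟩
    rw [hF] at hy2
    obtain ⟨ω', rfl⟩ := hy2
    obtain ⟨hH, hV⟩ := hbox ω' (mem_closedBall.1 hy1)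
    constructor
    · have e1 := pref (ρ := ρ) (τ := τ) (g := 1 - h) (ω := ω) (ω' := ω') (n := N)
        (fun q hq => by rw [hV q hq]; exact ⟨rfl, rfl⟩)
      have h3 := X_nstep hA (1 - h) ω' N
      have h4 := X_step hA (1 - h) (fun q => ω' (q + N))
      have h5 := X_step hA (1 - h) (fun q => ω' (q + 1 + N))
      have h6 : pt ρ τ (fun q => ω' (q + 1 + 1 + N)) (1 - h) ∈
          AA (ρ (1 - h)) (τ (1 - h)) T n := by
        refine mem_AA hA n _ fun q hq => ⟨ω' (q + 1 + 1 + N), ?_, rfl, rfl⟩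
        rw [hT]
        have h7 := hH (q + 1 + 1 + N) (by omega)
        rw [hω2 (q + 1 + 1 + N) (by omega) (by omega)] at h7
        exact ⟨h7.1.symm, h7.2.symm⟩
      obtain ⟨a, ha, ha1, ha2⟩ := gv2 _ h6
      refine ⟨lft ρ τ (1 - h) ω N + R * (τ (1 - h) (ω' (0 + N)) + ρ (1 - h) (ω' (0 + N)) *
        (τ (1 - h) (ω' (0 + 1 + N)) + ρ (1 - h) (ω' (0 + 1 + N)) * a)), ?_, ?_⟩
      · rw [hGV]
        exact Finset.mem_image.2 ⟨(ω' (0 + N), ω' (0 + 1 + N), a),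
          Finset.mem_product.2 ⟨Finset.mem_univ _, Finset.mem_product.2 ⟨Finset.mem_univ _, ha⟩⟩,
          rfl⟩
      · rw [e1.1, e1.2, hPPV] at h3
        rw [h3, h4, h5]
        obtain ⟨r1, r2, -, -⟩ := hA (1 - h) (ω' (0 + N))
        obtain ⟨r3, r4, -, -⟩ := hA (1 - h) (ω' (0 + 1 + N))
        set u := pt ρ τ (fun q => ω' (q + 1 + 1 + N)) (1 - h)
        generalize ρ (1 - h) (ω' (0 + N)) = A1 at *
        generalize ρ (1 - h) (ω' (0 + 1 + N)) = A2 at *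
        generalize τ (1 - h) (ω' (0 + N)) = B1 at *
        generalize τ (1 - h) (ω' (0 + 1 + N)) = B2 at *
        have hprod : 0 < R * (A1 * A2) := by positivity
        have h12 : A1 * A2 ≤ 1 := by nlinarith
        constructor
        · have := mul_le_mul_of_nonneg_left ha1 hprod.le
          linarith
        · have h8 := mul_le_mul_of_nonneg_left ha2 hprod.le
          have h9 : R * (A1 * A2) * l ≤ R * l := by
            have h10 : R * l * (A1 * A2) ≤ R * l * 1 :=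
              mul_le_mul_of_nonneg_left h12 (by positivity)
            linarith
          linarith
    · have e1 := pref (ρ := ρ) (τ := τ) (g := h) (ω := ω) (ω' := ω') (n := K) hH
      have h3 := X_nstep hA h ω' K
      have h6 : pt ρ τ (fun q => ω' (q + K)) h ∈ AA (ρ h) (τ h) S n := by
        refine mem_AA hA n _ fun q hq => ⟨lab (ω' (q + K)), ?_, ?_⟩
        · rw [hS]
          exact hlab2 _
        · exact (hlab1 _ _).1 (hlab2 _)
      obtain ⟨a, ha, ha1, ha2⟩ := gh2 _ h6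
      refine ⟨lft ρ τ h ω K + PH * a, ?_, ?_⟩
      · rw [hGH]
        exact Finset.mem_image_of_mem _ ha
      · rw [e1.1, e1.2, hPPH] at h3
        rw [h3]
        constructor
        · have := mul_le_mul_of_nonneg_left ha1 hPH0.le
          linarith
        · have h8 := mul_le_mul_of_nonneg_left ha2 hPH0.le
          have h9 : PH * l ≤ R * l := mul_le_mul_of_nonneg_right hn1 hl.le
          linarith
  have c3 := hbd x hxF (2 * (R * l)) (c * R) (by positivity) (by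
    have h1 : 2 * l < c := by rw [hc]; linarith
    calc 2 * (R * l) = 2 * l * R := by ring
      _ < c * R := mul_lt_mul_of_pos_right h1 hR0) hN2.le
  have hratio : c * R / (2 * (R * l)) = c / (2 * l) := by
    field_simp
  rw [hratio] at c3
  have hGVc : (GV.card : ℝ) ≤ (Fintype.card ι : ℝ) ^ 2 * (1 / (δ * l)) ^ t := by
    have h1 : GV.card ≤ Fintype.card ι * (Fintype.card ι * GV0.card) := by
      rw [hGV]
      refine Finset.card_image_le.trans ?_
      rw [Finset.card_product, Finset.card_product]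
      exact le_rfl
    calc (GV.card : ℝ) ≤ (Fintype.card ι : ℝ) * ((Fintype.card ι : ℝ) * (GV0.card : ℝ)) := by
          exact_mod_cast h1
      _ = (Fintype.card ι : ℝ) ^ 2 * (GV0.card : ℝ) := by ring
      _ ≤ _ := mul_le_mul_of_nonneg_left gv1 (by positivity)
  have hGHc : (GH.card : ℝ) ≤ (1 / (δ * l)) ^ p := by
    refine le_trans ?_ gh1
    have : GH.card ≤ GH0.card := by
      rw [hGH]
      exact Finset.card_image_le
    exact_mod_cast this
  calc C * (c / (2 * l)) ^ s' ≤ (coverN (2 * (R * l)) (closedBall x (c * R) ∩ F) : ℝ) := c3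
    _ ≤ (GV.card : ℝ) * (GH.card : ℝ) := by exact_mod_cast hcov
    _ ≤ (Fintype.card ι : ℝ) ^ 2 * (1 / (δ * l)) ^ t * (1 / (δ * l)) ^ p :=
        mul_le_mul hGVc hGHc (Nat.cast_nonneg _) (by positivity)

theorem main (hcode : S_CODE) : S_DIML := by
  classical
  intro ι _ ρ τ F h lab S T j p t hA hStr hi0 hAt hlab1 hlab2 hS hT hp ht hSp hTt
  obtain ⟨i0, hi0⟩ := hi0
  have hF : F = range (pt ρ τ) := hcode ι ρ τ F hA hAt
  have hne : Nonempty ι := ⟨j⟩
  obtain ⟨δ, hδ0, hδ1, hδr⟩ : ∃ δ : ℝ, 0 < δ ∧ δ < 1 ∧ ∀ g i, δ ≤ ρ g i := by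
    obtain ⟨x0, hx0⟩ := Finite.exists_min (fun x : Fin 2 × ι => ρ x.1 x.2)
    exact ⟨ρ x0.1 x0.2, (hA _ _).1, (hA _ _).2.1, fun g i => hx0 (g, i)⟩
  obtain ⟨M, hM0, hM1, hM⟩ : ∃ M : ℝ, 0 < M ∧ M < 1 ∧ ∀ g i, ρ g i ≤ M := by
    obtain ⟨x0, hx0⟩ := Finite.exists_max (fun x : Fin 2 × ι => ρ x.1 x.2)
    exact ⟨ρ x0.1 x0.2, (hA _ _).1, (hA _ _).2.1, fun g i => hx0 (g, i)⟩
  have hpt0 : 0 ≤ p + t := by linarith
  by_cases hd : Metric.diam F ≤ 0
  · have h1 : dimL F = 0 := by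
      unfold dimL
      apply Real.sSup_of_not_bddAbove
      rintro ⟨B, hB⟩
      have h2 : max B 0 + 1 ≤ B := hB ⟨by positivity, 1, one_pos, fun x _ r R hr hrR hRd => by
        exfalso
        linarith⟩
      have := le_max_left B 0
      linarith
    rw [h1]
    exact hpt0
  push Not at hd
  apply Real.sSup_le _ hpt0
  rintro s' ⟨hs0, C, hC, hbd⟩
  by_contra hcon
  push Not at hcon
  have he : 0 < s' - (p + t) := by linarith
  set Kc : ℝ := (Fintype.card ι : ℝ) ^ 2 * (1 / δ) ^ (p + t) with hKc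
  have hev : ∀ᶠ l : ℝ in 𝓝[>] 0, C * (δ ^ 3 / 2 / 2) ^ s' ≤ Kc * l ^ (s' - (p + t)) := by
    have hU : Ioo (0 : ℝ) (δ ^ 3 / 4) ∈ 𝓝[>] (0 : ℝ) := Ioo_mem_nhdsGT (by positivity)
    filter_upwards [hU] with l hl
    obtain ⟨hl0, hl2⟩ := hl
    have h1 := key hA hStr hi0 hF hlab1 hlab2 hS hT hp ht hSp hTt hδ0 hδ1 hδr hM0 hM1 hM hd
      hbd hl0 hl2
    have hls : 0 < l ^ s' := Real.rpow_pos_of_pos hl0 _
    have h2 := mul_le_mul_of_nonneg_right h1 hls.le
    have e1 : (δ ^ 3 / 2 / (2 * l)) ^ s' * l ^ s' = (δ ^ 3 / 2 / 2) ^ s' := by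
      rw [← Real.mul_rpow (by positivity) hl0.le]
      congr 1
      field_simp
    have e2 : (1 / (δ * l)) ^ t * (1 / (δ * l)) ^ p * l ^ s' =
        (1 / δ) ^ (p + t) * l ^ (s' - (p + t)) := by
      rw [← Real.rpow_add (by positivity), add_comm t p,
        show 1 / (δ * l) = (1 / δ) * l⁻¹ by field_simp, Real.mul_rpow (by positivity)
        (by positivity), Real.inv_rpow hl0.le, Real.rpow_sub hl0]
      field_simp
    calc C * (δ ^ 3 / 2 / 2) ^ s' = C * (δ ^ 3 / 2 / (2 * l)) ^ s' * l ^ s' := by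
          rw [mul_assoc, e1]
      _ ≤ (Fintype.card ι : ℝ) ^ 2 * (1 / (δ * l)) ^ t * (1 / (δ * l)) ^ p * l ^ s' := h2
      _ = (Fintype.card ι : ℝ) ^ 2 * ((1 / (δ * l)) ^ t * (1 / (δ * l)) ^ p * l ^ s') := by ring
      _ = Kc * l ^ (s' - (p + t)) := by rw [e2, hKc]; ring
  have hlim : Tendsto (fun l : ℝ => Kc * l ^ (s' - (p + t))) (𝓝[>] 0) (𝓝 0) := by
    have h1 : Tendsto (fun l : ℝ => l ^ (s' - (p + t))) (𝓝 0) (𝓝 ((0 : ℝ) ^ (s' - (p + t)))) :=
      (Real.continuousAt_rpow_const 0 _ (Or.inr he.le)).tendsto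
    rw [Real.zero_rpow he.ne'] at h1
    have h2 := (h1.mono_left (nhdsWithin_le_nhds (s := Ioi (0 : ℝ)))).const_mul Kc
    rwa [mul_zero] at h2
  have hfin := ge_of_tendsto hlim hev
  have hpos : 0 < C * (δ ^ 3 / 2 / 2) ^ s' := by positivity
  linarith

end Pool.Agent.R660.SC.DIML
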