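import Pool.Agent.R660.SC.Defs

/-! Final assembly of project SC. -/

open Set Filter Topology MeasureTheory Metric

namespace Pool.Agent.R660.SC.Fin

open Pool.Agent.R660.SC

/-! ### from ball estimates on `F` to `(U_s)` and `(L_s)` -/

theorem push {F : Set E2} (hF : IsClosed F) (ν : Measure F) [IsProbabilityMeasure ν]
    (hpos : ∀ (x : F) (r : ℝ), 0 < r → 0 < ν.real (ball x r)) :
    ∃ μ : Measure E2, IsProbabilityMeasure μ ∧ Supp μ F ∧
      (∀ (x : E2) (hx : x ∈ F) (r : ℝ), μ.real (ball x r) = ν.real (ball (⟨x, hx⟩ : F) r)) := by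
  have hval : Measurable (Subtype.val : F → E2) := measurable_subtype_coe
  have hball : ∀ (x : E2) (hx : x ∈ F) (r : ℝ),
      (ν.map Subtype.val) (ball x r) = ν (ball (⟨x, hx⟩ : F) r) := by
    intro x hx r
    rw [Measure.map_apply hval measurableSet_ball]
    rfl
  refine ⟨ν.map Subtype.val, Measure.isProbabilityMeasure_map hval.aemeasurable, ⟨?_, ?_⟩, ?_⟩
  · rw [Measure.map_apply hval hF.isOpen_compl.measurableSet]
    have : (Subtype.val : F → E2) ⁻¹' Fᶜ = ∅ := by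
      ext x; simp
    rw [this, measure_empty]
  · intro x hx r hr
    rw [hball x hx r]
    have h1 := hpos ⟨x, hx⟩ r hr
    rw [Measure.real, ENNReal.toReal_pos_iff] at h1
    exact h1.1
  · intro x hx r
    rw [Measure.real, Measure.real, hball x hx r]

theorem real_pos_of_supp {F : Set E2} {μ : Measure E2} [IsProbabilityMeasure μ] (hS : Supp μ F) :
    ∀ x ∈ F, ∀ r : ℝ, 0 < r → 0 < μ.real (ball x r) := by
  intro x hx r hr
  rw [Measure.real, ENNReal.toReal_pos_iff]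
  exact ⟨hS.2 x hx r hr, measure_lt_top _ _⟩

theorem unif {F : Set E2} (hF : IsCompact F) (hne : F.Nonempty) {μ : Measure E2}
    [IsProbabilityMeasure μ] (hpos : ∀ x ∈ F, ∀ r : ℝ, 0 < r → 0 < μ.real (ball x r)) :
    ∃ c : ℝ, 0 < c ∧ ∀ x ∈ F, c ≤ μ.real (ball x (1 / 2)) := by
  obtain ⟨T, hTK, hTf, hT⟩ := finite_cover_balls_of_compact hF
    (show (0 : ℝ) < 1 / 4 by norm_num)
  obtain ⟨x0, hx0⟩ := hne
  have hTne : T.Nonempty := by
    have := hT hx0
    simp only [mem_iUnion] at this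
    obtain ⟨y, hy, _⟩ := this
    exact ⟨y, hy⟩
  obtain ⟨y, hy, hymin⟩ := Set.exists_min_image T (fun y => μ.real (ball y (1 / 4))) hTf hTne
  refine ⟨μ.real (ball y (1 / 4)), hpos y (hTK hy) _ (by norm_num), ?_⟩
  intro x hx
  have := hT hx
  simp only [mem_iUnion] at this
  obtain ⟨z, hz, hxz⟩ := this
  refine (hymin z hz).trans (measureReal_mono ?_)
  intro u hu
  rw [mem_ball] at *
  have h1 := dist_triangle u z x
  rw [dist_comm z x] at h1
  linarith

theorem UU_of {F : Set E2} (hF : IsCompact F) (hne : F.Nonempty) {μ : Measure E2}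
    [IsProbabilityMeasure μ] (hS : Supp μ F) {C s : ℝ} (hC : 0 < C) (hs : 0 ≤ s)
    (h : ∀ x ∈ F, ∀ r R : ℝ, 0 < r → r < R → R ≤ 1 →
      μ.real (ball x R) ≤ C * (R / r) ^ s * μ.real (ball x r)) {s' : ℝ} (hs' : s ≤ s') :
    UU μ F s' := by
  have hpos := real_pos_of_supp hS
  obtain ⟨c1, hc1, hun⟩ := unif hF hne hpos
  refine ⟨C * 2 ^ s + 1 / c1 + C / c1, by positivity, ?_⟩
  intro ρ hρ hρ1 x hx r hr
  have hρs : ρ ^ (-s) ≤ ρ ^ (-s') := Real.rpow_le_rpow_of_exponent_ge hρ hρ1.le (by linarith)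
  have hρs1 : 1 ≤ ρ ^ (-s) := Real.one_le_rpow_of_pos_of_le_one_of_nonpos hρ hρ1.le (by linarith)
  have hρr : 0 < ρ * r := by positivity
  have hbc : μ.real (ball x (ρ * r)) ≤ μ.real (closedBall x (ρ * r)) :=
    measureReal_mono ball_subset_closedBall
  have hb0 := hpos x hx (ρ * r) hρr
  have hm0 : 0 < μ.real (closedBall x (ρ * r)) := hb0.trans_le hbc
  have key : ∃ K : ℝ, 0 ≤ K ∧ K ≤ C * 2 ^ s + 1 / c1 + C / c1 ∧
      μ.real (closedBall x r) ≤ K * ρ ^ (-s) * μ.real (closedBall x (ρ * r)) := by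
    rcases le_or_gt r (1 / 2) with h2 | h2
    · refine ⟨C * 2 ^ s, by positivity, ?_, ?_⟩
      · have h3 : 0 ≤ 1 / c1 := by positivity
        have h4 : 0 ≤ C / c1 := by positivity
        linarith
      · have h3 := h x hx (ρ * r) (2 * r) hρr (by nlinarith) (by linarith)
        have h4 : 2 * r / (ρ * r) = 2 * ρ⁻¹ := by field_simp
        rw [h4, Real.mul_rpow (by norm_num) (by positivity), Real.inv_rpow hρ.le,
          ← Real.rpow_neg hρ.le] at h3
        calc μ.real (closedBall x r) ≤ μ.real (ball x (2 * r)) :=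
              measureReal_mono (closedBall_subset_ball (by linarith))
          _ ≤ _ := h3
          _ ≤ C * (2 ^ s * ρ ^ (-s)) * μ.real (closedBall x (ρ * r)) :=
              mul_le_mul_of_nonneg_left hbc (by positivity)
          _ = _ := by ring
    · rcases le_or_gt (1 / 2) (ρ * r) with h5 | h5
      · refine ⟨1 / c1, by positivity, ?_, ?_⟩
        · have h3 : 0 ≤ C * 2 ^ s := by positivity
          have h4 : 0 ≤ C / c1 := by positivity
          linarith
        · have h6 : c1 ≤ μ.real (closedBall x (ρ * r)) := (hun x hx).trans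
            (measureReal_mono ((ball_subset_ball h5).trans ball_subset_closedBall))
          calc μ.real (closedBall x r) ≤ 1 := measureReal_le_one
            _ = 1 / c1 * 1 * c1 := by field_simp
            _ ≤ 1 / c1 * ρ ^ (-s) * μ.real (closedBall x (ρ * r)) := by gcongr
      · refine ⟨C / c1, by positivity, ?_, ?_⟩
        · have h3 : 0 ≤ C * 2 ^ s := by positivity
          have h4 : 0 ≤ 1 / c1 := by positivity
          linarith
        · have h3 := h x hx (ρ * r) (1 / 2) hρr h5 (by norm_num)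
          have h4 : 1 / 2 / (ρ * r) ≤ ρ⁻¹ := by
            rw [div_le_iff₀ hρr, ← mul_assoc, inv_mul_cancel₀ hρ.ne', one_mul]
            exact h2.le
          have h6 : (1 / 2 / (ρ * r)) ^ s ≤ ρ ^ (-s) := by
            rw [Real.rpow_neg hρ.le, ← Real.inv_rpow hρ.le]
            exact Real.rpow_le_rpow (by positivity) h4 hs
          have h7 : c1 ≤ C * ρ ^ (-s) * μ.real (closedBall x (ρ * r)) := by
            calc c1 ≤ _ := hun x hx
              _ ≤ _ := h3
              _ ≤ C * ρ ^ (-s) * μ.real (closedBall x (ρ * r)) := by gcongr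
          calc μ.real (closedBall x r) ≤ 1 := measureReal_le_one
            _ = 1 / c1 * c1 := by field_simp
            _ ≤ 1 / c1 * (C * ρ ^ (-s) * μ.real (closedBall x (ρ * r))) :=
                mul_le_mul_of_nonneg_left h7 (by positivity)
            _ = _ := by ring
  obtain ⟨K, hK0, hK, hKle⟩ := key
  refine hKle.trans ?_
  gcongr

theorem LL_of {F : Set E2} {μ : Measure E2}
    [IsProbabilityMeasure μ] {C s : ℝ} (hC : 0 < C) (hs : 0 ≤ s)
    (h : ∀ x ∈ F, ∀ r R : ℝ, 0 < r → r < R → R ≤ 1 →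
      (R / r) ^ s * μ.real (ball x r) ≤ C * μ.real (ball x R)) {s' : ℝ} (hs' : s' ≤ s) :
    LL μ F s' := by
  set D : ℝ := max (Metric.diam F) 1 with hD
  have hD1 : 1 ≤ D := le_max_right _ _
  have hD0 : 0 < D := by linarith
  refine ⟨(2 * D) ^ (-s) * min (1 / C) 1, by positivity, ?_⟩
  intro ρ hρ hρ1 x hx r hr hrF
  have hrD : r ≤ D := hrF.trans (le_max_left _ _)
  have hρs : ρ ^ (-s') ≤ ρ ^ (-s) := Real.rpow_le_rpow_of_exponent_ge hρ hρ1.le (by linarith)
  set R : ℝ := min r 1 with hR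
  have hR0 : 0 < R := by positivity
  have hRD : r / D ≤ R := by
    rw [hR, le_min_iff]
    constructor
    · exact div_le_self hr.le hD1
    · rw [div_le_one hD0]; exact hrD
  have hm : 0 ≤ μ.real (closedBall x (ρ * r)) := measureReal_nonneg
  have hmr : 0 ≤ μ.real (closedBall x r) := measureReal_nonneg
  have hRr : μ.real (ball x R) ≤ μ.real (closedBall x r) :=
    measureReal_mono ((ball_subset_ball (min_le_left _ _)).trans ball_subset_closedBall)
  have key : (2 * D) ^ (-s) * min (1 / C) 1 * ρ ^ (-s) * μ.real (closedBall x (ρ * r))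
      ≤ μ.real (closedBall x r) := by
    rcases lt_or_ge (2 * (ρ * r)) R with h1 | h1
    · have h2 := h x hx (2 * (ρ * r)) R (by positivity) h1 (min_le_right _ _)
      have h3 : (2 * D * ρ)⁻¹ ≤ R / (2 * (ρ * r)) := by
        rw [inv_le_iff_one_le_mul₀ (by positivity)]
        rw [div_le_iff₀ hD0] at hRD
        calc 1 = r / r := (div_self hr.ne').symm
          _ ≤ R * D / r := div_le_div_of_nonneg_right hRD hr.le
          _ = _ := by field_simp
      have h4 : (2 * D) ^ (-s) * ρ ^ (-s) ≤ (R / (2 * (ρ * r))) ^ s := by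
        rw [← Real.mul_rpow (by positivity) hρ.le, Real.rpow_neg (by positivity),
          ← Real.inv_rpow (by positivity)]
        exact Real.rpow_le_rpow (by positivity) h3 hs
      have h5 : μ.real (closedBall x (ρ * r)) ≤ μ.real (ball x (2 * (ρ * r))) :=
        measureReal_mono (closedBall_subset_ball (by nlinarith [mul_pos hρ hr]))
      calc (2 * D) ^ (-s) * min (1 / C) 1 * ρ ^ (-s) * μ.real (closedBall x (ρ * r))
          = min (1 / C) 1 * (((2 * D) ^ (-s) * ρ ^ (-s)) * μ.real (closedBall x (ρ * r))) := by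
            ring
        _ ≤ 1 / C * ((R / (2 * (ρ * r))) ^ s * μ.real (ball x (2 * (ρ * r)))) := by
            gcongr
            exact min_le_left _ _
        _ ≤ 1 / C * (C * μ.real (ball x R)) := mul_le_mul_of_nonneg_left h2 (by positivity)
        _ = μ.real (ball x R) := by field_simp
        _ ≤ _ := hRr
    · have h2 : 1 / (2 * D) ≤ ρ := by
        rw [div_le_iff₀ (by positivity)]
        rw [div_le_iff₀ hD0] at hRD
        have : r * 1 ≤ r * (ρ * (2 * D)) := by nlinarith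
        exact le_of_mul_le_mul_left this hr
      have h3 : ρ ^ (-s) ≤ (2 * D) ^ s := by
        rw [Real.rpow_neg hρ.le, ← Real.inv_rpow hρ.le]
        apply Real.rpow_le_rpow (by positivity) _ hs
        rw [inv_le_comm₀ hρ (by positivity), ← one_div]
        exact h2
      have h4 : μ.real (closedBall x (ρ * r)) ≤ μ.real (closedBall x r) :=
        measureReal_mono (closedBall_subset_closedBall (by nlinarith))
      calc (2 * D) ^ (-s) * min (1 / C) 1 * ρ ^ (-s) * μ.real (closedBall x (ρ * r))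
          ≤ (2 * D) ^ (-s) * 1 * (2 * D) ^ s * μ.real (closedBall x r) := by
            gcongr
            exact min_le_right _ _
        _ = μ.real (closedBall x r) := by
            rw [mul_one, ← Real.rpow_add (by positivity)]
            simp
  refine le_trans ?_ key
  gcongr

/-! ### the measure from a potential -/

section tree

variable {ι : Type} [Fintype ι] [Nonempty ι] {ρ τ : Fin 2 → ι → ℝ} {lab : Fin 2 → ι → ι}
  {F : Set E2}

/-- the super case -/
def SupC (ρ : Fin 2 → ι → ℝ) (lab : Fin 2 → ι → ι) (β : ℝ) (G : ℕ → (ℕ → ι) → ℝ) : Prop :=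
  ∀ (k : ℕ) (ω0 : ℕ → ι) (rep : (Fin 2 → List ι) → ℕ → ι) (S : Finset (Fin 2 → List ι)),
      (∀ v ∈ S, box ρ lab β (k + 1) (rep v) = v) →
      (∀ v, v ∈ S ↔ ∃ ω, box ρ lab β (k + 1) ω = v ∧ box ρ lab β k ω = box ρ lab β k ω0) →
      ∑ v ∈ S, G (k + 1) (rep v) ≤ G k ω0

/-- the sub case -/
def SubC (ρ : Fin 2 → ι → ℝ) (lab : Fin 2 → ι → ι) (β : ℝ) (G : ℕ → (ℕ → ι) → ℝ) : Prop :=
  ∀ (k : ℕ) (ω0 : ℕ → ι) (rep : (Fin 2 → List ι) → ℕ → ι) (S : Finset (Fin 2 → List ι)),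
      (∀ v ∈ S, box ρ lab β (k + 1) (rep v) = v) →
      (∀ v, v ∈ S ↔ ∃ ω, box ρ lab β (k + 1) ω = v ∧ box ρ lab β k ω = box ρ lab β k ω0) →
      G k ω0 ≤ ∑ v ∈ S, G (k + 1) (rep v)

theorem tree_apply (hCODE : S_CODE) (hLEN : S_LEN) (hCOUNT : S_COUNT) (hTREE : S_TREE)
    (hA : Adm ρ τ) (hLab : Lab ρ τ lab) (hF : Attr ρ τ F) (hSep : Sep ρ τ lab 12)
    (G : ℕ → (ℕ → ι) → ℝ) (κ s : ℝ) (hκ : 0 < κ) (hs : 0 ≤ s)
    (hGb : ∀ k ω ω', box ρ lab 12 k ω = box ρ lab 12 k ω' → G k ω = G k ω')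
    (hGc : ∀ k ω, 1 / κ * ((1 / 12 : ℝ) ^ k) ^ s ≤ G k ω ∧ G k ω ≤ κ * ((1 / 12 : ℝ) ^ k) ^ s) :
    (SupC ρ lab 12 G → ∃ (μ : Measure E2) (C2 : ℝ), IsProbabilityMeasure μ ∧ Supp μ F ∧ 0 < C2 ∧
      ∀ x ∈ F, ∀ r R : ℝ, 0 < r → r < R → R ≤ 1 →
        μ.real (ball x R) ≤ C2 * (R / r) ^ s * μ.real (ball x r)) ∧
    (SubC ρ lab 12 G → ∃ (μ : Measure E2) (C2 : ℝ), IsProbabilityMeasure μ ∧ Supp μ F ∧ 0 < C2 ∧
      ∀ x ∈ F, ∀ r R : ℝ, 0 < r → r < R → R ≤ 1 →
        (R / r) ^ s * μ.real (ball x r) ≤ C2 * μ.real (ball x R)) := by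
  classical
  have hFr := hCODE ι ρ τ F hA hF
  obtain ⟨_, hL0, _, _, _, _, hLN, hpar8, hdist9⟩ := hLEN ι ρ τ lab 12 hA hLab (by norm_num)
  haveI : CompactSpace F := isCompact_iff_compactSpace.1 hF.1
  have hrep : ∀ k, ∃ R : (Fin 2 → List ι) → ℕ → ι, ∀ v,
      (∃ ω, box ρ lab 12 k ω = v) → box ρ lab 12 k (R v) = v := by
    intro k
    refine ⟨fun v => if h : ∃ ω, box ρ lab 12 k ω = v then h.choose else
      fun _ => Classical.arbitrary ι, ?_⟩
    intro v hv
    simp only [dif_pos hv]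
    exact hv.choose_spec
  choose R hR using hrep
  let V : ℕ → Type := fun k => {v : Fin 2 → List ι // ∃ ω, box ρ lab 12 k ω = v}
  have hfin : ∀ k, Finite (V k) := by
    intro k
    obtain ⟨N, hN⟩ := hLN k
    have : {v : Fin 2 → List ι | ∃ ω, box ρ lab 12 k ω = v}.Finite := by
      apply (Set.Finite.pi (fun _ : Fin 2 => List.finite_length_le ι N)).subset
      rintro v ⟨ω, rfl⟩ h _
      simp only [box, mem_setOf_eq, List.length_map, List.length_range]
      exact hN h ω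
    exact this
  haveI : ∀ k, Fintype (V k) := fun k => Fintype.ofFinite _
  have hRb : ∀ k (v : V k), box ρ lab 12 k (R k v.1) = v.1 := fun k v => hR k v.1 v.2
  let par : ∀ k, V (k + 1) → V k := fun k u => ⟨box ρ lab 12 k (R (k + 1) u.1), _, rfl⟩
  have hptF : ∀ ω, pt ρ τ ω ∈ F := fun ω => by rw [hFr]; exact ⟨ω, rfl⟩
  let c : ∀ k, V k → F := fun k v => ⟨pt ρ τ (R k v.1), hptF _⟩
  have hcd : ∀ x : F, ∃ ω, pt ρ τ ω = x.1 := by
    intro x
    exact (Set.ext_iff.1 hFr x.1).1 x.2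
  choose cd hcdx using hcd
  let code : ∀ k, F → V k := fun k x => ⟨box ρ lab 12 k (cd x), _, rfl⟩
  have hT := hTREE F V par (fun k v => G k (R k v.1)) c code 12 2 κ s
    (by
      refine ⟨⟨box ρ lab 12 0 (fun _ => Classical.arbitrary ι), _, rfl⟩, ?_⟩
      rintro ⟨v, ω, rfl⟩
      apply Subtype.ext
      funext h
      simp [box, hL0])
    (by
      rintro k ⟨v, ω, rfl⟩
      refine ⟨⟨box ρ lab 12 (k + 1) ω, _, rfl⟩, ?_⟩
      apply Subtype.ext
      exact hpar8 k _ _ (hR (k + 1) _ ⟨ω, rfl⟩))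
    (by
      intro k x
      apply Subtype.ext
      exact hpar8 k _ _ (hR (k + 1) _ ⟨cd x, rfl⟩))
    (by
      intro k x
      show dist (pt ρ τ (R k (code k x).1)) x.1 ≤ _
      rw [← hcdx x]
      exact hdist9 k _ _ (hRb k (code k x)))
    (by
      intro k u
      show dist (pt ρ τ (R (k + 1) u.1)) (pt ρ τ (R k (par k u).1)) ≤ _
      exact hdist9 k _ _ (hRb k (par k u)).symm)
    (by
      intro A
      obtain ⟨H, hH⟩ := hCOUNT ι ρ τ lab 12 hA hLab (by norm_num) hSep A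
      refine ⟨H, ?_⟩
      intro k v S hS
      have := hH k (c k v).1 (S.map ⟨Subtype.val, Subtype.val_injective⟩) (R k) (by
        intro u hu
        simp only [Finset.mem_map, Function.Embedding.coeFn_mk] at hu
        obtain ⟨u', hu', rfl⟩ := hu
        exact ⟨hRb k u', hS u' hu'⟩)
      rwa [Finset.card_map] at this)
    hκ hs (by norm_num) (by norm_num) (by norm_num)
    (fun k v => hGc k _)
  -- conversion of the sums
  have hmap : ∀ k (v : V k) (S : Finset (V (k + 1))), (∀ u, u ∈ S ↔ par k u = v) →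
      (∀ u ∈ S.map ⟨Subtype.val, Subtype.val_injective⟩, box ρ lab 12 (k + 1) (R (k + 1) u) = u) ∧
      (∀ u, u ∈ S.map ⟨Subtype.val, Subtype.val_injective⟩ ↔
        ∃ ω, box ρ lab 12 (k + 1) ω = u ∧ box ρ lab 12 k ω = box ρ lab 12 k (R k v.1)) := by
    intro k v S hS
    constructor
    · intro u hu
      simp only [Finset.mem_map, Function.Embedding.coeFn_mk] at hu
      obtain ⟨u', _, rfl⟩ := hu
      exact hRb (k + 1) u'
    · intro u
      simp only [Finset.mem_map, Function.Embedding.coeFn_mk]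
      constructor
      · rintro ⟨u', hu', rfl⟩
        refine ⟨R (k + 1) u'.1, hRb (k + 1) u', ?_⟩
        rw [hRb k v, ← (hS u').1 hu']
      · rintro ⟨ω, hωu, hωv⟩
        refine ⟨⟨u, ω, hωu⟩, (hS _).2 ?_, rfl⟩
        apply Subtype.ext
        show box ρ lab 12 k (R (k + 1) u) = v.1
        rw [hpar8 k (R (k + 1) u) ω ((hR (k + 1) u ⟨ω, hωu⟩).trans hωu.symm), hωv, hRb k v]
  refine ⟨fun hsup => ?_, fun hsub => ?_⟩
  · obtain ⟨ν, C2, hν, hC2, hpos, hest⟩ := hT.1 (by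
      intro k v S hS
      obtain ⟨h1, h2⟩ := hmap k v S hS
      have := hsup k (R k v.1) (R (k + 1)) _ h1 h2
      rw [Finset.sum_map] at this
      exact this)
    obtain ⟨μ, hμ, hsupp, hb⟩ := push hF.1.isClosed ν hpos
    refine ⟨μ, C2, hμ, hsupp, hC2, ?_⟩
    intro x hx r R' hr hrR hR'
    rw [hb x hx, hb x hx]
    exact hest _ r R' hr hrR hR'
  · obtain ⟨ν, C2, hν, hC2, hpos, hest⟩ := hT.2 (by
      intro k v S hS
      obtain ⟨h1, h2⟩ := hmap k v S hS
      have := hsub k (R k v.1) (R (k + 1)) _ h1 h2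
      rw [Finset.sum_map] at this
      exact this)
    obtain ⟨μ, hμ, hsupp, hb⟩ := push hF.1.isClosed ν hpos
    refine ⟨μ, C2, hμ, hsupp, hC2, ?_⟩
    intro x hx r R' hr hrR hR'
    rw [hb x hx, hb x hx]
    exact hest _ r R' hr hrR hR'

end tree

/-! ### potentials -/

theorem other (h h' : Fin 2) : h' = h ∨ h' = 1 - h := by revert h h'; decide
theorem ne_other (h : Fin 2) : 1 - h ≠ h := by revert h; decide
theorem other_other (h : Fin 2) : 1 - (1 - h) = h := by revert h; decide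

section pot

open Classical in
theorem fib {ι : Type} [Fintype ι] (g : ι → ι) (hg : ∀ i, g (g i) = g i) (S : Finset ι)
    (hS : ∀ i, i ∈ S ↔ g i = i) (φ : ι → ℝ) :
    ∑ i ∈ S, ∑ j with g j = g i, φ j = ∑ j, φ j := by
  rw [← Finset.sum_fiberwise_of_maps_to (s := Finset.univ) (t := S) (g := g)
    (fun x _ => (hS _).2 (hg x)) φ]
  apply Finset.sum_congr rfl
  intro i hi
  rw [(hS i).1 hi]

variable {ι : Type} [Fintype ι] {ρ τ : Fin 2 → ι → ℝ} {lab : Fin 2 → ι → ι}

noncomputable def potF (ρ : Fin 2 → ι → ℝ) (h : Fin 2) (p e : ℝ) (i : ι) : ℝ :=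
  ρ h i ^ p * ρ (1 - h) i ^ (e - p)

open Classical in
noncomputable def pot1 (ρ : Fin 2 → ι → ℝ) (lab : Fin 2 → ι → ι) (h : Fin 2) (p e : ℝ)
    (h' : Fin 2) (i : ι) : ℝ :=
  if h' = h then ρ h i ^ p else ∑ j with lab h' j = lab h' i, potF ρ h p e j

theorem potF_pos (hA : Adm ρ τ) (h : Fin 2) (p e : ℝ) (i : ι) : 0 < potF ρ h p e i := by
  unfold potF
  have h1 := (hA h i).1
  have h2 := (hA (1 - h) i).1
  positivity

theorem pot1_nonneg (hA : Adm ρ τ) (h : Fin 2) (p e : ℝ) (h' : Fin 2) (i : ι) :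
    0 ≤ pot1 ρ lab h p e h' i := by
  unfold pot1
  have h1 := (hA h i).1
  split_ifs
  · positivity
  · exact Finset.sum_nonneg (fun j _ => (potF_pos hA h p e j).le)

theorem pot1_lab (hLab : Lab ρ τ lab) (h : Fin 2) (p e : ℝ) (h' : Fin 2) (i j : ι)
    (hij : lab h' i = lab h' j) : pot1 ρ lab h p e h' i = pot1 ρ lab h p e h' j := by
  unfold pot1
  split_ifs with hh
  · subst hh
    rw [(hLab.1 _ i j hij).1]
  · rw [hij]

theorem pot_c2_eq (h : Fin 2) (p e : ℝ) (i : ι) (S : Finset ι)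
    (hS : ∀ j, j ∈ S ↔ lab (1 - h) j = lab (1 - h) i) :
    ∑ j ∈ S, potF ρ h p e j = pot1 ρ lab h p e (1 - h) i := by
  classical
  unfold pot1
  rw [if_neg (ne_other h)]
  apply Finset.sum_congr _ (fun _ _ => rfl)
  ext j
  simp [hS]

theorem pot_c2 (hA : Adm ρ τ) (hLab : Lab ρ τ lab) (h : Fin 2) (p e : ℝ) (i : ι) (S : Finset ι)
    (hS : ∀ j, j ∈ S ↔ lab h j = lab h i) :
    ∑ j ∈ S, potF ρ h p e j = pot1 ρ lab h p e h i * ∑ j ∈ S, ρ (1 - h) j ^ (e - p) := by
  unfold pot1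
  rw [if_pos rfl, Finset.mul_sum]
  apply Finset.sum_congr rfl
  intro j hj
  unfold potF
  rw [(hLab.1 h j i ((hS j).1 hj)).1]

theorem pot_tot (hA : Adm ρ τ) (hLab : Lab ρ τ lab) (h : Fin 2) (p e : ℝ) (S : Finset ι)
    (hS : ∀ j, j ∈ S ↔ lab (1 - h) j = j) :
    ∑ j ∈ S, pot1 ρ lab h p e (1 - h) j = ∑ j, potF ρ h p e j := by
  classical
  rw [← fib (lab (1 - h)) (hLab.2.2 (1 - h)) S hS (potF ρ h p e)]
  apply Finset.sum_congr rfl
  intro j _
  unfold pot1
  rw [if_neg (ne_other h)]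

/-- super conditions -/
theorem pot_sup (hA : Adm ρ τ) (hLab : Lab ρ τ lab) (h : Fin 2) (p e : ℝ)
    (hp : ∀ S : Finset ι, (∀ j, j ∈ S ↔ lab h j = j) → ∑ j ∈ S, ρ h j ^ p = 1)
    (hT : ∀ i (T : Finset ι), (∀ j, j ∈ T ↔ lab h j = lab h i) →
      ∑ j ∈ T, ρ (1 - h) j ^ (e - p) ≤ 1) :
    (∀ h' (S : Finset ι), (∀ j, j ∈ S ↔ lab h' j = j) → ∑ j ∈ S, pot1 ρ lab h p e h' j ≤ 1) ∧
    (∀ h' i (S : Finset ι), (∀ j, j ∈ S ↔ lab h' j = lab h' i) →
      ∑ j ∈ S, potF ρ h p e j ≤ pot1 ρ lab h p e h' i) := by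
  classical
  have hc2 : ∀ i (S : Finset ι), (∀ j, j ∈ S ↔ lab h j = lab h i) →
      ∑ j ∈ S, potF ρ h p e j ≤ pot1 ρ lab h p e h i := by
    intro i S hS
    rw [pot_c2 hA hLab h p e i S hS]
    exact mul_le_of_le_one_right (pot1_nonneg hA h p e h i) (hT i S hS)
  have hS1 : ∀ S : Finset ι, (∀ j, j ∈ S ↔ lab h j = j) →
      ∑ j ∈ S, pot1 ρ lab h p e h j = 1 := by
    intro S hS
    rw [← hp S hS]
    apply Finset.sum_congr rfl
    intro j _
    unfold pot1
    rw [if_pos rfl]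
  constructor
  · intro h' S hS
    rcases other h h' with rfl | rfl
    · exact (hS1 S hS).le
    · rw [pot_tot hA hLab h p e S hS]
      set S0 : Finset ι := Finset.univ.filter (fun i => lab h i = i) with hS0
      have hS0' : ∀ i, i ∈ S0 ↔ lab h i = i := by intro i; simp [hS0]
      rw [← fib (lab h) (hLab.2.2 h) S0 hS0' (potF ρ h p e), ← hS1 S0 hS0']
      apply Finset.sum_le_sum
      intro i _
      exact hc2 i _ (by intro j; simp)
  · intro h' i S hS
    rcases other h h' with rfl | rfl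
    · exact hc2 i S hS
    · exact (pot_c2_eq h p e i S hS).le

/-- sub conditions -/
theorem pot_sub (hA : Adm ρ τ) (hLab : Lab ρ τ lab) (h : Fin 2) (p e : ℝ)
    (hp : ∀ S : Finset ι, (∀ j, j ∈ S ↔ lab h j = j) → ∑ j ∈ S, ρ h j ^ p = 1)
    (hT : ∀ i (T : Finset ι), (∀ j, j ∈ T ↔ lab h j = lab h i) →
      1 ≤ ∑ j ∈ T, ρ (1 - h) j ^ (e - p)) :
    (∀ h' (S : Finset ι), (∀ j, j ∈ S ↔ lab h' j = j) → 1 ≤ ∑ j ∈ S, pot1 ρ lab h p e h' j) ∧
    (∀ h' i (S : Finset ι), (∀ j, j ∈ S ↔ lab h' j = lab h' i) →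
      pot1 ρ lab h p e h' i ≤ ∑ j ∈ S, potF ρ h p e j) := by
  classical
  have hc2 : ∀ i (S : Finset ι), (∀ j, j ∈ S ↔ lab h j = lab h i) →
      pot1 ρ lab h p e h i ≤ ∑ j ∈ S, potF ρ h p e j := by
    intro i S hS
    rw [pot_c2 hA hLab h p e i S hS]
    exact le_mul_of_one_le_right (pot1_nonneg hA h p e h i) (hT i S hS)
  have hS1 : ∀ S : Finset ι, (∀ j, j ∈ S ↔ lab h j = j) →
      ∑ j ∈ S, pot1 ρ lab h p e h j = 1 := by
    intro S hS
    rw [← hp S hS]
    apply Finset.sum_congr rfl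
    intro j _
    unfold pot1
    rw [if_pos rfl]
  constructor
  · intro h' S hS
    rcases other h h' with rfl | rfl
    · exact (hS1 S hS).ge
    · rw [pot_tot hA hLab h p e S hS]
      set S0 : Finset ι := Finset.univ.filter (fun i => lab h i = i) with hS0
      have hS0' : ∀ i, i ∈ S0 ↔ lab h i = i := by intro i; simp [hS0]
      rw [← fib (lab h) (hLab.2.2 h) S0 hS0' (potF ρ h p e), ← hS1 S0 hS0']
      apply Finset.sum_le_sum
      intro i _
      exact hc2 i _ (by intro j; simp)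
  · intro h' i S hS
    rcases other h h' with rfl | rfl
    · exact hc2 i S hS
    · exact (pot_c2_eq h p e i S hS).ge

end pot

section cases

variable {ι : Type} [Fintype ι] {ρ τ : Fin 2 → ι → ℝ} {F : Set E2}

/-- the goal -/
def Goal (F : Set E2) : Prop :=
  (∃ μ : Measure E2, IsProbabilityMeasure μ ∧ Supp μ F ∧ UU μ F (dimA F)) ∧
  (∃ μ : Measure E2, IsProbabilityMeasure μ ∧ Supp μ F ∧ LL μ F (dimL F))

theorem exists_lab (ρ τ : Fin 2 → ι → ℝ) (h : Fin 2) : ∃ lab : ι → ι,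
    (∀ i j, lab i = lab j ↔ Same ρ τ h i j) ∧ ∀ i, lab (lab i) = lab i := by
  let s : Setoid ι := ⟨Same ρ τ h, ⟨fun i => ⟨rfl, rfl⟩, fun hh => ⟨hh.1.symm, hh.2.symm⟩,
    fun h1 h2 => ⟨h1.1.trans h2.1, h1.2.trans h2.2⟩⟩⟩
  refine ⟨fun i => (Quotient.mk s i).out, ?_, ?_⟩
  · intro i j
    constructor
    · intro hij
      have : Quotient.mk s i = Quotient.mk s j := by
        rw [← Quotient.out_eq (Quotient.mk s i), ← Quotient.out_eq (Quotient.mk s j)]
        exact congrArg _ hij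
      exact Quotient.exact this
    · intro hij
      have : Quotient.mk s i = Quotient.mk s j := Quotient.sound hij
      show (Quotient.mk s i).out = (Quotient.mk s j).out
      rw [this]
  · intro i
    show (Quotient.mk s ((Quotient.mk s i).out)).out = (Quotient.mk s i).out
    rw [Quotient.out_eq]

theorem data [Nonempty ι] (hNUMB : S_NUMB) (hA : Adm ρ τ) (h : Fin 2) :
    ∃ (lab0 : ι → ι) (p : ℝ) (tt : ι → ℝ), (∀ i j, lab0 i = lab0 j ↔ Same ρ τ h i j) ∧
      (∀ i, lab0 (lab0 i) = lab0 i) ∧ 0 ≤ p ∧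
      (∀ S : Finset ι, (∀ j, j ∈ S ↔ lab0 j = j) → ∑ j ∈ S, ρ h j ^ p = 1) ∧
      (∀ i, 0 ≤ tt i) ∧
      (∀ i (T : Finset ι), (∀ j, j ∈ T ↔ Same ρ τ h j i) → ∑ j ∈ T, ρ (1 - h) j ^ tt i = 1) ∧
      (∀ i (T : Finset ι), (∀ j, j ∈ T ↔ Same ρ τ h j i) → ∀ s', tt i ≤ s' →
        ∑ j ∈ T, ρ (1 - h) j ^ s' ≤ 1) ∧
      (∀ i (T : Finset ι), (∀ j, j ∈ T ↔ Same ρ τ h j i) → ∀ s', s' ≤ tt i →
        1 ≤ ∑ j ∈ T, ρ (1 - h) j ^ s') := by
  classical
  obtain ⟨lab0, h1, h2⟩ := exists_lab ρ τ h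
  set S0 : Finset ι := Finset.univ.filter (fun i => lab0 i = i) with hS0
  obtain ⟨p, hp0, hp1, _, _⟩ := hNUMB ι S0 (ρ h)
    ⟨lab0 (Classical.arbitrary ι), by simp [hS0, h2]⟩ (fun i => ⟨(hA h i).1, (hA h i).2.1⟩)
  have hTs : ∀ i, ∃ t : ℝ, 0 ≤ t ∧ ∑ j with Same ρ τ h j i, ρ (1 - h) j ^ t = 1 ∧
      (∀ s', t ≤ s' → ∑ j with Same ρ τ h j i, ρ (1 - h) j ^ s' ≤ 1) ∧
      (∀ s', s' ≤ t → 1 ≤ ∑ j with Same ρ τ h j i, ρ (1 - h) j ^ s') := by
    intro i
    exact hNUMB ι (Finset.univ.filter (fun j => Same ρ τ h j i)) (ρ (1 - h))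
      ⟨i, Finset.mem_filter.2 ⟨Finset.mem_univ i, rfl, rfl⟩⟩
      (fun i => ⟨(hA (1 - h) i).1, (hA (1 - h) i).2.1⟩)
  choose tt ht0 ht1 ht2 ht3 using hTs
  have hTeq : ∀ i (T : Finset ι), (∀ j, j ∈ T ↔ Same ρ τ h j i) →
      T = Finset.univ.filter (fun j => Same ρ τ h j i) := by
    intro i T hT
    ext j
    simp [hT]
  refine ⟨lab0, p, tt, h1, h2, hp0, ?_, ht0, ?_, ?_, ?_⟩
  · intro S hS
    have : S = S0 := by ext j; simp [hS, hS0]
    rw [this]; exact hp1
  · intro i T hT; rw [hTeq i T hT]; exact ht1 i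
  · intro i T hT s' hs'; rw [hTeq i T hT]; exact ht2 i s' hs'
  · intro i T hT s' hs'; rw [hTeq i T hT]; exact ht3 i s' hs'

theorem Ln_le [Nonempty ι] (hLEN : S_LEN) (hA : Adm ρ τ) (h : Fin 2)
    (hle : ∀ i, ρ (1 - h) i ≤ ρ h i) (k : ℕ) (ω : ℕ → ι) :
    Ln ρ 12 (1 - h) ω k ≤ Ln ρ 12 h ω k := by
  have hLab : Lab ρ τ (fun _ i => i) := by
    refine ⟨?_, ?_, ?_⟩
    · rintro h' i j hij
      simp only at hij
      rw [hij]
      exact ⟨rfl, rfl⟩
    · intro i j hij; exact hij 0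
    · intro h' i; rfl
  obtain ⟨_, _, h3, _⟩ := hLEN ι ρ τ (fun _ i => i) 12 hA hLab (by norm_num)
  apply Nat.sInf_le
  show PP ρ (1 - h) ω (Ln ρ 12 h ω k) ≤ _
  refine le_trans ?_ (h3 h ω k)
  unfold PP
  exact Finset.prod_le_prod (fun m _ => (hA (1 - h) (ω m)).1.le) (fun m _ => hle (ω m))

theorem caseB [Nonempty ι] (hCODE : S_CODE) (hLEN : S_LEN) (hCOUNT : S_COUNT) (hTREE : S_TREE)
    (hSEPLG : S_SEPLG) (hSTOP : S_STOP) (hCOMP : S_COMP) (hNUMB : S_NUMB) (hDIMA : S_DIMA)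
    (hDIML : S_DIML) (hA : Adm ρ τ) (hF : Attr ρ τ F) (h : Fin 2) (hStr : Str ρ τ h)
    (hle : ∀ i, ρ (1 - h) i ≤ ρ h i) (hlt : ∃ i, ρ (1 - h) i < ρ h i) : Goal F := by
  classical
  obtain ⟨lab0, p, tt, hl1, hl2, hp0, hp1, ht0, ht1, ht2, ht3⟩ := data hNUMB hA h
  let lab : Fin 2 → ι → ι := fun h' => if h' = h then lab0 else id
  have hlabh : lab h = lab0 := by simp [lab]
  have hlabo : lab (1 - h) = id := by simp [lab, ne_other]
  have hLab : Lab ρ τ lab := by
    refine ⟨?_, ?_, ?_⟩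
    · intro h' i j hij
      rcases other h h' with rfl | rfl
      · rw [hlabh] at hij; exact (hl1 i j).1 hij
      · rw [hlabo] at hij
        simp only [id] at hij
        rw [hij]; exact ⟨rfl, rfl⟩
    · intro i j hij
      have := hij (1 - h)
      rw [hlabo] at this
      exact this
    · intro h' i
      rcases other h h' with rfl | rfl
      · rw [hlabh]; exact hl2 i
      · rw [hlabo]; rfl
  have hSep : Sep ρ τ lab 12 := hSEPLG ι ρ τ lab 12 h hA hStr hle (by norm_num)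
    (by rw [hlabh]; exact hl1) (by intro i; rw [hlabo]; rfl)
  have hp1' : ∀ S : Finset ι, (∀ j, j ∈ S ↔ lab h j = j) → ∑ j ∈ S, ρ h j ^ p = 1 := by
    rw [hlabh]; exact hp1
  have hTS : ∀ i (T : Finset ι), (∀ j, j ∈ T ↔ lab h j = lab h i) →
      ∀ j, j ∈ T ↔ Same ρ τ h j i := by
    intro i T hT j
    rw [hT j, hlabh, hl1]
  have hLn := Ln_le hLEN hA h hle
  obtain ⟨j1, _, hj1⟩ := Finset.exists_max_image Finset.univ tt Finset.univ_nonempty
  obtain ⟨j2, _, hj2⟩ := Finset.exists_min_image Finset.univ tt Finset.univ_nonempty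
  constructor
  · set e := p + tt j1 with he
    have he0 : 0 ≤ e := add_nonneg hp0 (ht0 j1)
    obtain ⟨hGb, hsup, _⟩ := hSTOP ι ρ τ lab 12 (potF ρ h p e) (pot1 ρ lab h p e) hA hLab
      (by norm_num) (fun i => (potF_pos hA h p e i).le) (fun h' i => pot1_nonneg hA h p e h' i)
      (fun h' i j hij => pot1_lab hLab h p e h' i j hij)
    obtain ⟨κ, hκ, _, hc, _⟩ := hCOMP ι ρ τ 12 h p e (potF ρ h p e) (pot1 ρ lab h p e) hA
      (by norm_num) hp0 (fun i => rfl) (fun i => by simp [pot1])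
      (fun i => pot1_nonneg hA h p e (1 - h) i)
    obtain ⟨c1, c2⟩ := pot_sup hA hLab h p e hp1' (by
      intro i T hT
      rw [he, add_sub_cancel_left]
      exact ht2 i T (hTS i T hT) _ (hj1 i (Finset.mem_univ i)))
    obtain ⟨μ, C2, hμ, hsupp, hC2, hest⟩ := (tree_apply hCODE hLEN hCOUNT hTREE hA hLab hF hSep
      (GG ρ 12 (potF ρ h p e) (pot1 ρ lab h p e)) κ e hκ he0 hGb
      (fun k ω => hc k ω (hLn k ω))).1 (hsup c1 c2)
    refine ⟨μ, hμ, hsupp, UU_of hF.1 hF.2.1 hsupp hC2 he0 hest ?_⟩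
    exact hDIMA ι ρ τ F h lab0 (Finset.univ.filter (fun i => lab0 i = i))
      (Finset.univ.filter (fun i => Same ρ τ h i j1)) j1 p (tt j1) hA hStr hlt hF hl1 hl2
      (by intro i; simp) (by intro i; simp) hp0 (ht0 j1) (hp1 _ (by intro i; simp))
      (ht1 j1 _ (by intro i; simp))
  · set e := p + tt j2 with he
    have he0 : 0 ≤ e := add_nonneg hp0 (ht0 j2)
    obtain ⟨hGb, _, hsub⟩ := hSTOP ι ρ τ lab 12 (potF ρ h p e) (pot1 ρ lab h p e) hA hLab
      (by norm_num) (fun i => (potF_pos hA h p e i).le) (fun h' i => pot1_nonneg hA h p e h' i)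
      (fun h' i j hij => pot1_lab hLab h p e h' i j hij)
    obtain ⟨κ, hκ, _, hc, _⟩ := hCOMP ι ρ τ 12 h p e (potF ρ h p e) (pot1 ρ lab h p e) hA
      (by norm_num) hp0 (fun i => rfl) (fun i => by simp [pot1])
      (fun i => pot1_nonneg hA h p e (1 - h) i)
    obtain ⟨c1, c2⟩ := pot_sub hA hLab h p e hp1' (by
      intro i T hT
      rw [he, add_sub_cancel_left]
      exact ht3 i T (hTS i T hT) _ (hj2 i (Finset.mem_univ i)))
    obtain ⟨μ, C2, hμ, hsupp, hC2, hest⟩ := (tree_apply hCODE hLEN hCOUNT hTREE hA hLab hF hSep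
      (GG ρ 12 (potF ρ h p e) (pot1 ρ lab h p e)) κ e hκ he0 hGb
      (fun k ω => hc k ω (hLn k ω))).2 (hsub c1 c2)
    refine ⟨μ, hμ, hsupp, LL_of hC2 he0 hest ?_⟩
    exact hDIML ι ρ τ F h lab0 (Finset.univ.filter (fun i => lab0 i = i))
      (Finset.univ.filter (fun i => Same ρ τ h i j2)) j2 p (tt j2) hA hStr hlt hF hl1 hl2
      (by intro i; simp) (by intro i; simp) hp0 (ht0 j2) (hp1 _ (by intro i; simp))
      (ht1 j2 _ (by intro i; simp))

theorem caseC [Nonempty ι] (hCODE : S_CODE) (hLEN : S_LEN) (hCOUNT : S_COUNT) (hTREE : S_TREE)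
    (hSEPBAR : S_SEPBAR) (hSTOP : S_STOP) (hCOMP : S_COMP) (hNUMB : S_NUMB) (hDIMA : S_DIMA)
    (hDIML : S_DIML) (hA : Adm ρ τ) (hF : Attr ρ τ F) (hStr : ∀ h, Str ρ τ h)
    (hlt : ∀ h, ∃ i, ρ (1 - h) i < ρ h i) : Goal F := by
  classical
  have hdata := fun h => data hNUMB hA h
  choose lab p tt hl1 hl2 hp0 hp1 ht0 ht1 ht2 ht3 using hdata
  have hLab : Lab ρ τ lab := by
    refine ⟨fun h' i j hij => (hl1 h' i j).1 hij, ?_, fun h' i => hl2 h' i⟩
    intro i j hij
    by_contra hne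
    have h0 := (hl1 0 i j).1 (hij 0)
    have h1 := (hl1 1 i j).1 (hij 1)
    have h2 := (hStr 0).2 i j hne h0
    have h3 := (hA 1 i).1
    have h4 := (hA 1 j).1
    rcases h2 with h2 | h2
    · have e1 : τ 1 i + ρ 1 i ≤ τ 1 j := h2
      rw [h1.2] at e1
      linarith
    · have e1 : τ 1 j + ρ 1 j ≤ τ 1 i := h2
      rw [h1.2] at e1
      linarith
  have hSep : Sep ρ τ lab 12 := hSEPBAR ι ρ τ lab 12 hA (fun h i j => (hStr h).1 i j)
    (by norm_num) hl1
  have hTS : ∀ h i (T : Finset ι), (∀ j, j ∈ T ↔ lab h j = lab h i) →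
      ∀ j, j ∈ T ↔ Same ρ τ h j i := by
    intro h i T hT j
    rw [hT j, hl1]
  obtain ⟨q1, _, hq1⟩ := Finset.exists_max_image (Finset.univ : Finset (Fin 2 × ι))
    (fun q => p q.1 + tt q.1 q.2) Finset.univ_nonempty
  obtain ⟨q2, _, hq2⟩ := Finset.exists_min_image (Finset.univ : Finset (Fin 2 × ι))
    (fun q => p q.1 + tt q.1 q.2) Finset.univ_nonempty
  -- bound of the other potential
  have hoth : ∀ h (e : ℝ) i, pot1 ρ lab h (p h) e (1 - h) i ≤ ρ (1 - h) i ^ (e - p h) := by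
    intro h e i
    unfold pot1
    rw [if_neg (ne_other h)]
    have h1 : ∑ j with lab (1 - h) j = lab (1 - h) i, potF ρ h (p h) e j
        = ρ (1 - h) i ^ (e - p h) * ∑ j with lab (1 - h) j = lab (1 - h) i, ρ h j ^ p h := by
      rw [Finset.mul_sum]
      apply Finset.sum_congr rfl
      intro j hj
      rw [Finset.mem_filter] at hj
      unfold potF
      rw [((hl1 (1 - h) j i).1 hj.2).1]
      ring
    rw [h1]
    apply mul_le_of_le_one_right
    · have := (hA (1 - h) i).1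
      positivity
    · have h2 : ∀ j, ρ h j = ρ h (lab h j) := by
        intro j
        exact ((hl1 h j (lab h j)).1 (hl2 h j).symm).1
      calc ∑ j with lab (1 - h) j = lab (1 - h) i, ρ h j ^ p h
          = ∑ j with lab (1 - h) j = lab (1 - h) i, ρ h (lab h j) ^ p h := by
            apply Finset.sum_congr rfl
            intro j _
            rw [← h2 j]
        _ = ∑ i' ∈ (Finset.univ.filter (fun j => lab (1 - h) j = lab (1 - h) i)).image (lab h),
              ρ h i' ^ p h := by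
            rw [Finset.sum_image]
            intro j hj j' hj' hjj
            simp only [Finset.coe_filter, Finset.mem_univ, true_and, mem_setOf_eq] at hj hj'
            apply hLab.2.1
            intro h'
            rcases other h h' with rfl | rfl
            · exact hjj
            · rw [hj, hj']
        _ ≤ ∑ i' ∈ Finset.univ.filter (fun i' => lab h i' = i'), ρ h i' ^ p h := by
            apply Finset.sum_le_sum_of_subset_of_nonneg
            · intro i' hi'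
              rw [Finset.mem_image] at hi'
              obtain ⟨j, _, rfl⟩ := hi'
              simp [hl2]
            · intro i' _ _
              have := (hA h i').1
              positivity
        _ = 1 := hp1 h _ (by intro j; simp)
  -- comparison
  have hcmp : ∀ e : ℝ, ∃ κ : ℝ, 0 < κ ∧ ∀ k ω,
      1 / κ * ((1 / 12 : ℝ) ^ k) ^ e ≤ ∑ h : Fin 2, GG ρ 12 (potF ρ h (p h) e)
        (pot1 ρ lab h (p h) e) k ω ∧
      ∑ h : Fin 2, GG ρ 12 (potF ρ h (p h) e) (pot1 ρ lab h (p h) e) k ω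
        ≤ κ * ((1 / 12 : ℝ) ^ k) ^ e := by
    intro e
    have hC := fun h => hCOMP ι ρ τ 12 h (p h) e (potF ρ h (p h) e) (pot1 ρ lab h (p h) e) hA
      (by norm_num) (hp0 h) (fun i => rfl) (fun i => by simp [pot1])
      (fun i => pot1_nonneg hA h (p h) e (1 - h) i)
    choose κ hκ h0 h2 h3 using hC
    have hκ0 := hκ 0
    have hκ1 := hκ 1
    refine ⟨κ 0 + κ 1, by positivity, ?_⟩
    intro k ω
    have hx : 0 ≤ ((1 / 12 : ℝ) ^ k) ^ e := by positivity
    rw [Fin.sum_univ_two]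
    constructor
    · rcases le_total (Ln ρ 12 1 ω k) (Ln ρ 12 0 ω k) with hc | hc
      · have e1 := (h2 0 k ω hc).1
        have e2 := h0 1 k ω
        have e3 : 1 / (κ 0 + κ 1) ≤ 1 / κ 0 := one_div_le_one_div_of_le hκ0 (by linarith)
        have e4 := mul_le_mul_of_nonneg_right e3 hx
        linarith
      · have e1 := (h2 1 k ω hc).1
        have e2 := h0 0 k ω
        have e3 : 1 / (κ 0 + κ 1) ≤ 1 / κ 1 := one_div_le_one_div_of_le hκ1 (by linarith)
        have e4 := mul_le_mul_of_nonneg_right e3 hx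
        linarith
    · have e1 := h3 0 (hoth 0 e) k ω
      have e2 := h3 1 (hoth 1 e) k ω
      rw [add_mul]
      linarith
  have hst := fun (e : ℝ) (h : Fin 2) => hSTOP ι ρ τ lab 12 (potF ρ h (p h) e)
    (pot1 ρ lab h (p h) e) hA hLab (by norm_num) (fun i => (potF_pos hA h (p h) e i).le)
    (fun h' i => pot1_nonneg hA h (p h) e h' i)
    (fun h' i j hij => pot1_lab hLab h (p h) e h' i j hij)
  constructor
  · set e := p q1.1 + tt q1.1 q1.2 with he
    have he0 : 0 ≤ e := add_nonneg (hp0 _) (ht0 _ _)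
    obtain ⟨κ, hκ, hc⟩ := hcmp e
    obtain ⟨μ, C2, hμ, hsupp, hC2, hest⟩ := (tree_apply hCODE hLEN hCOUNT hTREE hA hLab hF hSep
      (fun k ω => ∑ h : Fin 2, GG ρ 12 (potF ρ h (p h) e) (pot1 ρ lab h (p h) e) k ω) κ e hκ he0
      (fun k ω ω' hb => Finset.sum_congr rfl (fun h _ => (hst e h).1 k ω ω' hb)) hc).1 (by
        intro k ω0 rep S hS1 hS2
        rw [Finset.sum_comm]
        apply Finset.sum_le_sum
        intro h _
        obtain ⟨c1, c2⟩ := pot_sup hA hLab h (p h) e (hp1 h) (by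
          intro i T hT
          apply ht2 h i T (hTS h i T hT)
          have := hq1 (h, i) (Finset.mem_univ _)
          simp only at this
          linarith)
        exact (hst e h).2.1 c1 c2 k ω0 rep S hS1 hS2)
    refine ⟨μ, hμ, hsupp, UU_of hF.1 hF.2.1 hsupp hC2 he0 hest ?_⟩
    exact hDIMA ι ρ τ F q1.1 (lab q1.1) (Finset.univ.filter (fun i => lab q1.1 i = i))
      (Finset.univ.filter (fun i => Same ρ τ q1.1 i q1.2)) q1.2 (p q1.1) (tt q1.1 q1.2) hA
      (hStr _) (hlt _) hF (hl1 _) (hl2 _)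
      (by intro i; simp) (by intro i; simp) (hp0 _) (ht0 _ _) (hp1 _ _ (by intro i; simp))
      (ht1 _ _ _ (by intro i; simp))
  · set e := p q2.1 + tt q2.1 q2.2 with he
    have he0 : 0 ≤ e := add_nonneg (hp0 _) (ht0 _ _)
    obtain ⟨κ, hκ, hc⟩ := hcmp e
    obtain ⟨μ, C2, hμ, hsupp, hC2, hest⟩ := (tree_apply hCODE hLEN hCOUNT hTREE hA hLab hF hSep
      (fun k ω => ∑ h : Fin 2, GG ρ 12 (potF ρ h (p h) e) (pot1 ρ lab h (p h) e) k ω) κ e hκ he0
      (fun k ω ω' hb => Finset.sum_congr rfl (fun h _ => (hst e h).1 k ω ω' hb)) hc).2 (by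
        intro k ω0 rep S hS1 hS2
        rw [Finset.sum_comm]
        apply Finset.sum_le_sum
        intro h _
        obtain ⟨c1, c2⟩ := pot_sub hA hLab h (p h) e (hp1 h) (by
          intro i T hT
          apply ht3 h i T (hTS h i T hT)
          have := hq2 (h, i) (Finset.mem_univ _)
          simp only at this
          linarith)
        exact (hst e h).2.2 c1 c2 k ω0 rep S hS1 hS2)
    refine ⟨μ, hμ, hsupp, LL_of hC2 he0 hest ?_⟩
    exact hDIML ι ρ τ F q2.1 (lab q2.1) (Finset.univ.filter (fun i => lab q2.1 i = i))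
      (Finset.univ.filter (fun i => Same ρ τ q2.1 i q2.2)) q2.2 (p q2.1) (tt q2.1 q2.2) hA
      (hStr _) (hlt _) hF (hl1 _) (hl2 _)
      (by intro i; simp) (by intro i; simp) (hp0 _) (ht0 _ _) (hp1 _ _ (by intro i; simp))
      (ht1 _ _ _ (by intro i; simp))

theorem fixpt {r t x : ℝ} (hr : 0 < r) (hr1 : r < 1) (ht : 0 ≤ t) (htr : t + r ≤ 1)
    (hx : x = r * x + t) : 0 ≤ x ∧ x ≤ 1 := by
  have h1 : (1 - r) * x = t := by linarith
  constructor
  · by_contra hneg
    push Not at hneg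
    nlinarith
  · by_contra hgt
    push Not at hgt
    nlinarith

theorem nontriv (hA : Adm ρ τ) (hF : Attr ρ τ F) (i j : ι)
    (hij : ∃ h, Disj ρ τ h i j) : F.Nontrivial := by
  by_contra hcon
  rw [Set.not_nontrivial_iff] at hcon
  obtain ⟨x, hx⟩ := hF.2.1
  have hfix : ∀ i, Smap ρ τ i x = x := by
    intro i
    apply hcon _ hx
    rw [hF.2.2]
    exact mem_iUnion.2 ⟨i, x, hx, rfl⟩
  have hc : ∀ i h, x h = ρ h i * x h + τ h i := by
    intro i h
    have := congrArg (fun y : E2 => y h) (hfix i)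
    exact this.symm
  have key : ∀ i j h, ¬ (τ h i + ρ h i ≤ τ h j) := by
    intro i j h hle
    obtain ⟨h1, h2, h3, h4⟩ := hA h i
    obtain ⟨h5, h6, h7, h8⟩ := hA h j
    have e1 := hc i h
    have e2 := hc j h
    obtain ⟨h9, h10⟩ := fixpt h1 h2 h3 h4 e1
    have e3 : x h ≤ τ h i + ρ h i := by nlinarith
    have e4 : τ h j ≤ x h := by nlinarith
    have e5 : x h = τ h i + ρ h i := by linarith
    have e6 : x h = 1 := by
      have : ρ h i * (x h - 1) = 0 := by linarith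
      rcases mul_eq_zero.1 this with h | h
      · linarith
      · linarith
    have e7 : τ h j = 1 := by linarith
    linarith
  obtain ⟨h, hd⟩ := hij
  rcases hd with hd | hd
  · exact key i j h hd
  · exact key j i h hd

theorem caseA [Nonempty ι] (hCODE : S_CODE) (hLEN : S_LEN) (hCOUNT : S_COUNT) (hTREE : S_TREE)
    (hSEPLG : S_SEPLG) (hSTOP : S_STOP) (hNUMB : S_NUMB) (hGENU : S_GENU)
    (hGENL : S_GENL) (hA : Adm ρ τ) (hF : Attr ρ τ F) (h : Fin 2) (hStr : Str ρ τ h)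
    (heq : ∀ i, ρ (1 - h) i = ρ h i) (hnt : F.Nontrivial) : Goal F := by
  classical
  obtain ⟨lab0, hl1, hl2⟩ := exists_lab ρ τ h
  let lab : Fin 2 → ι → ι := fun h' => if h' = h then lab0 else id
  have hlabh : lab h = lab0 := by simp [lab]
  have hlabo : lab (1 - h) = id := by simp [lab, ne_other]
  have hLab : Lab ρ τ lab := by
    refine ⟨?_, ?_, ?_⟩
    · intro h' i j hij
      rcases other h h' with rfl | rfl
      · rw [hlabh] at hij; exact (hl1 i j).1 hij
      · rw [hlabo] at hij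
        simp only [id] at hij
        rw [hij]; exact ⟨rfl, rfl⟩
    · intro i j hij
      have := hij (1 - h)
      rw [hlabo] at this
      exact this
    · intro h' i
      rcases other h h' with rfl | rfl
      · rw [hlabh]; exact hl2 i
      · rw [hlabo]; rfl
  have hSep : Sep ρ τ lab 12 := hSEPLG ι ρ τ lab 12 h hA hStr (fun i => (heq i).le) (by norm_num)
    (by rw [hlabh]; exact hl1) (by intro i; rw [hlabo]; rfl)
  obtain ⟨s, hs0, hs1, _, _⟩ := hNUMB ι Finset.univ (ρ h) Finset.univ_nonempty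
    (fun i => ⟨(hA h i).1, (hA h i).2.1⟩)
  let φF : ι → ℝ := fun i => ρ h i ^ s
  have hφ0 : ∀ i, 0 ≤ φF i := fun i => by
    have := (hA h i).1
    show 0 ≤ ρ h i ^ s
    positivity
  let φ1 : Fin 2 → ι → ℝ := fun h' i => ∑ j with lab h' j = lab h' i, φF j
  obtain ⟨hGb, hsup, hsub⟩ := hSTOP ι ρ τ lab 12 φF φ1 hA hLab (by norm_num) hφ0
    (fun h' i => Finset.sum_nonneg (fun j _ => hφ0 j))
    (fun h' i j hij => by simp only [φ1]; rw [hij])
  have hc1 : ∀ h' (S : Finset ι), (∀ j, j ∈ S ↔ lab h' j = j) → ∑ j ∈ S, φ1 h' j = 1 := by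
    intro h' S hS
    simp only [φ1]
    rw [fib (lab h') (hLab.2.2 h') S hS φF]
    exact hs1
  have hc2 : ∀ h' i (S : Finset ι), (∀ j, j ∈ S ↔ lab h' j = lab h' i) →
      ∑ j ∈ S, φF j = φ1 h' i := by
    intro h' i S hS
    simp only [φ1]
    apply Finset.sum_congr _ (fun _ _ => rfl)
    ext j
    simp [hS]
  obtain ⟨_, _, hL3, _, ⟨δ, hδ, hL5⟩, _⟩ := hLEN ι ρ τ lab 12 hA hLab (by norm_num)
  have hLn : ∀ k ω h', Ln ρ 12 h' ω k = Ln ρ 12 h ω k := by
    intro k ω h'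
    rcases other h h' with rfl | rfl
    · rfl
    · unfold Ln PP
      simp only [heq]
  have hGG : ∀ k ω, GG ρ 12 φF φ1 k ω = (PP ρ h ω (Ln ρ 12 h ω k)) ^ s := by
    intro k ω
    unfold GG Tn
    simp only [hLn k ω]
    rw [max_self]
    unfold PP
    rw [← Real.finsetProd_rpow _ _ (fun i _ => (hA h (ω i)).1.le)]
    apply Finset.prod_congr rfl
    intro q hq
    rw [Finset.mem_range] at hq
    rw [if_pos ⟨hq, hq⟩]
  have hcmp : ∀ k ω, 1 / (max 1 (δ ^ (-s))) * ((1 / 12 : ℝ) ^ k) ^ s ≤ GG ρ 12 φF φ1 k ω ∧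
      GG ρ 12 φF φ1 k ω ≤ max 1 (δ ^ (-s)) * ((1 / 12 : ℝ) ^ k) ^ s := by
    intro k ω
    rw [hGG k ω]
    have h1 := hL3 h ω k
    have h2 := hL5 h ω k
    have h3 : 0 < (1 / 12 : ℝ) ^ k := by positivity
    constructor
    · have h4 : (δ * (1 / 12 : ℝ) ^ k) ^ s ≤ (PP ρ h ω (Ln ρ 12 h ω k)) ^ s :=
        Real.rpow_le_rpow (by positivity) h2 hs0
      refine le_trans ?_ h4
      rw [Real.mul_rpow hδ.le h3.le]
      apply mul_le_mul_of_nonneg_right _ (by positivity)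
      rw [one_div, inv_le_comm₀ (by positivity) (by positivity), ← Real.rpow_neg hδ.le]
      exact le_max_right _ _
    · have h5 : 0 ≤ PP ρ h ω (Ln ρ 12 h ω k) := le_trans (by positivity) h2
      have h4 : (PP ρ h ω (Ln ρ 12 h ω k)) ^ s ≤ ((1 / 12 : ℝ) ^ k) ^ s :=
        Real.rpow_le_rpow h5 h1 hs0
      refine h4.trans ?_
      exact le_mul_of_one_le_left (by positivity) (le_max_left _ _)
  have htree := tree_apply hCODE hLEN hCOUNT hTREE hA hLab hF hSep (GG ρ 12 φF φ1) _ s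
    (by positivity) hs0 hGb hcmp
  obtain ⟨μ, C2, hμ, hsupp, hC2, hest⟩ := htree.1 (hsup (fun h' S hS => (hc1 h' S hS).le)
    (fun h' i S hS => (hc2 h' i S hS).le))
  obtain ⟨μ', C2', hμ', hsupp', hC2', hest'⟩ := htree.2 (hsub (fun h' S hS => (hc1 h' S hS).ge)
    (fun h' i S hS => (hc2 h' i S hS).ge))
  have hdL : dimL F ≤ s := hGENU F μ C2 s hF.1 hnt hμ hsupp.1 hC2 hs0 (real_pos_of_supp hsupp) hest
  have hdA : s ≤ dimA F := hGENL F μ' C2' s hF.1 hF.2.1 hμ' hsupp'.1 hC2' hs0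
    (real_pos_of_supp hsupp') hest'
  exact ⟨⟨μ, hμ, hsupp, UU_of hF.1 hF.2.1 hsupp hC2 hs0 hest hdA⟩,
    ⟨μ', hμ', hsupp', LL_of hC2' hs0 hest' hdL⟩⟩

theorem main (hCODE : S_CODE) (hLEN : S_LEN) (hCOUNT : S_COUNT) (hTREE : S_TREE)
    (hSEPLG : S_SEPLG) (hSEPBAR : S_SEPBAR) (hSTOP : S_STOP) (hCOMP : S_COMP) (hNUMB : S_NUMB)
    (hDIMA : S_DIMA) (hDIML : S_DIML) (hGENU : S_GENU) (hGENL : S_GENL)
    (hcard : 2 ≤ Fintype.card ι) (hT : IsLG ρ τ ∨ IsBar ρ τ) (hF : Attr ρ τ F) : Goal F := by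
  classical
  haveI : Nonempty ι := Fintype.card_pos_iff.1 (by omega)
  obtain ⟨i0, j0, hij0⟩ := Fintype.one_lt_card_iff.1 (by omega : 1 < Fintype.card ι)
  have hDS : ∀ (hA : Adm ρ τ) (h : Fin 2) i j, Same ρ τ h i j → ¬ Disj ρ τ h i j := by
    intro hA h i j hs hd
    have h1 := (hA h i).1
    have h2 := (hA h j).1
    rcases hd with hd | hd
    · rw [hs.2] at hd; linarith
    · rw [hs.2] at hd; linarith
  have hLGcase : ∀ (hA : Adm ρ τ) (h : Fin 2), Str ρ τ h → (∀ i, ρ (1 - h) i ≤ ρ h i) →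
      F.Nontrivial → Goal F := by
    intro hA h hStr hle hnt
    by_cases hlt : ∃ i, ρ (1 - h) i < ρ h i
    · exact caseB hCODE hLEN hCOUNT hTREE hSEPLG hSTOP hCOMP hNUMB hDIMA hDIML hA hF h hStr hle hlt
    · push Not at hlt
      exact caseA hCODE hLEN hCOUNT hTREE hSEPLG hSTOP hNUMB hGENU hGENL hA hF h hStr
        (fun i => le_antisymm (hle i) (hlt i)) hnt
  rcases hT with ⟨hA, h, hle, hd, hsd⟩ | ⟨hA, hne, hsd⟩
  · have hStr : Str ρ τ h := by
      refine ⟨hsd, ?_⟩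
      intro i j hij hs
      have hnd := hDS hA h i j hs
      rcases other h 0 with h0 | h0 <;> rcases other h 1 with h1 | h1
      · exact absurd (h0.trans h1.symm) (by decide)
      · rcases hd i j hij with h2 | h2
        · rw [h0] at h2; exact absurd h2 hnd
        · rw [h1] at h2; exact h2
      · rcases hd i j hij with h2 | h2
        · rw [h0] at h2; exact h2
        · rw [h1] at h2; exact absurd h2 hnd
      · exact absurd (h0.trans h1.symm) (by decide)
    have hnt : F.Nontrivial := by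
      apply nontriv hA hF i0 j0
      rcases hd i0 j0 hij0 with h2 | h2
      · exact ⟨0, h2⟩
      · exact ⟨1, h2⟩
    exact hLGcase hA h hStr hle hnt
  · have hStr : ∀ h, Str ρ τ h := by
      intro h
      refine ⟨hsd h, ?_⟩
      intro i j hij hs
      obtain ⟨h', hh'⟩ := hne i j hij
      rcases other h h' with rfl | rfl
      · exact absurd hs hh'
      · rcases hsd (1 - h) i j with h2 | h2
        · exact absurd h2 hh'
        · exact h2
    have hnt : F.Nontrivial := by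
      apply nontriv hA hF i0 j0
      obtain ⟨h', hh'⟩ := hne i0 j0 hij0
      rcases hsd h' i0 j0 with h2 | h2
      · exact absurd h2 hh'
      · exact ⟨h', h2⟩
    by_cases hall : ∀ h, ∃ i, ρ (1 - h) i < ρ h i
    · exact caseC hCODE hLEN hCOUNT hTREE hSEPBAR hSTOP hCOMP hNUMB hDIMA hDIML hA hF hStr hall
    · push Not at hall
      obtain ⟨h, hh⟩ := hall
      apply hLGcase hA (1 - h) (hStr _) _ hnt
      intro i
      rw [other_other]
      exact hh i

end cases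

end Pool.Agent.R660.SC.Fin
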