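import Pool.Agent.R660.SC.Defs

/-!
# SC-GENL: a measure with lower exponent `s` bounds the Assouad dimension from below
-/

open Set Filter Topology MeasureTheory Metric

namespace Pool.Agent.R660.SC.GENL

lemma coverN_le {ι : Type} [Fintype ι] {r : ℝ} {E : Set E2}
    (U : ι → Set E2) (hU : ∀ i, Metric.ediam (U i) ≤ ENNReal.ofReal r)
    (hE : E ⊆ ⋃ i, U i) : coverN r E ≤ Fintype.card ι := by
  unfold coverN
  apply Nat.sInf_le
  refine ⟨fun i => U ((Fintype.equivFin ι).symm i), fun i => hU _, ?_⟩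
  intro x hx
  obtain ⟨i, hi⟩ := mem_iUnion.1 (hE hx)
  refine mem_iUnion.2 ⟨Fintype.equivFin ι i, ?_⟩
  simpa using hi

lemma coverN_spec {K E : Set E2} (hK : IsCompact K) (hE : E ⊆ K) {r : ℝ}
    (hr : 0 < r) : ∃ U : Fin (coverN r E) → Set E2,
      (∀ i, Metric.ediam (U i) ≤ ENNReal.ofReal r) ∧ E ⊆ ⋃ i, U i := by
  have hne : {m : ℕ | ∃ U : Fin m → Set E2,
      (∀ i, Metric.ediam (U i) ≤ ENNReal.ofReal r) ∧ E ⊆ ⋃ i, U i}.Nonempty := by
    obtain ⟨t, htK, htf, ht⟩ := finite_cover_balls_of_compact hK (show 0 < r / 2 by positivity)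
    have := htf.fintype
    refine ⟨Fintype.card t, fun i => ball ((Fintype.equivFin t).symm i : E2)
      (r / 2), ?_, ?_⟩
    · intro i
      apply Metric.ediam_le
      intro y hy z hz
      rw [edist_dist]
      apply ENNReal.ofReal_le_ofReal
      have h1 := dist_triangle_right y z ((Fintype.equivFin t).symm i : E2)
      rw [mem_ball] at hy hz
      linarith
    · intro x hx
      obtain ⟨y, hy, hxy⟩ := mem_iUnion₂.1 (ht (hE hx))
      refine mem_iUnion.2 ⟨Fintype.equivFin t ⟨y, hy⟩, ?_⟩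
      simpa using hxy
  exact Nat.sInf_mem hne

lemma dist_le_sum (x y : E2) : dist x y ≤ ∑ l, |x l - y l| := by
  rw [EuclideanSpace.dist_eq]
  apply Real.sqrt_le_iff.2
  refine ⟨Finset.sum_nonneg (fun _ _ => abs_nonneg _), ?_⟩
  simp_rw [Real.dist_eq]
  exact Finset.sum_sq_le_sq_sum_of_nonneg (fun i _ => abs_nonneg _)

lemma abs_sub_le_dist (x y : E2) (l : Fin 2) : |x l - y l| ≤ dist x y := by
  rw [dist_eq_norm]
  have h := PiLp.norm_apply_le (x - y) l
  simpa using h

lemma grid_nonempty (K : Set E2) :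
    {s : ℝ | 0 ≤ s ∧ ∃ C : ℝ, 0 < C ∧ ∀ x ∈ K, ∀ r R : ℝ, 0 < r → r < R →
      (coverN r (closedBall x R ∩ K) : ℝ) ≤ C * (R / r) ^ s}.Nonempty := by
  refine ⟨((2 : ℕ) : ℝ), by positivity, 7 ^ 2, by positivity, ?_⟩
  intro x _ r R hr hrR
  have hR : 0 < R := hr.trans hrR
  set q : ℕ := ⌊2 * R * (2 + 1) / r⌋₊ with hq
  -- the cover
  let U : (Fin 2 → Fin (q + 1)) → Set E2 := fun c =>
    {y | y ∈ closedBall x R ∧ ∀ l, ⌊(y l - (x l - R)) * (2 + 1) / r⌋₊ = (c l).val}
  have hcov : closedBall x R ∩ K ⊆ ⋃ c, U c := by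
    intro y hy
    have hyl : ∀ l, |y l - x l| ≤ R := fun l => (abs_sub_le_dist y x l).trans hy.1
    refine mem_iUnion.2 ⟨fun l => ⟨⌊(y l - (x l - R)) * (2 + 1) / r⌋₊, ?_⟩, hy.1, fun l => rfl⟩
    rw [Nat.lt_succ_iff]
    apply Nat.floor_le_floor
    apply div_le_div_of_nonneg_right _ hr.le
    apply mul_le_mul_of_nonneg_right _ (by positivity)
    have := (abs_le.1 (hyl l)).2
    linarith
  have hdiam : ∀ c, Metric.ediam (U c) ≤ ENNReal.ofReal r := by
    intro c
    apply Metric.ediam_le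
    rintro y ⟨hy, hyc⟩ z ⟨hz, hzc⟩
    rw [edist_dist]
    apply ENNReal.ofReal_le_ofReal
    refine (dist_le_sum y z).trans ?_
    have hl : ∀ l ∈ (Finset.univ : Finset (Fin 2)), |y l - z l| ≤ r / (2 + 1) := by
      intro l _
      have e1 := hyc l
      have e2 := hzc l
      have a1 : 0 ≤ (y l - (x l - R)) * (2 + 1) / r := by
        have := (abs_le.1 ((abs_sub_le_dist y x l).trans hy)).1
        have : 0 ≤ y l - (x l - R) := by linarith
        positivity
      have a2 : 0 ≤ (z l - (x l - R)) * (2 + 1) / r := by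
        have := (abs_le.1 ((abs_sub_le_dist z x l).trans hz)).1
        have : 0 ≤ z l - (x l - R) := by linarith
        positivity
      have b1 := Nat.floor_le a1
      have b2 := Nat.floor_le a2
      have b3 := Nat.lt_floor_add_one ((y l - (x l - R)) * (2 + 1) / r)
      have b4 := Nat.lt_floor_add_one ((z l - (x l - R)) * (2 + 1) / r)
      rw [e1] at b1 b3
      rw [e2] at b2 b4
      have hd1 : (0:ℝ) < 2 + 1 := by positivity
      have key : |(y l - z l) * (2 + 1) / r| ≤ 1 := by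
        have e : (y l - z l) * (2 + 1) / r
            = (y l - (x l - R)) * (2 + 1) / r - (z l - (x l - R)) * (2 + 1) / r := by ring
        rw [e, abs_le]
        constructor <;> linarith
      rw [abs_div, abs_mul, abs_of_pos hd1, abs_of_pos hr, div_le_one hr] at key
      rw [le_div_iff₀ hd1]
      exact key
    refine (Finset.sum_le_sum hl).trans ?_
    rw [Finset.sum_const, Finset.card_univ, Fintype.card_fin, nsmul_eq_mul]
    rw [← mul_div_assoc, div_le_iff₀ (by positivity)]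
    push_cast
    nlinarith
  have h1 := coverN_le (E := closedBall x R ∩ K) U hdiam hcov
  rw [Fintype.card_fun, Fintype.card_fin, Fintype.card_fin] at h1
  have h2 : (coverN r (closedBall x R ∩ K) : ℝ) ≤ ((q:ℝ) + 1) ^ 2 := by exact_mod_cast h1
  refine h2.trans ?_
  have h3 : (q:ℝ) + 1 ≤ 7 * (R / r) := by
    have h4 : (q:ℝ) ≤ 2 * R * (2 + 1) / r := Nat.floor_le (by positivity)
    have h5 : 1 ≤ R / r := by rw [le_div_iff₀ hr]; linarith
    have h6 : 2 * R * (2 + 1) / r = 6 * (R / r) := by ring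
    nlinarith
  rw [Real.rpow_natCast, ← mul_pow]
  exact pow_le_pow_left₀ (by positivity) h3 2

theorem main : S_GENL := by
  intro F μ C s hF hFn hμ hμF hC hs hpos hdim
  unfold dimA
  apply le_csInf (grid_nonempty F)
  rintro s' ⟨hs', C', hC', hcov⟩
  by_contra hlt
  push Not at hlt
  obtain ⟨x0, hx0⟩ := hFn
  obtain ⟨R0, hR01, hR0⟩ : ∃ R0, 1 ≤ R0 ∧ F ⊆ closedBall x0 R0 := by
    obtain ⟨R, hR⟩ := hF.isBounded.subset_closedBall x0
    exact ⟨max R 1, le_max_right _ _, hR.trans (closedBall_subset_closedBall (le_max_left _ _))⟩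
  have hR00 : 0 < R0 := by linarith
  have hF1 : μ.real F = 1 := by
    have h := prob_compl_eq_zero_iff (μ := μ) hF.measurableSet
    rw [measureReal_def, h.1 hμF, ENNReal.toReal_one]
  have key : ∀ r, 0 < r → r < 1 / 2 → 1 ≤ C' * (R0 / r) ^ s' * (C * (2 * r) ^ s) := by
    intro r hr hr2
    have h1 := hcov x0 hx0 r R0 hr (by linarith)
    rw [inter_eq_right.2 hR0] at h1
    obtain ⟨U, hU, hFU⟩ := coverN_spec hF subset_rfl hr
    have h2r : 0 < 2 * r := by linarith
    have hCr : 0 ≤ C * (2 * r) ^ s := mul_nonneg hC.le (Real.rpow_nonneg h2r.le s)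
    have h4 : ∀ i, μ.real (U i ∩ F) ≤ C * (2 * r) ^ s := by
      intro i
      rcases (U i ∩ F).eq_empty_or_nonempty with h | ⟨y, hyU, hyF⟩
      · rw [h, measureReal_empty]
        exact hCr
      · have h5 : U i ∩ F ⊆ ball y (2 * r) := by
          rintro z ⟨hz, _⟩
          have h6 : edist z y ≤ ENNReal.ofReal r := (Metric.edist_le_ediam_of_mem hz hyU).trans (hU i)
          rw [edist_dist, ENNReal.ofReal_le_ofReal_iff hr.le] at h6
          rw [mem_ball]
          linarith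
        have h6 := hdim y hyF (2 * r) 1 (by linarith) (by linarith) le_rfl
        have h7 : μ.real (ball y 1) ≤ 1 := measureReal_le_one
        have h8 : μ.real (U i ∩ F) ≤ μ.real (ball y (2 * r)) := measureReal_mono h5
        have h9 : (1 / (2 * r)) ^ s = ((2 * r) ^ s)⁻¹ := by
          rw [one_div, Real.inv_rpow h2r.le]
        have h10 : 0 < (2 * r) ^ s := Real.rpow_pos_of_pos h2r s
        rw [h9, inv_mul_le_iff₀ h10] at h6
        have h11 : (2 * r) ^ s * (C * μ.real (ball y 1)) ≤ (2 * r) ^ s * (C * 1) :=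
          mul_le_mul_of_nonneg_left (mul_le_mul_of_nonneg_left h7 hC.le) h10.le
        linarith
    have h12 : μ.real F ≤ ∑ i, μ.real (U i ∩ F) := by
      refine le_trans (measureReal_mono (?_ : F ⊆ ⋃ i, (U i ∩ F))) (measureReal_iUnion_fintype_le _)
      intro z hz
      obtain ⟨i, hi⟩ := mem_iUnion.1 (hFU hz)
      exact mem_iUnion.2 ⟨i, hi, hz⟩
    have h13 : ∑ i, μ.real (U i ∩ F) ≤ (coverN r F : ℝ) * (C * (2 * r) ^ s) := by
      refine (Finset.sum_le_sum fun i _ => h4 i).trans ?_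
      rw [Finset.sum_const, Finset.card_univ, Fintype.card_fin, nsmul_eq_mul]
    have h14 : (coverN r F : ℝ) * (C * (2 * r) ^ s) ≤ C' * (R0 / r) ^ s' * (C * (2 * r) ^ s) :=
      mul_le_mul_of_nonneg_right h1 hCr
    linarith
  -- let `r` tend to zero
  have hlim : Tendsto (fun r : ℝ => C' * R0 ^ s' * C * 2 ^ s * r ^ (s - s')) (𝓝 0) (𝓝 0) := by
    have h1 : ContinuousAt (fun r : ℝ => C' * R0 ^ s' * C * 2 ^ s * r ^ (s - s')) 0 :=
      continuousAt_const.mul (Real.continuousAt_rpow_const 0 (s - s') (Or.inr (by linarith)))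
    have h2 := h1.tendsto
    rwa [Real.zero_rpow (by linarith), mul_zero] at h2
  have hev : ∀ᶠ r in 𝓝[>] (0 : ℝ), C' * R0 ^ s' * C * 2 ^ s * r ^ (s - s') < 1 :=
    (hlim.mono_left nhdsWithin_le_nhds).eventually (gt_mem_nhds one_pos)
  have hev2 : ∀ᶠ r in 𝓝[>] (0 : ℝ), r < 1 / 2 :=
    mem_nhdsWithin_of_mem_nhds (Iio_mem_nhds (by norm_num))
  obtain ⟨r, ⟨h1, h2⟩, h3⟩ := ((hev.and hev2).and self_mem_nhdsWithin).exists
  have hr : 0 < r := h3
  have h4 := key r hr h2
  have h5 : C' * (R0 / r) ^ s' * (C * (2 * r) ^ s) = C' * R0 ^ s' * C * 2 ^ s * r ^ (s - s') := by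
    rw [Real.div_rpow hR00.le hr.le, Real.mul_rpow (by norm_num) hr.le, Real.rpow_sub hr]
    ring
  linarith

end Pool.Agent.R660.SC.GENL
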