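import Pool.Agent.R660.SC.Defs

/-!
# SC-GENU: a measure with upper exponent `s` bounds the lower dimension from above
-/

open Set Filter Topology MeasureTheory Metric

namespace Pool.Agent.R660.SC.GENU

lemma coverN_le {ι : Type} [Fintype ι] {r : ℝ} {E : Set E2}
    (U : ι → Set E2) (hU : ∀ i, Metric.ediam (U i) ≤ ENNReal.ofReal r)
    (hE : E ⊆ ⋃ i, U i) : coverN r E ≤ Fintype.card ι := by
  unfold coverN
  apply Nat.sInf_le
  refine ⟨fun i => U ((Fintype.equivFin ι).symm i), fun i => hU _, ?_⟩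
  intro x hx
  obtain ⟨i, hi⟩ := mem_iUnion.1 (hE hx)
  refine mem_iUnion.2 ⟨Fintype.equivFin ι i, ?_⟩
  simpa using hi

/-- `T` is an `r / 2`-separated subset of `F`. -/
def SepIn (F : Set E2) (r : ℝ) (T : Finset E2) : Prop :=
  (∀ y ∈ T, y ∈ F) ∧ ∀ y ∈ T, ∀ z ∈ T, y ≠ z → r / 2 < dist y z

lemma exists_max {F : Set E2} {r : ℝ} (hr : 0 < r) {M : ℝ}
    (hM : ∀ T, SepIn F r T → (T.card : ℝ) ≤ M) :
    ∃ T, SepIn F r T ∧ F ⊆ ⋃ y : T, closedBall (y : E2) (r / 2) := by
  classical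
  let A : Set ℕ := {n | ∃ T, SepIn F r T ∧ T.card = n}
  have hA : A.Nonempty := ⟨0, ∅, ⟨by simp, by simp⟩, by simp⟩
  have hB : BddAbove A := by
    refine ⟨⌊M⌋₊, ?_⟩
    rintro n ⟨T, hT, rfl⟩
    exact Nat.le_floor (hM T hT)
  obtain ⟨T, hT, hc⟩ := Nat.sSup_mem hA hB
  refine ⟨T, hT, ?_⟩
  intro x hx
  by_contra hcon
  have h1 : ∀ y ∈ T, r / 2 < dist x y := by
    intro y hy
    by_contra h2
    exact hcon (mem_iUnion.2 ⟨⟨y, hy⟩, mem_closedBall.2 (not_lt.1 h2)⟩)
  have h2 : x ∉ T := by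
    intro hxT
    have := h1 x hxT
    rw [dist_self] at this
    linarith
  have h3 : SepIn F r (insert x T) := by
    constructor
    · intro y hy
      rcases Finset.mem_insert.1 hy with rfl | hy
      · exact hx
      · exact hT.1 y hy
    · intro y hy z hz hyz
      rcases Finset.mem_insert.1 hy with hy1 | hy1
      · rcases Finset.mem_insert.1 hz with hz1 | hz1
        · exact absurd (hy1.trans hz1.symm) hyz
        · rw [hy1]
          exact h1 z hz1
      · rcases Finset.mem_insert.1 hz with hz1 | hz1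
        · rw [dist_comm, hz1]
          exact h1 y hy1
        · exact hT.2 y hy1 z hz1 hyz
  have h4 : T.card + 1 ≤ sSup A := by
    apply le_csSup hB
    exact ⟨insert x T, h3, Finset.card_insert_of_notMem h2⟩
  omega

theorem main : S_GENU := by
  intro F μ C s hF hFn hμ hμF hC hs hpos hdim
  unfold dimL
  refine Real.sSup_le ?_ hs
  rintro s' ⟨hs', C', hC', hcov⟩
  by_contra hlt
  push Not at hlt
  obtain ⟨x0, hx0, x1, hx1, hne⟩ := hFn
  -- the uniform lower bound
  obtain ⟨c0, hc0, hc1⟩ : ∃ c0 : ℝ, 0 < c0 ∧ ∀ y ∈ F, c0 ≤ μ.real (ball y 1) := by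
    obtain ⟨t, htF, htf, ht⟩ := finite_cover_balls_of_compact hF (show (0 : ℝ) < 1 / 2 by norm_num)
    have htn : htf.toFinset.Nonempty := by
      obtain ⟨z, hz, _⟩ := mem_iUnion₂.1 (ht hx0)
      exact ⟨z, htf.mem_toFinset.2 hz⟩
    obtain ⟨z0, hz0, hmin⟩ :=
      Finset.exists_min_image htf.toFinset (fun z => μ.real (ball z (1 / 2))) htn
    refine ⟨μ.real (ball z0 (1 / 2)), hpos z0 (htF (htf.mem_toFinset.1 hz0)) _ (by norm_num), ?_⟩
    intro y hy
    obtain ⟨z, hz, hyz⟩ := mem_iUnion₂.1 (ht hy)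
    refine (hmin z (htf.mem_toFinset.2 hz)).trans (measureReal_mono ?_)
    intro w hw
    rw [mem_ball] at hw hyz ⊢
    have := dist_triangle_right w y z
    linarith
  -- separated sets
  have hsep : ∀ r, 0 < r → r < 1 → ∀ T, SepIn F r T → (T.card : ℝ) ≤ C * (4 / r) ^ s / c0 := by
    intro r hr hr1 T hT
    have hCr : 0 ≤ C * (4 / r) ^ s := mul_nonneg hC.le (Real.rpow_nonneg (by positivity) s)
    rw [le_div_iff₀ hc0]
    have h1 : ∀ y ∈ T, c0 ≤ C * (4 / r) ^ s * μ.real (ball y (r / 4)) := by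
      intro y hy
      have h2 := hdim y (hT.1 y hy) (r / 4) 1 (by linarith) (by linarith) le_rfl
      have h3 : 1 / (r / 4) = 4 / r := by
        field_simp
      rw [h3] at h2
      exact (hc1 y (hT.1 y hy)).trans h2
    have h4 : ∑ y ∈ T, μ.real (ball y (r / 4)) ≤ 1 := by
      have h5 : (T : Set E2).PairwiseDisjoint (fun y => ball y (r / 4)) := by
        intro y hy z hz hyz
        apply ball_disjoint_ball
        have := hT.2 y hy z hz hyz
        linarith
      rw [← measureReal_biUnion_finset h5 (fun y _ => measurableSet_ball)]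
      exact measureReal_le_one
    calc (T.card : ℝ) * c0 = ∑ y ∈ T, c0 := by rw [Finset.sum_const, nsmul_eq_mul]
      _ ≤ ∑ y ∈ T, C * (4 / r) ^ s * μ.real (ball y (r / 4)) := Finset.sum_le_sum h1
      _ = C * (4 / r) ^ s * ∑ y ∈ T, μ.real (ball y (r / 4)) := by rw [Finset.mul_sum]
      _ ≤ C * (4 / r) ^ s * 1 := mul_le_mul_of_nonneg_left h4 hCr
      _ = C * (4 / r) ^ s := mul_one _
  set R := Metric.diam F with hRdef
  have hR : 0 < R := lt_of_lt_of_le (dist_pos.2 hne) (dist_le_diam_of_mem hF.isBounded hx0 hx1)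
  have key : ∀ r, 0 < r → r < 1 → r < R → C' * (R / r) ^ s' ≤ C * (4 / r) ^ s / c0 := by
    intro r hr hr1 hrR
    obtain ⟨T, hT, hFT⟩ := exists_max hr (hsep r hr hr1)
    have h1 : coverN r (closedBall x0 R ∩ F) ≤ Fintype.card T := by
      refine coverN_le (fun y : T => closedBall (y : E2) (r / 2)) ?_ (inter_subset_right.trans hFT)
      intro y
      apply Metric.ediam_le
      intro z hz w hw
      rw [edist_dist]
      apply ENNReal.ofReal_le_ofReal
      rw [mem_closedBall] at hz hw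
      have := dist_triangle_right z w (y : E2)
      linarith
    have h2 := hcov x0 hx0 r R hr hrR le_rfl
    have h3 : (coverN r (closedBall x0 R ∩ F) : ℝ) ≤ (T.card : ℝ) := by
      rw [Fintype.card_coe] at h1
      exact_mod_cast h1
    exact h2.trans (h3.trans (hsep r hr hr1 T hT))
  -- let `r` tend to zero
  have hlim : Tendsto (fun r : ℝ => C * 4 ^ s / c0 * r ^ (s' - s)) (𝓝 0) (𝓝 0) := by
    have h1 : ContinuousAt (fun r : ℝ => C * 4 ^ s / c0 * r ^ (s' - s)) 0 :=
      continuousAt_const.mul (Real.continuousAt_rpow_const 0 (s' - s) (Or.inr (by linarith)))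
    have h2 := h1.tendsto
    rwa [Real.zero_rpow (by linarith), mul_zero] at h2
  have hpos' : 0 < C' * R ^ s' := mul_pos hC' (Real.rpow_pos_of_pos hR s')
  have hev : ∀ᶠ r in 𝓝[>] (0 : ℝ), C * 4 ^ s / c0 * r ^ (s' - s) < C' * R ^ s' :=
    (hlim.mono_left nhdsWithin_le_nhds).eventually (gt_mem_nhds hpos')
  have hev2 : ∀ᶠ r in 𝓝[>] (0 : ℝ), r < min 1 R :=
    mem_nhdsWithin_of_mem_nhds (Iio_mem_nhds (lt_min one_pos hR))
  obtain ⟨r, ⟨h1, h2⟩, h3⟩ := ((hev.and hev2).and self_mem_nhdsWithin).exists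
  have hr : 0 < r := h3
  have h4 := key r hr (h2.trans_le (min_le_left _ _)) (h2.trans_le (min_le_right _ _))
  rw [Real.div_rpow hR.le hr.le, Real.div_rpow (by norm_num) hr.le] at h4
  have h5 : 0 < r ^ s' := Real.rpow_pos_of_pos hr s'
  have h6 := mul_le_mul_of_nonneg_right h4 h5.le
  have h7 : C' * (R ^ s' / r ^ s') * r ^ s' = C' * R ^ s' := by
    field_simp
  have h8 : C * (4 ^ s / r ^ s) / c0 * r ^ s' = C * 4 ^ s / c0 * r ^ (s' - s) := by
    rw [Real.rpow_sub hr]
    ring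
  rw [h7, h8] at h6
  linarith

end Pool.Agent.R660.SC.GENU
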