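import Pool.Agent.R660.SC.Defs

/-!
# Project SC, piece LEN: elementary facts on levels, boxes and distances
-/

open Set Filter Topology MeasureTheory Metric

namespace Pool.Agent.R660.SC.LEN

variable {ι : Type} {ρ τ : Fin 2 → ι → ℝ} {lab : Fin 2 → ι → ι} {β : ℝ}

theorem PP_zero (ρ : Fin 2 → ι → ℝ) (h : Fin 2) (ω : ℕ → ι) : PP ρ h ω 0 = 1 := by simp [PP]

theorem PP_succ (ρ : Fin 2 → ι → ℝ) (h : Fin 2) (ω : ℕ → ι) (n : ℕ) :
    PP ρ h ω (n + 1) = PP ρ h ω n * ρ h (ω n) := by simp [PP, Finset.prod_range_succ]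

theorem PP_pos (hA : Adm ρ τ) (h : Fin 2) (ω : ℕ → ι) (n : ℕ) : 0 < PP ρ h ω n :=
  Finset.prod_pos fun m _ => (hA h (ω m)).1

theorem lft_zero (ρ τ : Fin 2 → ι → ℝ) (h : Fin 2) (ω : ℕ → ι) : lft ρ τ h ω 0 = 0 := by
  simp [lft]

theorem lft_succ (ρ τ : Fin 2 → ι → ℝ) (h : Fin 2) (ω : ℕ → ι) (n : ℕ) :
    lft ρ τ h ω (n + 1) = lft ρ τ h ω n + PP ρ h ω n * τ h (ω n) := by
  simp [lft, Finset.sum_range_succ]

theorem lft_mono (hA : Adm ρ τ) (h : Fin 2) (ω : ℕ → ι) : Monotone (lft ρ τ h ω) := by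
  refine monotone_nat_of_le_succ fun n => ?_
  rw [lft_succ]
  have := mul_nonneg (PP_pos hA h ω n).le (hA h (ω n)).2.2.1
  linarith

theorem rgt_anti (hA : Adm ρ τ) (h : Fin 2) (ω : ℕ → ι) :
    Antitone (fun n => lft ρ τ h ω n + PP ρ h ω n) := by
  refine antitone_nat_of_succ_le fun n => ?_
  simp only [lft_succ, PP_succ]
  have h1 := PP_pos hA h ω n
  have h2 := (hA h (ω n)).2.2.2
  nlinarith [mul_le_mul_of_nonneg_left h2 h1.le]

theorem lft_le_rgt (hA : Adm ρ τ) (h : Fin 2) (ω : ℕ → ι) (m n : ℕ) :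
    lft ρ τ h ω m ≤ lft ρ τ h ω n + PP ρ h ω n := by
  rcases le_total m n with hmn | hmn
  · have := lft_mono hA h ω hmn
    have := PP_pos hA h ω n
    linarith
  · have h1 := rgt_anti hA h ω hmn
    have := PP_pos hA h ω m
    simp only at h1
    linarith

theorem term_nonneg (hA : Adm ρ τ) (h : Fin 2) (ω : ℕ → ι) (q : ℕ) :
    0 ≤ PP ρ h ω q * τ h (ω q) := mul_nonneg (PP_pos hA h ω q).le (hA h (ω q)).2.2.1

theorem summ (hA : Adm ρ τ) (h : Fin 2) (ω : ℕ → ι) :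
    Summable fun q => PP ρ h ω q * τ h (ω q) :=
  summable_of_sum_range_le (term_nonneg hA h ω) (c := lft ρ τ h ω 0 + PP ρ h ω 0)
    fun n => lft_le_rgt hA h ω n 0

theorem pt_apply (ω : ℕ → ι) (h : Fin 2) : pt ρ τ ω h = ∑' q, PP ρ h ω q * τ h (ω q) := rfl

theorem lft_le_pt (hA : Adm ρ τ) (h : Fin 2) (ω : ℕ → ι) (n : ℕ) :
    lft ρ τ h ω n ≤ pt ρ τ ω h :=
  (summ hA h ω).sum_le_tsum _ fun q _ => term_nonneg hA h ω q

theorem pt_le_rgt (hA : Adm ρ τ) (h : Fin 2) (ω : ℕ → ι) (n : ℕ) :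
    pt ρ τ ω h ≤ lft ρ τ h ω n + PP ρ h ω n :=
  Real.tsum_le_of_sum_range_le (term_nonneg hA h ω) fun m => lft_le_rgt hA h ω m n

theorem exists_max [Fintype ι] [Nonempty ι] (hA : Adm ρ τ) :
    ∃ r : ℝ, 0 < r ∧ r < 1 ∧ ∀ h i, ρ h i ≤ r := by
  obtain ⟨p, hp⟩ := Finite.exists_max (fun p : Fin 2 × ι => ρ p.1 p.2)
  exact ⟨ρ p.1 p.2, (hA _ _).1, (hA _ _).2.1, fun h i => hp (h, i)⟩

theorem exists_min [Fintype ι] [Nonempty ι] (hA : Adm ρ τ) :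
    ∃ r : ℝ, 0 < r ∧ r < 1 ∧ ∀ h i, r ≤ ρ h i := by
  obtain ⟨p, hp⟩ := Finite.exists_min (fun p : Fin 2 × ι => ρ p.1 p.2)
  exact ⟨ρ p.1 p.2, (hA _ _).1, (hA _ _).2.1, fun h i => hp (h, i)⟩

theorem PP_le_pow (hA : Adm ρ τ) {r : ℝ} (hr : 0 < r) (hm : ∀ h i, ρ h i ≤ r) (h : Fin 2)
    (ω : ℕ → ι) (n : ℕ) : PP ρ h ω n ≤ r ^ n := by
  induction n with
  | zero => simp [PP_zero]
  | succ n ih =>
    rw [PP_succ, pow_succ]
    exact mul_le_mul ih (hm h (ω n)) (hA h (ω n)).1.le (pow_nonneg hr.le n)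

theorem exists_bound [Fintype ι] [Nonempty ι] (hA : Adm ρ τ) (hβ : 1 < β) (k : ℕ) :
    ∃ N : ℕ, ∀ h ω, PP ρ h ω N ≤ (1 / β) ^ k := by
  obtain ⟨r, hr0, hr1, hr⟩ := exists_max hA
  have hb : (0 : ℝ) < (1 / β) ^ k := by positivity
  obtain ⟨N, hN⟩ := exists_pow_lt_of_lt_one hb hr1
  exact ⟨N, fun h ω => (PP_le_pow hA hr0 hr h ω N).trans hN.le⟩

theorem Ln_spec [Fintype ι] [Nonempty ι] (hA : Adm ρ τ) (hβ : 1 < β) (h : Fin 2) (ω : ℕ → ι)
    (k : ℕ) : PP ρ h ω (Ln ρ β h ω k) ≤ (1 / β) ^ k := by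
  obtain ⟨N, hN⟩ := exists_bound hA hβ k
  exact Nat.sInf_mem (s := {n : ℕ | PP ρ h ω n ≤ (1 / β) ^ k}) ⟨N, hN h ω⟩

theorem Ln_le {h : Fin 2} {ω : ℕ → ι} {k n : ℕ} (hn : PP ρ h ω n ≤ (1 / β) ^ k) :
    Ln ρ β h ω k ≤ n := Nat.sInf_le hn

theorem lt_PP {h : Fin 2} {ω : ℕ → ι} {k n : ℕ} (hn : n < Ln ρ β h ω k) :
    (1 / β) ^ k < PP ρ h ω n := by
  by_contra hc
  exact absurd (Ln_le (not_lt.mp hc)) (not_le.mpr hn)

theorem Ln_mono [Fintype ι] [Nonempty ι] (hA : Adm ρ τ) (hβ : 1 < β) (h : Fin 2) (ω : ℕ → ι)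
    (k : ℕ) : Ln ρ β h ω k ≤ Ln ρ β h ω (k + 1) := by
  refine Ln_le ((Ln_spec hA hβ h ω (k + 1)).trans ?_)
  refine pow_le_pow_of_le_one (by positivity) ?_ (Nat.le_succ k)
  rw [div_le_one (by linarith)]
  exact hβ.le

theorem box_eq_iff {k : ℕ} {ω ω' : ℕ → ι} : box ρ lab β k ω = box ρ lab β k ω' ↔
    ∀ h, Ln ρ β h ω k = Ln ρ β h ω' k ∧ ∀ q < Ln ρ β h ω k, lab h (ω q) = lab h (ω' q) := by
  constructor
  · intro he h
    have h1 : (List.range (Ln ρ β h ω k)).map (fun q => lab h (ω q)) =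
        (List.range (Ln ρ β h ω' k)).map (fun q => lab h (ω' q)) := congrFun he h
    have h2 : Ln ρ β h ω k = Ln ρ β h ω' k := by
      have := congrArg List.length h1
      simpa using this
    refine ⟨h2, fun q hq => ?_⟩
    rw [← h2] at h1
    exact (List.map_inj_left.mp h1) q (List.mem_range.mpr hq)
  · intro he
    funext h
    obtain ⟨h1, h2⟩ := he h
    show (List.range (Ln ρ β h ω k)).map (fun q => lab h (ω q)) =
        (List.range (Ln ρ β h ω' k)).map (fun q => lab h (ω' q))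
    rw [← h1]
    exact List.map_inj_left.mpr fun q hq => h2 q (List.mem_range.mp hq)

theorem PP_congr {h : Fin 2} {ω ω' : ℕ → ι} {M : ℕ} (hs : ∀ q < M, Same ρ τ h (ω q) (ω' q))
    {n : ℕ} (hn : n ≤ M) : PP ρ h ω n = PP ρ h ω' n :=
  Finset.prod_congr rfl fun q hq => (hs q ((Finset.mem_range.mp hq).trans_le hn)).1

theorem lft_congr {h : Fin 2} {ω ω' : ℕ → ι} {M : ℕ} (hs : ∀ q < M, Same ρ τ h (ω q) (ω' q))
    {n : ℕ} (hn : n ≤ M) : lft ρ τ h ω n = lft ρ τ h ω' n := by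
  refine Finset.sum_congr rfl fun q hq => ?_
  have hq' := (Finset.mem_range.mp hq).trans_le hn
  rw [PP_congr hs hq'.le, (hs q hq').2]

/-- LEN: elementary facts on levels, boxes and distances. -/
theorem main : S_LEN := by
  intro ι _ _ ρ τ lab β hA hL hβ
  have hb0 : (0 : ℝ) < 1 / β := by positivity
  have hb1 : 1 / β ≤ 1 := by
    rw [div_le_one (by linarith)]
    exact hβ.le
  refine ⟨fun h ω n => ⟨lft_le_pt hA h ω n, pt_le_rgt hA h ω n⟩, ?_, Ln_spec hA hβ,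
    fun h ω k n hn => lt_PP hn, ?_, Ln_mono hA hβ, ?_, ?_, ?_⟩
  · intro h ω
    exact Nat.le_zero.mp (Ln_le (by simp [PP_zero]))
  · obtain ⟨δ, h0, h1, hδ⟩ := exists_min hA
    refine ⟨δ, h0, fun h ω k => ?_⟩
    have hk : (1 / β) ^ k ≤ 1 := pow_le_one₀ hb0.le hb1
    have hk0 : 0 < (1 / β) ^ k := pow_pos hb0 k
    rcases hn : Ln ρ β h ω k with _ | m
    · rw [PP_zero]
      nlinarith
    · have h2 : (1 / β) ^ k < PP ρ h ω m := lt_PP (by omega)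
      rw [PP_succ]
      have h3 := hδ h (ω m)
      nlinarith [mul_le_mul h2.le h3 h0.le (PP_pos hA h ω m).le]
  · intro k
    obtain ⟨N, hN⟩ := exists_bound hA hβ k
    exact ⟨N, fun h ω => Ln_le (hN h ω)⟩
  · intro k ω ω' he
    rw [box_eq_iff] at he ⊢
    intro h
    obtain ⟨h1, h2⟩ := he h
    have hs : ∀ q < Ln ρ β h ω (k + 1), Same ρ τ h (ω q) (ω' q) :=
      fun q hq => hL.1 h _ _ (h2 q hq)
    have h3 := Ln_mono hA hβ h ω k
    have h4 := Ln_mono hA hβ h ω' k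
    have h5 : Ln ρ β h ω' k ≤ Ln ρ β h ω k := by
      refine Ln_le ?_
      rw [← PP_congr hs h3]
      exact Ln_spec hA hβ h ω k
    have h6 : Ln ρ β h ω k ≤ Ln ρ β h ω' k := by
      refine Ln_le ?_
      rw [PP_congr hs (by omega)]
      exact Ln_spec hA hβ h ω' k
    exact ⟨le_antisymm h6 h5, fun q hq => h2 q (by omega)⟩
  · intro k ω ω' he
    rw [box_eq_iff] at he
    have hk0 : 0 < (1 / β) ^ k := pow_pos hb0 k
    have hc : ∀ h : Fin 2, dist (pt ρ τ ω h) (pt ρ τ ω' h) ≤ (1 / β) ^ k := by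
      intro h
      obtain ⟨h1, h2⟩ := he h
      have hs : ∀ q < Ln ρ β h ω k, Same ρ τ h (ω q) (ω' q) :=
        fun q hq => hL.1 h _ _ (h2 q hq)
      have a1 := lft_le_pt hA h ω (Ln ρ β h ω k)
      have a2 := pt_le_rgt hA h ω (Ln ρ β h ω k)
      have b1 := lft_le_pt hA h ω' (Ln ρ β h ω k)
      have b2 := pt_le_rgt hA h ω' (Ln ρ β h ω k)
      rw [← lft_congr hs le_rfl] at b1 b2
      rw [← PP_congr hs le_rfl] at b2
      have c1 := Ln_spec hA hβ h ω k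
      rw [Real.dist_eq, abs_le]
      constructor <;> linarith
    rw [EuclideanSpace.dist_eq, Fin.sum_univ_two]
    have h0 := hc 0
    have h1 := hc 1
    have d0 : 0 ≤ dist (pt ρ τ ω 0) (pt ρ τ ω' 0) := dist_nonneg
    have d1 : 0 ≤ dist (pt ρ τ ω 1) (pt ρ τ ω' 1) := dist_nonneg
    rw [Real.sqrt_le_left (by positivity)]
    nlinarith

end Pool.Agent.R660.SC.LEN
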