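import Pool.Agent.R660.SC.Defs

namespace Pool.Agent.R660.SC.NUMB

open Set Filter Topology

theorem main : S_NUMB := by
  intro ι S r hS hr
  have hanti : ∀ a b : ℝ, a ≤ b → ∑ i ∈ S, r i ^ b ≤ ∑ i ∈ S, r i ^ a := by
    intro a b hab
    exact Finset.sum_le_sum fun i _ =>
      Real.rpow_le_rpow_of_exponent_ge (hr i).1 (hr i).2.le hab
  have hcont : Continuous fun s : ℝ => ∑ i ∈ S, r i ^ s := by
    refine continuous_finsetSum _ fun i _ => ?_
    exact Real.continuous_const_rpow (hr i).1.ne'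
  have hlim : Tendsto (fun s : ℝ => ∑ i ∈ S, r i ^ s) atTop (𝓝 (∑ i ∈ S, (0 : ℝ))) := by
    refine tendsto_finsetSum _ fun i _ => ?_
    exact tendsto_rpow_atTop_of_base_lt_one (r i) (by linarith [(hr i).1]) (hr i).2
  rw [Finset.sum_const_zero] at hlim
  obtain ⟨b, hb1, hb0⟩ : ∃ b : ℝ, (∑ i ∈ S, r i ^ b < 1) ∧ 0 ≤ b := by
    have h1 := hlim.eventually (gt_mem_nhds (show (0 : ℝ) < 1 by norm_num))
    exact (h1.and (eventually_ge_atTop 0)).exists
  have h0 : 1 ≤ ∑ i ∈ S, r i ^ (0 : ℝ) := by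
    simp only [Real.rpow_zero, Finset.sum_const, nsmul_eq_mul, mul_one]
    exact_mod_cast hS.card_pos
  obtain ⟨s, hs, hs1⟩ : ∃ s ∈ Icc 0 b, ∑ i ∈ S, r i ^ s = 1 := by
    have := intermediate_value_Icc' hb0 hcont.continuousOn
    exact this ⟨hb1.le, h0⟩
  refine ⟨s, hs.1, hs1, fun s' h => ?_, fun s' h => ?_⟩
  · rw [← hs1]; exact hanti _ _ h
  · rw [← hs1]; exact hanti _ _ h

end Pool.Agent.R660.SC.NUMB
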