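import Pool.Agent.R660.SC.Defs

/-!
SEPBAR (helper718): different boxes have disjoint interiors.
-/

set_option autoImplicit false

open Set Filter Topology MeasureTheory Metric

namespace Pool.Agent.R660.SC.SEPBAR

variable {ι : Type}

theorem PP_pos {ρ τ : Fin 2 → ι → ℝ} (hA : Adm ρ τ) (h : Fin 2) (ω : ℕ → ι) (n : ℕ) :
    0 < PP ρ h ω n := Finset.prod_pos fun m _ => (hA h (ω m)).1

theorem PP_succ (ρ : Fin 2 → ι → ℝ) (h : Fin 2) (ω : ℕ → ι) (n : ℕ) :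
    PP ρ h ω (n + 1) = PP ρ h ω n * ρ h (ω n) := Finset.prod_range_succ _ _

theorem lft_succ (ρ τ : Fin 2 → ι → ℝ) (h : Fin 2) (ω : ℕ → ι) (n : ℕ) :
    lft ρ τ h ω (n + 1) = lft ρ τ h ω n + PP ρ h ω n * τ h (ω n) := Finset.sum_range_succ _ _

theorem nest {ρ τ : Fin 2 → ι → ℝ} (hA : Adm ρ τ) (h : Fin 2) (ω : ℕ → ι) (n m : ℕ) (hnm : n ≤ m) :
    lft ρ τ h ω n ≤ lft ρ τ h ω m ∧
      lft ρ τ h ω m + PP ρ h ω m ≤ lft ρ τ h ω n + PP ρ h ω n := by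
  induction m, hnm using Nat.le_induction with
  | base => exact ⟨le_refl _, le_refl _⟩
  | succ m _ ih =>
    have hp := PP_pos hA h ω m
    obtain ⟨h1, h2, h3, h4⟩ := hA h (ω m)
    rw [lft_succ, PP_succ]
    have k1 : 0 ≤ PP ρ h ω m * τ h (ω m) := mul_nonneg hp.le h3
    have k2 : PP ρ h ω m * (τ h (ω m) + ρ h (ω m)) ≤ PP ρ h ω m * 1 :=
      mul_le_mul_of_nonneg_left h4 hp.le
    constructor
    · linarith [ih.1]
    · nlinarith [ih.2]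

theorem PP_congr {ρ τ : Fin 2 → ι → ℝ} {h : Fin 2} {ω ω' : ℕ → ι} {n : ℕ}
    (hs : ∀ q, q < n → Same ρ τ h (ω q) (ω' q)) : PP ρ h ω n = PP ρ h ω' n :=
  Finset.prod_congr rfl fun q hq => (hs q (Finset.mem_range.1 hq)).1

theorem lft_congr {ρ τ : Fin 2 → ι → ℝ} {h : Fin 2} {ω ω' : ℕ → ι} {n : ℕ}
    (hs : ∀ q, q < n → Same ρ τ h (ω q) (ω' q)) : lft ρ τ h ω n = lft ρ τ h ω' n := by
  refine Finset.sum_congr rfl fun q hq => ?_
  have hq' := Finset.mem_range.1 hq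
  rw [PP_congr (τ := τ) fun p hp => hs p (hp.trans hq'), (hs q hq').2]

theorem Ln_spec [Fintype ι] {ρ τ : Fin 2 → ι → ℝ} (hA : Adm ρ τ) {β : ℝ} (hβ : 1 < β) (h : Fin 2)
    (ω : ℕ → ι) (k : ℕ) : PP ρ h ω (Ln ρ β h ω k) ≤ (1 / β) ^ k := by
  have hne : {n : ℕ | PP ρ h ω n ≤ (1 / β) ^ k}.Nonempty := by
    have : Nonempty ι := ⟨ω 0⟩
    obtain ⟨i0, hi0⟩ := Finite.exists_max (fun i => ρ h i)
    have hM0 := (hA h i0).1
    have hM1 := (hA h i0).2.1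
    have hε : 0 < (1 / β) ^ k := by positivity
    obtain ⟨n, hn⟩ := exists_pow_lt_of_lt_one hε hM1
    refine ⟨n, ?_⟩
    have : PP ρ h ω n ≤ ρ h i0 ^ n := by
      unfold PP
      calc ∏ m ∈ Finset.range n, ρ h (ω m) ≤ ∏ _m ∈ Finset.range n, ρ h i0 :=
            Finset.prod_le_prod (fun m _ => (hA h (ω m)).1.le) fun m _ => hi0 _
        _ = ρ h i0 ^ n := by rw [Finset.prod_const, Finset.card_range]
    exact this.trans hn.le
  exact Nat.sInf_mem hne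

theorem Ln_le [Fintype ι] {ρ τ : Fin 2 → ι → ℝ} (hA : Adm ρ τ) {β : ℝ} (hβ : 1 < β) {h : Fin 2}
    {ω ω' : ℕ → ι} {k : ℕ}
    (hs : ∀ q, q < Ln ρ β h ω k → q < Ln ρ β h ω' k → Same ρ τ h (ω q) (ω' q)) :
    Ln ρ β h ω' k ≤ Ln ρ β h ω k := by
  by_contra hlt
  push Not at hlt
  have h1 := Ln_spec hA hβ h ω k
  rw [PP_congr (τ := τ) (ω' := ω') fun q hq => hs q hq (hq.trans hlt)] at h1
  have h2 : Ln ρ β h ω' k ≤ Ln ρ β h ω k := Nat.sInf_le h1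
  omega

theorem Same.symm' {ρ τ : Fin 2 → ι → ℝ} {h : Fin 2} {i j : ι} (hs : Same ρ τ h i j) :
    Same ρ τ h j i := ⟨hs.1.symm, hs.2.symm⟩

theorem box_eq [Fintype ι] {ρ τ : Fin 2 → ι → ℝ} (hA : Adm ρ τ) {β : ℝ} (hβ : 1 < β)
    {lab : Fin 2 → ι → ι} {h : Fin 2} (hl : ∀ i j, lab h i = lab h j → Same ρ τ h i j)
    {ω ω' : ℕ → ι} {k : ℕ}
    (hs : ∀ q, q < Ln ρ β h ω k → q < Ln ρ β h ω' k → lab h (ω q) = lab h (ω' q)) :
    box ρ lab β k ω h = box ρ lab β k ω' h := by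
  have e : Ln ρ β h ω k = Ln ρ β h ω' k := by
    apply le_antisymm
    · exact Ln_le hA hβ fun q h1 h2 => Same.symm' (hl _ _ (hs q h2 h1))
    · exact Ln_le hA hβ fun q h1 h2 => hl _ _ (hs q h1 h2)
  unfold box
  rw [← e]
  refine List.map_congr_left fun q hq => ?_
  rw [List.mem_range] at hq
  exact hs q hq (e ▸ hq)

theorem core {ρ τ : Fin 2 → ι → ℝ} (hA : Adm ρ τ) {β : ℝ} {g : Fin 2} {ω ω' : ℕ → ι} {k q : ℕ}
    (h1 : q < Ln ρ β g ω k) (h2 : q < Ln ρ β g ω' k)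
    (hs : ∀ p, p < q → Same ρ τ g (ω p) (ω' p)) (hd : Disj ρ τ g (ω q) (ω' q)) :
    lft ρ τ g ω (Ln ρ β g ω k) + PP ρ g ω (Ln ρ β g ω k) ≤ lft ρ τ g ω' (Ln ρ β g ω' k) ∨
    lft ρ τ g ω' (Ln ρ β g ω' k) + PP ρ g ω' (Ln ρ β g ω' k) ≤ lft ρ τ g ω (Ln ρ β g ω k) := by
  have eP := PP_congr hs
  have eL := lft_congr hs
  have n1 := nest hA g ω (q + 1) _ h1
  have n2 := nest hA g ω' (q + 1) _ h2
  have hp := PP_pos hA g ω q
  have hp' := PP_pos hA g ω' q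
  rw [lft_succ, PP_succ] at n1 n2
  rcases hd with hd | hd
  · left
    have k1 : PP ρ g ω q * (τ g (ω q) + ρ g (ω q)) ≤ PP ρ g ω q * τ g (ω' q) :=
      mul_le_mul_of_nonneg_left hd hp.le
    rw [← eP, ← eL] at n2
    nlinarith [n1.2, n2.1]
  · right
    have k1 : PP ρ g ω' q * (τ g (ω' q) + ρ g (ω' q)) ≤ PP ρ g ω' q * τ g (ω q) :=
      mul_le_mul_of_nonneg_left hd hp'.le
    rw [eP, eL] at n1
    nlinarith [n1.1, n2.2]

/-- the direction where the lists differ, if the projections coincide or are disjoint there -/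
theorem dir [Fintype ι] {ρ τ : Fin 2 → ι → ℝ} (hA : Adm ρ τ) {β : ℝ} (hβ : 1 < β)
    {lab : Fin 2 → ι → ι} {g : Fin 2} (hl : ∀ i j, lab g i = lab g j → Same ρ τ g i j)
    {ω ω' : ℕ → ι} {k : ℕ} (hne : box ρ lab β k ω g ≠ box ρ lab β k ω' g)
    (hd : ∀ q, q < Ln ρ β g ω k → q < Ln ρ β g ω' k → lab g (ω q) ≠ lab g (ω' q) →
      Disj ρ τ g (ω q) (ω' q)) :
    lft ρ τ g ω (Ln ρ β g ω k) + PP ρ g ω (Ln ρ β g ω k) ≤ lft ρ τ g ω' (Ln ρ β g ω' k) ∨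
    lft ρ τ g ω' (Ln ρ β g ω' k) + PP ρ g ω' (Ln ρ β g ω' k) ≤ lft ρ τ g ω (Ln ρ β g ω k) := by
  classical
  have hex : ∃ q, q < Ln ρ β g ω k ∧ q < Ln ρ β g ω' k ∧ lab g (ω q) ≠ lab g (ω' q) := by
    by_contra hcon
    push Not at hcon
    exact hne (box_eq hA hβ hl fun q h1 h2 => hcon q h1 h2)
  have hq := Nat.find_spec hex
  refine core hA hq.1 hq.2.1 ?_ (hd _ hq.1 hq.2.1 hq.2.2)
  intro p hp
  have hm := Nat.find_min hex hp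
  apply hl
  by_contra hc
  exact hm ⟨hp.trans hq.1, hp.trans hq.2.1, hc⟩

theorem main : S_SEPBAR := by
  intro ι _ ρ τ lab β hA hSD hβ hl k ω ω' hne
  obtain ⟨g, hg⟩ := Function.ne_iff.1 hne
  refine ⟨g, dir hA hβ (fun i j hij => (hl g i j).1 hij) hg fun q _ _ hq => ?_⟩
  rcases hSD g (ω q) (ω' q) with h | h
  · exact absurd ((hl g _ _).2 h) hq
  · exact h

end Pool.Agent.R660.SC.SEPBAR
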