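import Pool.Agent.R660.SC.SEPBAR

/-!
SEPLG (helper718): different boxes have disjoint interiors, Lalley-Gatzouras type.
-/

set_option autoImplicit false

open Set Filter Topology MeasureTheory Metric

namespace Pool.Agent.R660.SC.SEPLG

open Pool.Agent.R660.SC.SEPBAR

theorem main : S_SEPLG := by
  intro ι _ ρ τ lab β h hA hStr hρ hβ hl hl' k ω ω' hne
  by_cases hh : box ρ lab β k ω h = box ρ lab β k ω' h
  · -- the lists in the direction `1 - h` differ
    have hne' : box ρ lab β k ω (1 - h) ≠ box ρ lab β k ω' (1 - h) := by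
      intro he
      apply hne
      funext g
      have hfin : ∀ a b : Fin 2, b = a ∨ b = 1 - a := by decide
      have : g = h ∨ g = 1 - h := hfin h g
      rcases this with rfl | rfl
      · exact hh
      · exact he
    have hlen : Ln ρ β h ω k = Ln ρ β h ω' k := by
      have := congrArg List.length hh
      simpa [box] using this
    have hsame : ∀ q, q < Ln ρ β h ω k → Same ρ τ h (ω q) (ω' q) := by
      intro q hq
      unfold box at hh
      rw [← hlen, List.map_inj_left] at hh
      exact (hl _ _).1 (hh q (List.mem_range.2 hq))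
    have hle : Ln ρ β (1 - h) ω k ≤ Ln ρ β h ω k := by
      apply Nat.sInf_le
      have h1 := Ln_spec hA hβ h ω k
      refine le_trans ?_ h1
      exact Finset.prod_le_prod (fun m _ => (hA (1 - h) (ω m)).1.le) fun m _ => hρ (ω m)
    refine ⟨1 - h, dir hA hβ (fun i j hij => ?_) hne' fun q h1 _ hq => ?_⟩
    · rw [hl', hl'] at hij
      rw [hij]
      exact ⟨rfl, rfl⟩
    · rw [hl', hl'] at hq
      exact hStr.2 _ _ hq (hsame q (lt_of_lt_of_le h1 hle))
  · refine ⟨h, dir hA hβ (fun i j hij => (hl i j).1 hij) hh fun q _ _ hq => ?_⟩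
    rcases hStr.1 (ω q) (ω' q) with h' | h'
    · exact absurd ((hl _ _).2 h') hq
    · exact h'

end Pool.Agent.R660.SC.SEPLG
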