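import Pool.Agent.R660.SC.Defs

/-! Piece STEP of project SC: one step (with weights) of the mass transport, by minimising a quadratic energy. -/

set_option autoImplicit false

namespace Pool.Agent.R660.SC.STEP

open Classical in
/-- the mass after the transport `t` -/
noncomputable def X {U : Type} [Fintype U] (m0 : U → ℝ) (t : U → U → ℝ) (u : U) : ℝ :=
  m0 u - ∑ R, t u R + ∑ G, t G u

open Classical in
/-- the weights of the energy -/
noncomputable def kap {U : Type} (E : U → U → Prop) (C : ℝ) (u : U) : ℝ :=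
  if ∃ G, E G u then C else 1

open Classical in
/-- the energy -/
noncomputable def J {U : Type} [Fintype U] (E : U → U → Prop) (C : ℝ) (g m0 : U → ℝ)
    (t : U → U → ℝ) : ℝ :=
  ∑ u, kap E C u * ((X m0 t u) ^ 2 / g u)

theorem continuous_J {U : Type} [Fintype U] (E : U → U → Prop) (C : ℝ) (g m0 : U → ℝ) :
    Continuous (J E C g m0) := by
  unfold J X
  fun_prop

open Classical in
/-- perturbation -/
noncomputable def pert {U : Type} (t : U → U → ℝ) (G R : U) (h : ℝ) (a b : U) : ℝ :=
  t a b + (if a = G ∧ b = R then h else 0)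

open Classical in
theorem X_pert {U : Type} [Fintype U] (m0 : U → ℝ) (t : U → U → ℝ) (G R : U) (h : ℝ) (u : U) :
    X m0 (pert t G R h) u =
      X m0 t u - (if u = G then h else 0) + (if u = R then h else 0) := by
  unfold X pert
  have h1 : ∑ b, (t u b + (if u = G ∧ b = R then h else 0)) =
      ∑ b, t u b + (if u = G then h else 0) := by
    rw [Finset.sum_add_distrib]
    congr 1
    by_cases hu : u = G
    · simp [hu]
    · simp [hu]
  have h2 : ∑ a, (t a u + (if a = G ∧ u = R then h else 0)) =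
      ∑ a, t a u + (if u = R then h else 0) := by
    rw [Finset.sum_add_distrib]
    congr 1
    by_cases hu : u = R
    · simp [hu]
    · simp [hu]
  rw [h1, h2]
  ring

theorem J_pert {U : Type} [Fintype U] (E : U → U → Prop) (C : ℝ) (g m0 : U → ℝ)
    (hE : ∀ G R Q, E G R → ¬ E R Q) (t : U → U → ℝ) (G R : U) (hGR : E G R) (h : ℝ) :
    J E C g m0 (pert t G R h) = J E C g m0 t +
      (2 * h * (C * (X m0 t R / g R) - X m0 t G / g G) + h ^ 2 * (1 / g G + C / g R)) := by
  classical
  have hne : G ≠ R := by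
    intro he
    rw [he] at hGR
    exact hE R R R hGR hGR
  have hG : kap E C G = 1 := by
    unfold kap
    rw [if_neg]
    rintro ⟨Q, hQ⟩
    exact hE Q G R hQ hGR
  have hR : kap E C R = C := by
    unfold kap
    rw [if_pos ⟨G, hGR⟩]
  have key : J E C g m0 (pert t G R h) - J E C g m0 t =
      ∑ u, (kap E C u * ((X m0 (pert t G R h) u) ^ 2 / g u) - kap E C u * ((X m0 t u) ^ 2 / g u))
      := by
    unfold J
    rw [Finset.sum_sub_distrib]
  rw [Finset.sum_eq_add G R hne] at key
  · rw [X_pert, X_pert, hG, hR, if_pos rfl, if_neg hne, if_neg (Ne.symm hne), if_pos rfl] at key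
    linear_combination key
  · intro u _ hu
    rw [X_pert, if_neg hu.1, if_neg hu.2]
    ring
  · intro hn
    exact absurd (Finset.mem_univ _) hn
  · intro hn
    exact absurd (Finset.mem_univ _) hn

/-- the optimal transport -/
theorem exists_transport {U : Type} [Fintype U] (E : U → U → Prop) (C : ℝ) (g m0 : U → ℝ)
    (hC : 1 ≤ C) (hg : ∀ u, 0 < g u) (hm : ∀ u, 0 < m0 u) (hE : ∀ G R Q, E G R → ¬ E R Q) :
    ∃ t : U → U → ℝ, (∀ G R, 0 ≤ t G R) ∧ (∀ G R, 0 < t G R → E G R) ∧
      (∀ G R, E G R → X m0 t G / g G ≤ C * (X m0 t R / g R)) ∧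
      (∀ G R, 0 < t G R → X m0 t G / g G = C * (X m0 t R / g R)) := by
  classical
  set T : ℝ := ∑ u, m0 u + 1 with hT
  have hTm : ∀ u, m0 u < T := by
    intro u
    have h1 : m0 u ≤ ∑ u, m0 u :=
      Finset.single_le_sum (f := m0) (fun i _ => (hm i).le) (Finset.mem_univ u)
    linarith
  have hT0 : 0 ≤ T := by
    have h1 : 0 ≤ ∑ u, m0 u := Finset.sum_nonneg (fun i _ => (hm i).le)
    linarith
  set B : U → U → ℝ := fun G R => if E G R then T else 0 with hB
  have hB0 : (0 : U → U → ℝ) ≤ B := by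
    intro G R
    change 0 ≤ (if E G R then T else 0)
    split_ifs
    · exact hT0
    · exact le_rfl
  obtain ⟨t, htK, htmin⟩ := (isCompact_Icc (a := (0 : U → U → ℝ)) (b := B)).exists_isMinOn
    ⟨0, le_rfl, hB0⟩ (continuous_J E C g m0).continuousOn
  have ht0 : ∀ G R, 0 ≤ t G R := fun G R => htK.1 G R
  have htB : ∀ G R, t G R ≤ if E G R then T else 0 := fun G R => htK.2 G R
  have htE : ∀ G R, ¬ E G R → t G R = 0 := by
    intro G R h
    have h1 := htB G R
    rw [if_neg h] at h1
    exact le_antisymm h1 (ht0 G R)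
  have htT : ∀ G R, E G R → t G R ≤ T := by
    intro G R h
    have h1 := htB G R
    rwa [if_pos h] at h1
  have hmin : ∀ G R, E G R → ∀ h : ℝ, 0 ≤ t G R + h → t G R + h ≤ T →
      0 ≤ h * (2 * (C * (X m0 t R / g R) - X m0 t G / g G) + h * (1 / g G + C / g R)) := by
    intro G R hGR h h0 h1
    have hmem : pert t G R h ∈ Set.Icc (0 : U → U → ℝ) B := by
      constructor
      · intro a b
        change 0 ≤ t a b + (if a = G ∧ b = R then h else 0)
        by_cases hab : a = G ∧ b = R
        · rw [if_pos hab, hab.1, hab.2]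
          exact h0
        · rw [if_neg hab, add_zero]
          exact ht0 a b
      · intro a b
        change t a b + (if a = G ∧ b = R then h else 0) ≤ (if E a b then T else 0)
        by_cases hab : a = G ∧ b = R
        · rw [if_pos hab, hab.1, hab.2, if_pos hGR]
          exact h1
        · rw [if_neg hab, add_zero]
          exact htB a b
    have h2 : J E C g m0 t ≤ J E C g m0 (pert t G R h) := htmin hmem
    rw [J_pert E C g m0 hE t G R hGR h] at h2
    nlinarith [h2]
  have hneg : ∀ G R, E G R → 0 < t G R → C * (X m0 t R / g R) ≤ X m0 t G / g G := by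
    intro G R hGR hpos
    by_contra hlt
    push Not at hlt
    set D := C * (X m0 t R / g R) - X m0 t G / g G with hD
    have hD0 : 0 < D := by linarith
    have hC1 : 0 < 1 / g G + C / g R := add_pos (one_div_pos.mpr (hg G)) (div_pos (by linarith) (hg R))
    set k := min (t G R) (D / (1 / g G + C / g R)) with hk
    have hk0 : 0 < k := lt_min hpos (div_pos hD0 hC1)
    have hk1 : k ≤ t G R := min_le_left _ _
    have hk2 : k * (1 / g G + C / g R) ≤ D := by
      have h3 : k ≤ D / (1 / g G + C / g R) := min_le_right _ _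
      rwa [le_div_iff₀ hC1] at h3
    have h4 := hmin G R hGR (-k) (by linarith) (by linarith [htT G R hGR])
    have h5 : 0 < k * (2 * D - k * (1 / g G + C / g R)) := mul_pos hk0 (by linarith)
    have h6 : -k * (2 * D + -k * (1 / g G + C / g R)) = - (k * (2 * D - k * (1 / g G + C / g R))) := by ring
    rw [h6] at h4
    linarith
  have hposi : ∀ G R, E G R → t G R < T → X m0 t G / g G ≤ C * (X m0 t R / g R) := by
    intro G R hGR hlt'
    by_contra hlt
    push Not at hlt
    set D := X m0 t G / g G - C * (X m0 t R / g R) with hD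
    have hD0 : 0 < D := by linarith
    have hC1 : 0 < 1 / g G + C / g R := add_pos (one_div_pos.mpr (hg G)) (div_pos (by linarith) (hg R))
    set k := min (T - t G R) (D / (1 / g G + C / g R)) with hk
    have hk0 : 0 < k := lt_min (by linarith) (div_pos hD0 hC1)
    have hk1 : k ≤ T - t G R := min_le_left _ _
    have hk2 : k * (1 / g G + C / g R) ≤ D := by
      have h3 : k ≤ D / (1 / g G + C / g R) := min_le_right _ _
      rwa [le_div_iff₀ hC1] at h3
    have h4 := hmin G R hGR k (by linarith [ht0 G R]) (by linarith)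
    have h5 : 0 < k * (2 * D - k * (1 / g G + C / g R)) := mul_pos hk0 (by linarith)
    have h6 : k * (2 * (C * (X m0 t R / g R) - X m0 t G / g G) + k * (1 / g G + C / g R)) =
        - (k * (2 * D - k * (1 / g G + C / g R))) := by rw [hD]; ring
    rw [h6] at h4
    linarith
  have hTlt : ∀ G R, E G R → t G R < T := by
    intro G R hGR
    rcases lt_or_eq_of_le (htT G R hGR) with h | h
    · exact h
    · exfalso
      have hpos : 0 < t G R := by rw [h]; linarith [hTm G, hm G]
      have h1 := hneg G R hGR hpos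
      have h2 : ∑ Q, t Q G = 0 := Finset.sum_eq_zero (fun Q _ =>
        htE Q G (fun hQ => hE Q G R hQ hGR))
      have h3 : t G R ≤ ∑ Q, t G Q :=
        Finset.single_le_sum (f := fun Q => t G Q) (fun i _ => ht0 G i) (Finset.mem_univ R)
      have h4 : ∑ Q, t R Q = 0 := Finset.sum_eq_zero (fun Q _ =>
        htE R Q (fun hQ => hE G R Q hGR hQ))
      have h5 : 0 ≤ ∑ Q, t Q R := Finset.sum_nonneg (fun i _ => ht0 i R)
      have h6 : X m0 t G < 0 := by
        unfold X
        rw [h2]
        linarith [hTm G]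
      have h7 : 0 < X m0 t R := by
        unfold X
        rw [h4]
        linarith [hm R]
      have h8 : 0 < C * (X m0 t R / g R) := mul_pos (by linarith) (div_pos h7 (hg R))
      have h9 : X m0 t G / g G < 0 := div_neg_of_neg_of_pos h6 (hg G)
      linarith
  have hEpos : ∀ G R, 0 < t G R → E G R := by
    intro G R h
    by_contra hn
    rw [htE G R hn] at h
    exact lt_irrefl _ h
  refine ⟨t, ht0, hEpos, fun G R h => hposi G R h (hTlt G R h), fun G R h => ?_⟩
  exact le_antisymm (hposi G R (hEpos G R h) (hTlt G R (hEpos G R h)))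
    (hneg G R (hEpos G R h) h)

/-- STEP -/
theorem main : S_STEP := by
  classical
  intro U V _ _ π adjU adjV w gU gV m a b C hrefl hsymm hchain hgU hgV hm hmC ha0 hb0 hC1 hbC hw0
    hw hsum
  have hC0 : 0 < C := by linarith
  obtain ⟨M, hM⟩ : ∃ M, M = b / a := ⟨_, rfl⟩
  have hM0 : 0 < M := by rw [hM]; exact div_pos hb0 ha0
  have hMC : M ≤ C := by rw [hM, div_le_iff₀ ha0]; exact hbC
  have hMa : a * M = b := by rw [hM]; field_simp
  set m0 : U → ℝ := fun u => m (π u) * w u with hm0
  obtain ⟨f0, hf0⟩ : ∃ f0 : U → ℝ, ∀ u, f0 u = m0 u / gU u := ⟨_, fun _ => rfl⟩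
  obtain ⟨fV, hfV⟩ : ∃ fV : V → ℝ, ∀ v, fV v = m v / gV v := ⟨_, fun _ => rfl⟩
  have hm0pos : ∀ u, 0 < m0 u := fun u => mul_pos (hm _) (hw0 u)
  have hf0pos : ∀ u, 0 < f0 u := fun u => by rw [hf0]; exact div_pos (hm0pos u) (hgU u)
  have hfVpos : ∀ v, 0 < fV v := fun v => by rw [hfV]; exact div_pos (hm v) (hgV v)
  have hf0V : ∀ u, f0 u = fV (π u) * (w u * gV (π u) / gU u) := by
    intro u
    have h1 := (hgU u).ne'
    have h2 := (hgV (π u)).ne'
    rw [hf0, hfV]
    change m (π u) * w u / gU u = _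
    field_simp
  have hup : ∀ u, a * f0 u ≤ fV (π u) := by
    intro u
    have h1 := (hw u).2
    rw [le_div_iff₀ ha0] at h1
    rw [hf0V]
    have h3 := mul_le_mul_of_nonneg_left h1 (hfVpos (π u)).le
    linarith
  have hdown : ∀ u, fV (π u) ≤ b * f0 u := by
    intro u
    have h1 := (hw u).1
    rw [div_le_iff₀ hb0] at h1
    rw [hf0V]
    have h3 := mul_le_mul_of_nonneg_left h1 (hfVpos (π u)).le
    linarith
  have hch : ∀ u0 u1 u2 u3, adjU u0 u1 → adjU u1 u2 → adjU u2 u3 → fV (π u0) ≤ C * fV (π u3) := by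
    intro u0 u1 u2 u3 h1 h2 h3
    have h4 := hmC _ _ (hchain u0 u1 u2 u3 h1 h2 h3)
    rw [hfV, hfV]
    exact h4
  have hF : ∀ u0 u1 u2 u3, adjU u0 u1 → adjU u1 u2 → adjU u2 u3 → f0 u0 ≤ C * (M * f0 u3) := by
    intro u0 u1 u2 u3 h1 h2 h3
    have h4 : a * f0 u0 ≤ a * (C * (M * f0 u3)) := by
      calc a * f0 u0 ≤ fV (π u0) := hup u0
        _ ≤ C * fV (π u3) := hch u0 u1 u2 u3 h1 h2 h3
        _ ≤ C * (b * f0 u3) := mul_le_mul_of_nonneg_left (hdown u3) hC0.le
        _ = a * (C * (M * f0 u3)) := by rw [← hMa]; ring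
    exact le_of_mul_le_mul_left h4 ha0
  set E : U → U → Prop := fun G R => adjU G R ∧ C * f0 R < f0 G with hEdef
  have hE : ∀ G R Q, E G R → ¬ E R Q := by
    rintro G R Q ⟨h1, h2⟩ ⟨h3, h4⟩
    have h5 := hF G R Q Q h1 h3 (hrefl Q)
    have h6 : C * (C * f0 Q) < C * f0 R := mul_lt_mul_of_pos_left h4 hC0
    have h7 : C * (M * f0 Q) ≤ C * (C * f0 Q) :=
      mul_le_mul_of_nonneg_left (mul_le_mul_of_nonneg_right hMC (hf0pos Q).le) hC0.le
    linarith
  obtain ⟨t, ht0, htE, hopt, heq⟩ := exists_transport E C gU m0 hC1 hgU hm0pos hE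
  set x : U → ℝ := X m0 t with hx
  have hxdef : ∀ u, x u = m0 u - ∑ R, t u R + ∑ G, t G u := fun u => rfl
  obtain ⟨y, hy⟩ : ∃ y : U → ℝ, ∀ u, y u = x u / gU u := ⟨_, fun _ => rfl⟩
  have hnotAR : ∀ u, (∀ G, ¬ 0 < t G u) → ∑ G, t G u = 0 := by
    intro u h
    exact Finset.sum_eq_zero (fun G _ => le_antisymm (not_lt.1 (h G)) (ht0 G u))
  have hnotAG : ∀ u, (∀ R, ¬ 0 < t u R) → ∑ R, t u R = 0 := by
    intro u h
    exact Finset.sum_eq_zero (fun R _ => le_antisymm (not_lt.1 (h R)) (ht0 u R))
  have hout0 : ∀ u, 0 ≤ ∑ R, t u R := fun u => Finset.sum_nonneg (fun i _ => ht0 u i)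
  have hin0 : ∀ u, 0 ≤ ∑ G, t G u := fun u => Finset.sum_nonneg (fun i _ => ht0 i u)
  have h1 : ∀ u, (∀ G, ¬ 0 < t G u) → y u ≤ f0 u := by
    intro u h
    rw [hy, hf0]
    apply div_le_div_of_nonneg_right _ (hgU u).le
    rw [hxdef, hnotAR u h]
    linarith [hout0 u]
  have h2 : ∀ u, (∀ R, ¬ 0 < t u R) → f0 u ≤ y u := by
    intro u h
    rw [hy, hf0]
    apply div_le_div_of_nonneg_right _ (hgU u).le
    rw [hxdef, hnotAG u h]
    linarith [hin0 u]
  have hgiv : ∀ u R, 0 < t u R → ∀ G, ¬ 0 < t G u := by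
    intro u R h G h'
    exact hE G u R (htE G u h') (htE u R h)
  have hrec : ∀ G u, 0 < t G u → ∀ R, ¬ 0 < t u R := by
    intro G u h R h'
    exact hE G u R (htE G u h) (htE u R h')
  have h3 : ∀ u R, 0 < t u R → C * f0 R ≤ y u := by
    intro u R h
    have e1 : y u = C * y R := by rw [hy, hy]; exact heq u R h
    rw [e1]
    exact mul_le_mul_of_nonneg_left (h2 R (hrec u R h)) hC0.le
  have h4 : ∀ G u, 0 < t G u → C * y u ≤ f0 G := by
    intro G u h
    have e1 : y G = C * y u := by rw [hy, hy]; exact heq G u h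
    rw [← e1]
    exact h1 G (hgiv G u h)
  have hypos : ∀ u, 0 < y u := by
    intro u
    by_cases hA : ∃ R, 0 < t u R
    · obtain ⟨R, hR⟩ := hA
      exact lt_of_lt_of_le (mul_pos hC0 (hf0pos R)) (h3 u R hR)
    · push Not at hA
      exact lt_of_lt_of_le (hf0pos u) (h2 u (fun R => not_lt.2 (hA R)))
  have hxpos : ∀ u, 0 < x u := by
    intro u
    have e1 := hypos u
    rw [hy] at e1
    exact (div_pos_iff_of_pos_right (hgU u)).mp e1
  refine ⟨x, hxpos, ?_, ?_, ?_, ?_, ?_⟩
  · intro P Q hPQ
    rw [← hy, ← hy]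
    by_cases hP : ∃ G, 0 < t G P
    · obtain ⟨G, hG⟩ := hP
      have g1 := h4 G P hG
      have g2 : adjU G P := (htE G P hG).1
      by_cases hQ : ∃ R, 0 < t Q R
      · obtain ⟨R, hR⟩ := hQ
        have g3 := h3 Q R hR
        have g4 : adjU Q R := (htE Q R hR).1
        have g5 := hF G P Q R g2 hPQ g4
        have g6 : C * y P ≤ C * y Q := by
          calc C * y P ≤ f0 G := g1
            _ ≤ C * (M * f0 R) := g5
            _ = M * (C * f0 R) := by ring
            _ ≤ M * y Q := mul_le_mul_of_nonneg_left g3 hM0.le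
            _ ≤ C * y Q := mul_le_mul_of_nonneg_right hMC (hypos Q).le
        have g7 : y P ≤ y Q := le_of_mul_le_mul_left g6 hC0
        have g8 : y Q ≤ C * y Q := by
          have := mul_le_mul_of_nonneg_right hC1 (hypos Q).le
          linarith
        exact g7.trans g8
      · push Not at hQ
        have g3 := h2 Q (fun R => not_lt.2 (hQ R))
        have g5 := hF G P Q Q g2 hPQ (hrefl Q)
        have g6 : C * y P ≤ C * (C * y Q) := by
          calc C * y P ≤ f0 G := g1
            _ ≤ C * (M * f0 Q) := g5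
            _ ≤ C * (C * f0 Q) :=
              mul_le_mul_of_nonneg_left (mul_le_mul_of_nonneg_right hMC (hf0pos Q).le) hC0.le
            _ ≤ C * (C * y Q) :=
              mul_le_mul_of_nonneg_left (mul_le_mul_of_nonneg_left g3 hC0.le) hC0.le
        exact le_of_mul_le_mul_left g6 hC0
    · push Not at hP
      have g1 := h1 P (fun G => not_lt.2 (hP G))
      by_cases hQ : ∃ R, 0 < t Q R
      · obtain ⟨R, hR⟩ := hQ
        have g3 := h3 Q R hR
        have g4 : adjU Q R := (htE Q R hR).1
        have g5 := hF P Q R R hPQ g4 (hrefl R)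
        calc y P ≤ f0 P := g1
          _ ≤ C * (M * f0 R) := g5
          _ = M * (C * f0 R) := by ring
          _ ≤ M * y Q := mul_le_mul_of_nonneg_left g3 hM0.le
          _ ≤ C * y Q := mul_le_mul_of_nonneg_right hMC (hypos Q).le
      · push Not at hQ
        have g3 := h2 Q (fun R => not_lt.2 (hQ R))
        by_cases hcmp : C * f0 Q < f0 P
        · have g9 := hopt P Q ⟨hPQ, hcmp⟩
          rw [hy, hy]
          exact g9
        · push Not at hcmp
          calc y P ≤ f0 P := g1
            _ ≤ C * f0 Q := hcmp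
            _ ≤ C * y Q := mul_le_mul_of_nonneg_left g3 hC0.le
  · intro u
    rw [← hy, ← hfV]
    by_cases hA : ∃ R, 0 < t u R
    · obtain ⟨R, hR⟩ := hA
      have g3 := h3 u R hR
      have g4 : adjU u R := (htE u R hR).1
      calc fV (π u) ≤ C * fV (π R) := hch u R R R g4 (hrefl R) (hrefl R)
        _ ≤ C * (b * f0 R) := mul_le_mul_of_nonneg_left (hdown R) hC0.le
        _ = b * (C * f0 R) := by ring
        _ ≤ b * y u := mul_le_mul_of_nonneg_left g3 hb0.le
    · push Not at hA
      have g3 := h2 u (fun R => not_lt.2 (hA R))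
      exact (hdown u).trans (mul_le_mul_of_nonneg_left g3 hb0.le)
  · intro u
    rw [← hy, ← hfV]
    by_cases hA : ∃ G, 0 < t G u
    · obtain ⟨G, hG⟩ := hA
      have g1 := h4 G u hG
      have g2 : adjU G u := (htE G u hG).1
      have g3 : C * (a * y u) ≤ C * fV (π u) := by
        calc C * (a * y u) = a * (C * y u) := by ring
          _ ≤ a * f0 G := mul_le_mul_of_nonneg_left g1 ha0.le
          _ ≤ fV (π G) := hup G
          _ ≤ C * fV (π u) := hch G u u u g2 (hrefl u) (hrefl u)
      exact le_of_mul_le_mul_left g3 hC0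
    · push Not at hA
      have g3 := h1 u (fun G => not_lt.2 (hA G))
      exact (mul_le_mul_of_nonneg_left g3 ha0.le).trans (hup u)
  · have e1 : ∑ u, x u = ∑ u, m0 u := by
      have e2 : ∑ u, x u = ∑ u, m0 u - ∑ u, ∑ R, t u R + ∑ u, ∑ G, t G u := by
        rw [← Finset.sum_sub_distrib, ← Finset.sum_add_distrib]
        exact Finset.sum_congr rfl (fun u _ => hxdef u)
      rw [e2, Finset.sum_comm (f := fun u G => t G u)]
      ring
    rw [e1, ← Finset.sum_fiberwise Finset.univ π]
    refine Finset.sum_congr rfl (fun v _ => ?_)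
    have e3 : ∑ u ∈ Finset.univ.filter (fun u => π u = v), m0 u =
        ∑ u ∈ Finset.univ.filter (fun u => π u = v), m v * w u := by
      refine Finset.sum_congr rfl (fun u hu => ?_)
      rw [Finset.mem_filter] at hu
      change m (π u) * w u = m v * w u
      rw [hu.2]
    rw [e3, ← Finset.mul_sum, hsum v _ (fun u => by simp), mul_one]
  · intro S F hSF
    set T' : Finset U := Finset.univ.filter (fun u => π u ∈ S) with hT'
    have hsub : T' ⊆ F := by
      intro u hu
      rw [hT', Finset.mem_filter] at hu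
      exact hSF u u (hrefl u) hu.2
    have e1 : ∑ v ∈ S, m v = ∑ u ∈ T', m0 u := by
      have e2 : ∑ u ∈ T', m0 u = ∑ v ∈ S, ∑ u ∈ T'.filter (fun u => π u = v), m0 u := by
        symm
        apply Finset.sum_fiberwise_of_maps_to
        intro u hu
        rw [hT', Finset.mem_filter] at hu
        exact hu.2
      rw [e2]
      refine Finset.sum_congr rfl (fun v hv => ?_)
      have e3 : ∑ u ∈ T'.filter (fun u => π u = v), m0 u =
          ∑ u ∈ T'.filter (fun u => π u = v), m v * w u := by
        refine Finset.sum_congr rfl (fun u hu => ?_)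
        rw [Finset.mem_filter] at hu
        change m (π u) * w u = m v * w u
        rw [hu.2]
      rw [e3, ← Finset.mul_sum, hsum v _ (fun u => ?_), mul_one]
      rw [Finset.mem_filter, hT', Finset.mem_filter]
      constructor
      · rintro ⟨_, h⟩
        exact h
      · intro h
        exact ⟨⟨Finset.mem_univ _, by rw [h]; exact hv⟩, h⟩
    have e4 : ∀ u, 0 ≤ m0 u - ∑ R, t u R := by
      intro u
      by_cases hA : ∃ R, 0 < t u R
      · obtain ⟨R, hR⟩ := hA
        have g1 := hxpos u
        rw [hxdef, hnotAR u (hgiv u R hR)] at g1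
        linarith
      · push Not at hA
        rw [hnotAG u (fun R => not_lt.2 (hA R))]
        linarith [hm0pos u]
    have e5 : ∑ u ∈ T', (m0 u - ∑ R, t u R) ≤ ∑ u ∈ F, (m0 u - ∑ R, t u R) :=
      Finset.sum_le_sum_of_subset_of_nonneg hsub (fun u _ _ => e4 u)
    have e6 : ∑ u ∈ T', ∑ R, t u R ≤ ∑ u ∈ F, ∑ G, t G u := by
      have e7 : ∀ u ∈ T', ∑ R, t u R = ∑ R ∈ F, t u R := by
        intro u hu
        symm
        apply Finset.sum_subset (Finset.subset_univ _)
        intro R _ hR
        by_contra hne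
        have hpos : 0 < t u R := lt_of_le_of_ne (ht0 u R) (Ne.symm hne)
        rw [hT', Finset.mem_filter] at hu
        exact hR (hSF R u (hsymm _ _ (htE u R hpos).1) hu.2)
      rw [Finset.sum_congr rfl e7, Finset.sum_comm]
      refine Finset.sum_le_sum (fun u _ => ?_)
      exact Finset.sum_le_sum_of_subset_of_nonneg (Finset.subset_univ _) (fun G _ _ => ht0 G u)
    rw [e1]
    have e8 : ∑ u ∈ F, x u = ∑ u ∈ F, (m0 u - ∑ R, t u R) + ∑ u ∈ F, ∑ G, t G u := by
      rw [← Finset.sum_add_distrib]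
      exact Finset.sum_congr rfl (fun u _ => hxdef u)
    have e9 : ∑ u ∈ T', m0 u = ∑ u ∈ T', (m0 u - ∑ R, t u R) + ∑ u ∈ T', ∑ R, t u R := by
      rw [← Finset.sum_add_distrib]
      exact Finset.sum_congr rfl (fun u _ => by ring)
    rw [e8, e9]
    linarith

end Pool.Agent.R660.SC.STEP
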