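import Pool.Agent.R660.SC.Defs

/-! Piece STOP -/

open Set Filter Topology MeasureTheory Metric

namespace Pool.Agent.R660.SC.STOP

open Pool.Agent.R660.SC

variable {ι : Type}

lemma box_len {ρ : Fin 2 → ι → ℝ} {lab : Fin 2 → ι → ι} {β : ℝ} {k : ℕ} (ω : ℕ → ι) (h : Fin 2) :
    (box ρ lab β k ω h).length = Ln ρ β h ω k := by
  simp [box]

lemma box_get {ρ : Fin 2 → ι → ℝ} {lab : Fin 2 → ι → ι} {β : ℝ} {k : ℕ} (ω : ℕ → ι) (h : Fin 2)
    {q : ℕ} (hq : q < Ln ρ β h ω k) :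
    (box ρ lab β k ω h)[q]? = some (lab h (ω q)) := by
  unfold box
  rw [List.getElem?_map, List.getElem?_range hq]
  rfl

lemma box_iff {ρ : Fin 2 → ι → ℝ} {lab : Fin 2 → ι → ι} {β : ℝ} {k : ℕ} (ω ω' : ℕ → ι) :
    box ρ lab β k ω = box ρ lab β k ω' ↔ ∀ h, Ln ρ β h ω k = Ln ρ β h ω' k ∧
      ∀ q < Ln ρ β h ω k, lab h (ω q) = lab h (ω' q) := by
  constructor
  · intro he h
    have hh := congrFun he h
    have hl : Ln ρ β h ω k = Ln ρ β h ω' k := by
      rw [← box_len (lab := lab) ω h, hh, box_len]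
    refine ⟨hl, fun q hq => ?_⟩
    have h1 := box_get (lab := lab) ω h hq
    rw [hh, box_get (lab := lab) ω' h (hl ▸ hq)] at h1
    exact (Option.some.inj h1).symm
  · intro he
    funext h
    unfold box
    rw [← (he h).1]
    refine List.map_congr_left (fun q hq => ?_)
    exact (he h).2 q (List.mem_range.1 hq)

lemma PP_congr {ρ τ : Fin 2 → ι → ℝ} {lab : Fin 2 → ι → ι} (hlab : Lab ρ τ lab) {h : Fin 2}
    {ω ω' : ℕ → ι} {n : ℕ} (he : ∀ p < n, lab h (ω p) = lab h (ω' p)) :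
    PP ρ h ω n = PP ρ h ω' n := by
  unfold PP
  refine Finset.prod_congr rfl (fun p hp => ?_)
  exact (hlab.1 h _ _ (he p (Finset.mem_range.1 hp))).1

/-- facts on `Ln` -/
structure LF (ρ : Fin 2 → ι → ℝ) (β : ℝ) : Prop where
  hle : ∀ h ω k, PP ρ h ω (Ln ρ β h ω k) ≤ (1 / β) ^ k
  hgt : ∀ h ω k n, n < Ln ρ β h ω k → (1 / β) ^ k < PP ρ h ω n

lemma ln_ge {ρ τ : Fin 2 → ι → ℝ} {lab : Fin 2 → ι → ι} {β : ℝ} (hlab : Lab ρ τ lab)
    (hF : LF ρ β) {h : Fin 2} {ω ω' : ℕ → ι} {k m : ℕ} (hm : m ≤ Ln ρ β h ω k)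
    (he : ∀ p, p + 1 < m → lab h (ω p) = lab h (ω' p)) : m ≤ Ln ρ β h ω' k := by
  by_contra hcon
  push Not at hcon
  have h1 := hF.hle h ω' k
  have h2 : PP ρ h ω (Ln ρ β h ω' k) = PP ρ h ω' (Ln ρ β h ω' k) :=
    PP_congr hlab (fun p hp => he p (by omega))
  have h3 := hF.hgt h ω k (Ln ρ β h ω' k) (by omega)
  rw [h2] at h3
  exact absurd h1 (not_le.2 h3)

lemma ln_eq {ρ τ : Fin 2 → ι → ℝ} {lab : Fin 2 → ι → ι} {β : ℝ} (hlab : Lab ρ τ lab)
    (hF : LF ρ β) {h : Fin 2} {ω ω' : ℕ → ι} {k : ℕ}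
    (he : ∀ q < Ln ρ β h ω k, lab h (ω q) = lab h (ω' q)) : Ln ρ β h ω k = Ln ρ β h ω' k := by
  refine le_antisymm (ln_ge hlab hF le_rfl (fun p hp => he p (by omega))) ?_
  by_contra hcon
  push Not at hcon
  have h1 := hF.hgt h ω' k _ hcon
  rw [← PP_congr hlab he] at h1
  exact absurd (hF.hle h ω k) (not_le.2 h1)

lemma box_eq {ρ τ : Fin 2 → ι → ℝ} {lab : Fin 2 → ι → ι} {β : ℝ} (hlab : Lab ρ τ lab)
    (hF : LF ρ β) {ω ω' : ℕ → ι} {k : ℕ}
    (he : ∀ h, ∀ q < Ln ρ β h ω k, lab h (ω q) = lab h (ω' q)) :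
    box ρ lab β k ω = box ρ lab β k ω' :=
  (box_iff ω ω').2 (fun h => ⟨ln_eq hlab hF (he h), he h⟩)

/-- the factor of a position -/
noncomputable def fac (φF : ι → ℝ) (φ1 : Fin 2 → ι → ℝ) (ω : ℕ → ι) (n : Fin 2 → ℕ) (q : ℕ) : ℝ :=
  if q < n 0 ∧ q < n 1 then φF (ω q) else if q < n 0 then φ1 0 (ω q) else
    if q < n 1 then φ1 1 (ω q) else 1

lemma Tn_eq (φF : ι → ℝ) (φ1 : Fin 2 → ι → ℝ) (ω : ℕ → ι) (n : Fin 2 → ℕ) {N : ℕ}
    (h0 : n 0 ≤ N) (h1 : n 1 ≤ N) :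
    Tn φF φ1 ω n = ∏ q ∈ Finset.range N, fac φF φ1 ω n q := by
  unfold Tn
  rw [← Finset.prod_subset (s₁ := Finset.range (max (n 0) (n 1))) (s₂ := Finset.range N)
    (f := fac φF φ1 ω n)]
  · refine Finset.prod_congr rfl (fun q hq => ?_)
    rw [Finset.mem_range, lt_max_iff] at hq
    unfold fac
    split_ifs with h2 h3 h4
    · rfl
    · rfl
    · rfl
    · rcases hq with hq | hq
      · exact absurd hq h3
      · exact absurd hq h4
  · intro q hq
    rw [Finset.mem_range, lt_max_iff] at hq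
    rw [Finset.mem_range]
    omega
  · intro q _ hq
    rw [Finset.mem_range, lt_max_iff] at hq
    push Not at hq
    unfold fac
    rw [if_neg (by omega), if_neg (by omega), if_neg (by omega)]

lemma fac_both {φF : ι → ℝ} {φ1 : Fin 2 → ι → ℝ} {ω : ℕ → ι} {n : Fin 2 → ℕ} {q : ℕ}
    {h g : Fin 2} (hgh : g ≠ h) (h1 : q < n h) (h2 : q < n g) :
    fac φF φ1 ω n q = φF (ω q) := by
  fin_cases h <;> fin_cases g <;> simp_all [fac]

lemma fac_one {φF : ι → ℝ} {φ1 : Fin 2 → ι → ℝ} {ω : ℕ → ι} {n : Fin 2 → ℕ} {q : ℕ}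
    {h g : Fin 2} (hgh : g ≠ h) (h1 : q < n h) (h2 : ¬ q < n g) :
    fac φF φ1 ω n q = φ1 h (ω q) := by
  unfold fac
  fin_cases h <;> fin_cases g
  · exact absurd rfl hgh
  · have h1' : q < n 0 := h1
    have h2' : ¬ q < n 1 := h2
    rw [if_neg (by tauto), if_pos h1']
    rfl
  · have h1' : q < n 1 := h1
    have h2' : ¬ q < n 0 := h2
    rw [if_neg (by tauto), if_neg h2', if_pos h1']
    rfl
  · exact absurd rfl hgh

lemma fac_none {φF : ι → ℝ} {φ1 : Fin 2 → ι → ℝ} {ω : ℕ → ι} {n : Fin 2 → ℕ} {q : ℕ}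
    {h g : Fin 2} (hgh : g ≠ h) (h1 : ¬ q < n h) (h2 : ¬ q < n g) :
    fac φF φ1 ω n q = 1 := by
  unfold fac
  fin_cases h <;> fin_cases g
  · exact absurd rfl hgh
  · have h1' : ¬ q < n 0 := h1
    have h2' : ¬ q < n 1 := h2
    rw [if_neg (by tauto), if_neg h1', if_neg h2']
  · have h1' : ¬ q < n 1 := h1
    have h2' : ¬ q < n 0 := h2
    rw [if_neg (by tauto), if_neg h2', if_neg h1']
  · exact absurd rfl hgh

lemma fac_congr {φF : ι → ℝ} {φ1 : Fin 2 → ι → ℝ} {ω ω' : ℕ → ι} {n n' : Fin 2 → ℕ} {q : ℕ}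
    (hn : ∀ a, q < n a ↔ q < n' a) (hω : ω q = ω' q) :
    fac φF φ1 ω n q = fac φF φ1 ω' n' q := by
  unfold fac
  simp only [hn 0, hn 1, hω]

lemma fac_nonneg {φF : ι → ℝ} {φ1 : Fin 2 → ι → ℝ} (h0 : ∀ i, 0 ≤ φF i)
    (h1 : ∀ h i, 0 ≤ φ1 h i) (ω : ℕ → ι) (n : Fin 2 → ℕ) (q : ℕ) : 0 ≤ fac φF φ1 ω n q := by
  unfold fac
  split_ifs
  · exact h0 _
  · exact h1 _ _
  · exact h1 _ _
  · exact zero_le_one

/-- `≤` or `≥` -/
structure Rel (R : ℝ → ℝ → Prop) : Prop where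
  refl : ∀ x, R x x
  trans : ∀ x y z, R x y → R y z → R x z
  sum : ∀ (α : Type) (S : Finset α) (f g : α → ℝ), (∀ i ∈ S, R (f i) (g i)) →
    R (∑ i ∈ S, f i) (∑ i ∈ S, g i)
  mul : ∀ c x y, 0 ≤ c → R x y → R (c * x) (c * y)

lemma GG_congr [Fintype ι] {ρ τ : Fin 2 → ι → ℝ} {lab : Fin 2 → ι → ι} {β : ℝ}
    (hlab : Lab ρ τ lab) {φF : ι → ℝ} {φ1 : Fin 2 → ι → ℝ}
    (hφ : ∀ h i j, lab h i = lab h j → φ1 h i = φ1 h j) {k : ℕ} {ω ω' : ℕ → ι}
    (he : box ρ lab β k ω = box ρ lab β k ω') : GG ρ β φF φ1 k ω = GG ρ β φF φ1 k ω' := by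
  rw [box_iff] at he
  have hn : (fun h => Ln ρ β h ω k) = fun h => Ln ρ β h ω' k := funext fun h => (he h).1
  unfold GG
  rw [← hn]
  unfold Tn
  refine Finset.prod_congr rfl (fun q hq => ?_)
  rw [Finset.mem_range, lt_max_iff] at hq
  split_ifs with h1 h2
  · congr 1
    refine hlab.2.1 _ _ (fun h => ?_)
    fin_cases h
    · exact (he 0).2 q h1.1
    · exact (he 1).2 q h1.2
  · exact hφ 0 _ _ ((he 0).2 q h2)
  · rcases hq with hq | hq
    · exact absurd hq h2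
    · exact hφ 1 _ _ ((he 1).2 q hq)

/-- one splitting step (abstract) -/
lemma split_sum {ρ : Fin 2 → ι → ℝ} {lab : Fin 2 → ι → ι} {β : ℝ} {R : ℝ → ℝ → Prop}
    (hR : Rel R) {K : ℕ} (H : (Fin 2 → List ι) → ℝ) (S : Finset (Fin 2 → List ι))
    (B : Set (ℕ → ι)) (hS : ∀ v, v ∈ S ↔ ∃ ω, box ρ lab β K ω = v ∧ ω ∈ B)
    (T : Finset ι) (Bi : ι → Set (ℕ → ι)) (hcov : ∀ ω ∈ B, ∃ i ∈ T, ω ∈ Bi i)
    (hsub : ∀ i ∈ T, Bi i ⊆ B)
    (hdis : ∀ i ∈ T, ∀ j ∈ T, ∀ ω ∈ Bi i, ∀ ω' ∈ Bi j, box ρ lab β K ω = box ρ lab β K ω' → i = j)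
    (c t : ℝ) (hc : 0 ≤ c) (val : ι → ℝ) (hval : R (∑ i ∈ T, val i) t)
    (IH : ∀ i ∈ T, ∀ S' : Finset (Fin 2 → List ι), S' ⊆ S →
      (∀ v, v ∈ S' ↔ ∃ ω, box ρ lab β K ω = v ∧ ω ∈ Bi i) → R (∑ v ∈ S', H v) (c * val i)) :
    R (∑ v ∈ S, H v) (c * t) := by
  classical
  let Si : ι → Finset (Fin 2 → List ι) := fun i =>
    S.filter (fun v => ∃ ω, box ρ lab β K ω = v ∧ ω ∈ Bi i)
  have hSi : ∀ i ∈ T, ∀ v, v ∈ Si i ↔ ∃ ω, box ρ lab β K ω = v ∧ ω ∈ Bi i := by
    intro i hi v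
    simp only [Si, Finset.mem_filter]
    constructor
    · exact fun h => h.2
    · rintro ⟨ω, hω, hωB⟩
      exact ⟨(hS v).2 ⟨ω, hω, hsub i hi hωB⟩, ω, hω, hωB⟩
  have hU : S = T.biUnion Si := by
    ext v
    rw [Finset.mem_biUnion]
    constructor
    · intro hv
      obtain ⟨ω, hω, hωB⟩ := (hS v).1 hv
      obtain ⟨i, hi, hωi⟩ := hcov ω hωB
      exact ⟨i, hi, (hSi i hi v).2 ⟨ω, hω, hωi⟩⟩
    · rintro ⟨i, _, hv⟩
      exact (Finset.mem_filter.1 hv).1
  have hD : (T : Set ι).PairwiseDisjoint Si := by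
    intro i hi j hj hij
    rw [Function.onFun, Finset.disjoint_left]
    intro v hv hv'
    obtain ⟨ω, hω, hωB⟩ := (hSi i hi v).1 hv
    obtain ⟨ω', hω', hωB'⟩ := (hSi j hj v).1 hv'
    exact hij (hdis i hi j hj ω hωB ω' hωB' (hω.trans hω'.symm))
  have h1 : R (∑ i ∈ T, ∑ v ∈ Si i, H v) (∑ i ∈ T, c * val i) :=
    hR.sum ι T _ _ (fun i hi => IH i hi (Si i) (Finset.filter_subset _ _) (hSi i hi))
  have h2 : R (∑ i ∈ T, c * val i) (c * t) := by
    rw [← Finset.mul_sum]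
    exact hR.mul _ _ _ hc hval
  rw [hU, Finset.sum_biUnion hD]
  exact hR.trans _ _ _ h1 h2

/-- sequences which agree with `ω0` on the known positions -/
def BB (lab : Fin 2 → ι → ι) (ω0 : ℕ → ι) (n : Fin 2 → ℕ) : Set (ℕ → ι) :=
  {ω | ∀ h, ∀ q < n h, lab h (ω q) = lab h (ω0 q)}

lemma claim [Fintype ι] {ρ τ : Fin 2 → ι → ℝ} {lab : Fin 2 → ι → ι} {β : ℝ}
    (hlab : Lab ρ τ lab) (hF : LF ρ β) {φF : ι → ℝ} {φ1 : Fin 2 → ι → ℝ}
    (hφ0 : ∀ i, 0 ≤ φF i) (hφ10 : ∀ h i, 0 ≤ φ1 h i)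
    (hφ : ∀ h i j, lab h i = lab h j → φ1 h i = φ1 h j) {R : ℝ → ℝ → Prop} (hR : Rel R)
    (c1 : ∀ h (S : Finset ι), (∀ j, j ∈ S ↔ lab h j = j) → R (∑ j ∈ S, φ1 h j) 1)
    (c2 : ∀ h i (S : Finset ι), (∀ j, j ∈ S ↔ lab h j = lab h i) → R (∑ j ∈ S, φF j) (φ1 h i))
    {K N : ℕ} (hN : ∀ h ω, Ln ρ β h ω K ≤ N) (rep : (Fin 2 → List ι) → ℕ → ι) :
    ∀ (d : ℕ) (ω0 : ℕ → ι) (n : Fin 2 → ℕ), (N - n 0) + (N - n 1) = d →
      (∀ h, n h ≤ Ln ρ β h ω0 K) → ∀ S : Finset (Fin 2 → List ι),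
      (∀ v ∈ S, box ρ lab β K (rep v) = v) →
      (∀ v, v ∈ S ↔ ∃ ω, box ρ lab β K ω = v ∧ ω ∈ BB lab ω0 n) →
      R (∑ v ∈ S, GG ρ β φF φ1 K (rep v)) (∏ q ∈ Finset.range N, fac φF φ1 ω0 n q) := by
  classical
  intro d
  induction d using Nat.strong_induction_on with
  | _ d IH =>
  intro ω0 n hd hn S hrep hS
  by_cases hex : ∃ h, n h < Ln ρ β h ω0 K
  · obtain ⟨h, hh⟩ := hex
    obtain ⟨g, hgh⟩ : ∃ g : Fin 2, g ≠ h := by
      fin_cases h
      · exact ⟨1, by decide⟩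
      · exact ⟨0, by decide⟩
    have hcases : ∀ a : Fin 2, a = h ∨ a = g := by
      intro a
      omega
    set q := n h with hq
    have hqN : q < N := lt_of_lt_of_le hh (hN h ω0)
    have hqr : q ∈ Finset.range N := Finset.mem_range.2 hqN
    set n' : Fin 2 → ℕ := Function.update n h (q + 1) with hn'
    have hn'h : n' h = q + 1 := by rw [hn', Function.update_self]
    have hn'g : n' g = n g := by rw [hn', Function.update_of_ne hgh]
    have hmeas : (N - n' 0) + (N - n' 1) < d := by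
      have e1 : (N - n' 0) + (N - n' 1) = (N - n' h) + (N - n' g) := by
        fin_cases h <;> fin_cases g
        · exact absurd rfl hgh
        · rfl
        · exact Nat.add_comm _ _
        · exact absurd rfl hgh
      have e2 : (N - n 0) + (N - n 1) = (N - n h) + (N - n g) := by
        fin_cases h <;> fin_cases g
        · exact absurd rfl hgh
        · rfl
        · exact Nat.add_comm _ _
        · exact absurd rfl hgh
      rw [e1, hn'h, hn'g]
      rw [e2] at hd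
      omega
    -- the common factor
    set c : ℝ := ∏ p ∈ (Finset.range N).erase q, fac φF φ1 ω0 n p with hc
    have hc0 : 0 ≤ c := Finset.prod_nonneg (fun p _ => fac_nonneg hφ0 hφ10 _ _ _)
    have hP0 : ∏ p ∈ Finset.range N, fac φF φ1 ω0 n p = c * fac φF φ1 ω0 n q := by
      rw [hc, Finset.prod_erase_mul _ _ hqr]
    have hPi : ∀ i : ι, ∏ p ∈ Finset.range N, fac φF φ1 (Function.update ω0 q i) n' p =
        c * fac φF φ1 (Function.update ω0 q i) n' q := by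
      intro i
      rw [← Finset.prod_erase_mul _ _ hqr, hc]
      congr 1
      refine Finset.prod_congr rfl (fun p hp => ?_)
      have hpq : p ≠ q := Finset.ne_of_mem_erase hp
      refine fac_congr (fun a => ?_) (Function.update_of_ne hpq _ _)
      rcases hcases a with rfl | rfl
      · rw [hn'h]
        omega
      · rw [hn'g]
    -- Ln of the new base points
    have hlnh : ∀ ω : ℕ → ι, (∀ p < q, lab h (ω p) = lab h (ω0 p)) → q + 1 ≤ Ln ρ β h ω K := by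
      intro ω hω
      exact ln_ge hlab hF hh (fun p hp => (hω p (by omega)).symm)
    have hupd : ∀ i : ι, ∀ p, p ≠ q → Function.update ω0 q i p = ω0 p := fun i p hp =>
      Function.update_of_ne hp _ _
    have hstep : ∀ (T : Finset ι) (val : ι → ℝ) (t : ℝ),
        (∀ i ∈ T, q < n g → lab g i = lab g (ω0 q)) →
        (∀ ω ∈ BB lab ω0 n, ∃ i ∈ T, lab h i = lab h (ω q)) →
        (∀ i ∈ T, ∀ j ∈ T, lab h i = lab h j → i = j) →
        (∀ i ∈ T, fac φF φ1 (Function.update ω0 q i) n' q = val i) →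
        fac φF φ1 ω0 n q = t → R (∑ i ∈ T, val i) t →
        R (∑ v ∈ S, GG ρ β φF φ1 K (rep v)) (∏ q ∈ Finset.range N, fac φF φ1 ω0 n q) := by
      intro T val t hT1 hT2 hT3 hval ht hRt
      rw [hP0, ht]
      refine split_sum hR (ρ := ρ) (lab := lab) (β := β) (K := K)
        (fun v => GG ρ β φF φ1 K (rep v)) S (BB lab ω0 n) hS T
        (fun i => BB lab (Function.update ω0 q i) n') ?_ ?_ ?_ c t hc0 val hRt ?_
      · intro ω hω
        obtain ⟨i, hi, hi2⟩ := hT2 ω hω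
        refine ⟨i, hi, ?_⟩
        intro a p hp
        rcases hcases a with rfl | rfl
        · rw [hn'h] at hp
          by_cases hpq : p = q
          · subst hpq
            rw [Function.update_self]
            exact hi2.symm
          · rw [hupd i p hpq]
            exact hω a p (by omega)
        · rw [hn'g] at hp
          by_cases hpq : p = q
          · rw [hpq] at hp ⊢
            rw [Function.update_self, hT1 i hi hp]
            exact hω a q hp
          · rw [hupd i p hpq]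
            exact hω a p hp
      · intro i hi ω hω a p hp
        rcases hcases a with rfl | rfl
        · have := hω a p (by rw [hn'h]; omega)
          rwa [hupd i p (by omega)] at this
        · have := hω a p (by rw [hn'g]; exact hp)
          by_cases hpq : p = q
          · rw [hpq] at this hp ⊢
            rw [Function.update_self, hT1 i hi hp] at this
            exact this
          · rwa [hupd i p hpq] at this
      · intro i hi j hj ω hω ω' hω' hb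
        have hl : q < Ln ρ β h ω K := by
          refine hlnh ω (fun p hp => ?_)
          have := hω h p (by rw [hn'h]; omega)
          rwa [hupd i p (by omega)] at this
        have e1 := ((box_iff ω ω').1 hb h).2 q hl
        have e2 := hω h q (by rw [hn'h]; omega)
        have e3 := hω' h q (by rw [hn'h]; omega)
        rw [Function.update_self] at e2 e3
        exact hT3 i hi j hj (by rw [← e2, ← e3, e1])
      · intro i hi S' hS'S hS'
        rw [← hval i hi, ← hPi i]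
        refine IH _ hmeas (Function.update ω0 q i) n' rfl ?_ S'
          (fun v hv => hrep v (hS'S hv)) hS'
        intro a
        rcases hcases a with rfl | rfl
        · rw [hn'h]
          exact hlnh _ (fun p hp => by rw [hupd i p (by omega)])
        · rw [hn'g]
          refine ln_ge hlab hF (hn a) (fun p hp => ?_)
          by_cases hpq : p = q
          · rw [hpq, Function.update_self, hT1 i hi (by omega)]
          · rw [hupd i p hpq]
    by_cases hqg : q < n g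
    · -- the digit is known up to the label `lab h`
      refine hstep (Finset.univ.filter (fun i => lab g i = lab g (ω0 q))) φF (φ1 g (ω0 q))
        ?_ ?_ ?_ ?_ ?_ ?_
      · intro i hi _
        exact (Finset.mem_filter.1 hi).2
      · intro ω hω
        exact ⟨ω q, Finset.mem_filter.2 ⟨Finset.mem_univ _, hω g q hqg⟩, rfl⟩
      · intro i hi j hj hij
        refine hlab.2.1 i j (fun a => ?_)
        rcases hcases a with rfl | rfl
        · exact hij
        · rw [(Finset.mem_filter.1 hi).2, (Finset.mem_filter.1 hj).2]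
      · intro i _
        rw [fac_both hgh (by rw [hn'h]; omega) (by rw [hn'g]; exact hqg), Function.update_self]
      · exact fac_one hgh.symm hqg (by omega)
      · refine c2 g (ω0 q) _ (fun j => ?_)
        simp
    · refine hstep (Finset.univ.filter (fun i => lab h i = i)) (φ1 h) 1 ?_ ?_ ?_ ?_ ?_ ?_
      · intro i _ hc
        exact absurd hc hqg
      · intro ω _
        exact ⟨lab h (ω q), Finset.mem_filter.2 ⟨Finset.mem_univ _, hlab.2.2 h _⟩,
          hlab.2.2 h _⟩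
      · intro i hi j hj hij
        rw [← (Finset.mem_filter.1 hi).2, ← (Finset.mem_filter.1 hj).2]
        exact hij
      · intro i _
        rw [fac_one hgh (by rw [hn'h]; omega) (by rw [hn'g]; exact hqg), Function.update_self]
      · exact fac_none hgh (by omega) hqg
      · refine c1 h _ (fun j => ?_)
        simp
  · push Not at hex
    have hneq : ∀ h, n h = Ln ρ β h ω0 K := fun h => le_antisymm (hn h) (hex h)
    have hS1 : S = {box ρ lab β K ω0} := by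
      ext v
      rw [Finset.mem_singleton, hS v]
      constructor
      · rintro ⟨ω, hω, hB⟩
        rw [← hω]
        exact (box_eq hlab hF (fun h q hq => (hB h q (by rw [hneq]; exact hq)).symm)).symm
      · intro hv
        exact ⟨ω0, hv.symm, fun h q _ => rfl⟩
    rw [hS1, Finset.sum_singleton]
    have h1 := hrep (box ρ lab β K ω0) (by rw [hS1]; exact Finset.mem_singleton_self _)
    rw [GG_congr hlab hφ h1]
    have h2 : GG ρ β φF φ1 K ω0 = ∏ q ∈ Finset.range N, fac φF φ1 ω0 n q := by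
      unfold GG
      rw [Tn_eq φF φ1 ω0 _ (hN 0 ω0) (hN 1 ω0)]
      refine Finset.prod_congr rfl (fun q _ => ?_)
      exact fac_congr (fun a => by rw [hneq a]) rfl
    rw [h2]
    exact hR.refl _

lemma final [Fintype ι] {ρ τ : Fin 2 → ι → ℝ} {lab : Fin 2 → ι → ι} {β : ℝ}
    (hlab : Lab ρ τ lab) (hF : LF ρ β) (hmono : ∀ h ω k, Ln ρ β h ω k ≤ Ln ρ β h ω (k + 1))
    (hbd : ∀ k, ∃ N, ∀ h ω, Ln ρ β h ω k ≤ N) {φF : ι → ℝ} {φ1 : Fin 2 → ι → ℝ}
    (hφ0 : ∀ i, 0 ≤ φF i) (hφ10 : ∀ h i, 0 ≤ φ1 h i)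
    (hφ : ∀ h i j, lab h i = lab h j → φ1 h i = φ1 h j) {R : ℝ → ℝ → Prop} (hR : Rel R)
    (c1 : ∀ h (S : Finset ι), (∀ j, j ∈ S ↔ lab h j = j) → R (∑ j ∈ S, φ1 h j) 1)
    (c2 : ∀ h i (S : Finset ι), (∀ j, j ∈ S ↔ lab h j = lab h i) → R (∑ j ∈ S, φF j) (φ1 h i))
    (k : ℕ) (ω0 : ℕ → ι) (rep : (Fin 2 → List ι) → ℕ → ι) (S : Finset (Fin 2 → List ι))
    (hrep : ∀ v ∈ S, box ρ lab β (k + 1) (rep v) = v)
    (hS : ∀ v, v ∈ S ↔ ∃ ω, box ρ lab β (k + 1) ω = v ∧ box ρ lab β k ω = box ρ lab β k ω0) :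
    R (∑ v ∈ S, GG ρ β φF φ1 (k + 1) (rep v)) (GG ρ β φF φ1 k ω0) := by
  obtain ⟨N, hN⟩ := hbd (k + 1)
  have hle : ∀ h, Ln ρ β h ω0 k ≤ N := fun h => (hmono h ω0 k).trans (hN h ω0)
  have h1 := claim hlab hF hφ0 hφ10 hφ hR c1 c2 hN rep _ ω0 (fun h => Ln ρ β h ω0 k) rfl
    (fun h => hmono h ω0 k) S hrep (fun v => by
      rw [hS v]
      constructor
      · rintro ⟨ω, hω, hb⟩
        refine ⟨ω, hω, fun h q hq => ?_⟩
        exact (((box_iff ω0 ω).1 hb.symm h).2 q hq).symm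
      · rintro ⟨ω, hω, hB⟩
        exact ⟨ω, hω, (box_eq hlab hF (fun h q hq => (hB h q hq).symm)).symm⟩)
  have h2 : GG ρ β φF φ1 k ω0 =
      ∏ q ∈ Finset.range N, fac φF φ1 ω0 (fun h => Ln ρ β h ω0 k) q := by
    unfold GG
    exact Tn_eq φF φ1 ω0 _ (hle 0) (hle 1)
  rw [h2]
  exact h1

theorem main (h : S_LEN) : S_STOP := by
  intro ι _ _ ρ τ lab β φF φ1 hadm hlab hβ hφ0 hφ10 hφ
  obtain ⟨_, _, hle, hgt, _, hmono, hbd, _, _⟩ := h ι ρ τ lab β hadm hlab hβ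
  have hF : LF ρ β := ⟨hle, hgt⟩
  refine ⟨fun k ω ω' he => GG_congr hlab hφ he, ?_, ?_⟩
  · intro c1 c2 k ω0 rep S hrep hS
    refine final (R := fun x y => x ≤ y) hlab hF hmono hbd hφ0 hφ10 hφ
      ⟨fun x => le_rfl, fun x y z => le_trans, fun α S f g hfg => Finset.sum_le_sum hfg,
        fun c x y hc hxy => mul_le_mul_of_nonneg_left hxy hc⟩ c1 c2 k ω0 rep S hrep hS
  · intro c1 c2 k ω0 rep S hrep hS
    refine final (R := fun x y => y ≤ x) hlab hF hmono hbd hφ0 hφ10 hφ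
      ⟨fun x => le_rfl, fun x y z h1 h2 => le_trans h2 h1,
        fun α S f g hfg => Finset.sum_le_sum hfg,
        fun c x y hc hxy => mul_le_mul_of_nonneg_left hxy hc⟩ c1 c2 k ω0 rep S hrep hS

end Pool.Agent.R660.SC.STOP
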