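import Pool.Agent.R660.SC.Defs

open Set Filter Topology MeasureTheory Metric

namespace Pool.Agent.R660.SC.TREE

open Classical in
/-- The sum over the children. -/
noncomputable def Sg {V : ℕ → Type} [∀ k, Fintype (V k)] (par : ∀ k, V (k + 1) → V k)
    (G : ∀ k, V k → ℝ) (k : ℕ) (v : V k) : ℝ :=
  ∑ u ∈ Finset.univ.filter (fun u => par k u = v), G (k + 1) u

/-- The hypotheses. -/
structure Dat (X : Type) [MetricSpace X] (V : ℕ → Type) [∀ k, Fintype (V k)]
    (par : ∀ k, V (k + 1) → V k) (G : ∀ k, V k → ℝ) (c : ∀ k, V k → X) (code : ∀ k, X → V k)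
    (β Λ0 κ s : ℝ) : Prop where
  root : ∃ v0 : V 0, ∀ v, v = v0
  surj : ∀ k v, ∃ u, par k u = v
  pcode : ∀ k x, par k (code (k + 1) x) = code k x
  dcode : ∀ k x, dist (c k (code k x)) x ≤ Λ0 * (1 / β) ^ k
  dpar : ∀ k u, dist (c (k + 1) u) (c k (par k u)) ≤ Λ0 * (1 / β) ^ k
  count : ∀ A : ℝ, ∃ H : ℕ, ∀ k v (F : Finset (V k)),
    (∀ u ∈ F, dist (c k u) (c k v) ≤ A * (1 / β) ^ k) → F.card ≤ H
  kpos : 0 < κ
  spos : 0 ≤ s
  lpos : 0 ≤ Λ0
  b12 : 12 ≤ β
  bL : 4 * Λ0 + 4 ≤ β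
  Gb : ∀ k v, 1 / κ * ((1 / β) ^ k) ^ s ≤ G k v ∧ G k v ≤ κ * ((1 / β) ^ k) ^ s

section

variable {X : Type} [MetricSpace X] {V : ℕ → Type} [∀ k, Fintype (V k)]
    {par : ∀ k, V (k + 1) → V k} {G : ∀ k, V k → ℝ} {c : ∀ k, V k → X} {code : ∀ k, X → V k}
    {β Λ0 κ s : ℝ}

theorem Dat.bpos (D : Dat X V par G c code β Λ0 κ s) : 0 < β := by
  have := D.b12
  linarith

theorem Dat.qpos (D : Dat X V par G c code β Λ0 κ s) (k : ℕ) : 0 < (1 / β) ^ k :=
  pow_pos (one_div_pos.2 D.bpos) k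

theorem Dat.tpos (D : Dat X V par G c code β Λ0 κ s) (k : ℕ) : 0 < ((1 / β) ^ k) ^ s :=
  Real.rpow_pos_of_pos (D.qpos k) s

theorem Dat.Gpos (D : Dat X V par G c code β Λ0 κ s) (k : ℕ) (v : V k) : 0 < G k v :=
  lt_of_lt_of_le (mul_pos (one_div_pos.2 D.kpos) (D.tpos k)) (D.Gb k v).1

theorem Dat.tstep (D : Dat X V par G c code β Λ0 κ s) (k k' : ℕ) (h : k ≤ k') :
    (β ^ (k' - k)) ^ s * ((1 / β) ^ k') ^ s = ((1 / β) ^ k) ^ s := by
  have hb := D.bpos
  obtain ⟨j, rfl⟩ := Nat.exists_eq_add_of_le h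
  rw [← Real.mul_rpow (pow_pos hb _).le (D.qpos _).le, Nat.add_sub_cancel_left]
  congr 1
  rw [pow_add, mul_comm, mul_assoc, ← mul_pow, one_div, inv_mul_cancel₀ hb.ne', one_pow, mul_one]

theorem Dat.one_le_k (D : Dat X V par G c code β Λ0 κ s) : 1 ≤ κ := by
  obtain ⟨v0, -⟩ := D.root
  have h1 := (D.Gb 0 v0).1.trans (D.Gb 0 v0).2
  have h2 := le_of_mul_le_mul_right h1 (D.tpos 0)
  have hk := D.kpos
  by_contra h
  push Not at h
  have h3 : 1 < 1 / κ := by rw [lt_div_iff₀ hk]; linarith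
  linarith

/-- Going down. -/
theorem Dat.ratio1 (D : Dat X V par G c code β Λ0 κ s) (k k' : ℕ) (h : k ≤ k') (u : V k)
    (v : V k') : G k u ≤ κ ^ 2 * (β ^ (k' - k)) ^ s * G k' v := by
  have hk := D.kpos
  have h1 := (D.Gb k u).2
  have h2 := (D.Gb k' v).1
  rw [← D.tstep k k' h] at h1
  refine h1.trans ?_
  have h3 : κ * ((1 / β) ^ k') ^ s ≤ κ ^ 2 * G k' v := by
    have := mul_le_mul_of_nonneg_left h2 (sq_nonneg κ)
    refine le_trans (le_of_eq ?_) this
    field_simp
  have h4 : 0 < (β ^ (k' - k)) ^ s := Real.rpow_pos_of_pos (pow_pos D.bpos _) s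
  calc κ * ((β ^ (k' - k)) ^ s * ((1 / β) ^ k') ^ s)
      = (β ^ (k' - k)) ^ s * (κ * ((1 / β) ^ k') ^ s) := by ring
    _ ≤ (β ^ (k' - k)) ^ s * (κ ^ 2 * G k' v) := mul_le_mul_of_nonneg_left h3 h4.le
    _ = κ ^ 2 * (β ^ (k' - k)) ^ s * G k' v := by ring

/-- Going up. -/
theorem Dat.ratio2 (D : Dat X V par G c code β Λ0 κ s) (k k' : ℕ) (h : k ≤ k') (u : V k)
    (v : V k') : (β ^ (k' - k)) ^ s * G k' v ≤ κ ^ 2 * G k u := by
  have hk := D.kpos
  have h1 := (D.Gb k u).1
  have h2 := (D.Gb k' v).2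
  rw [← D.tstep k k' h] at h1
  have h4 : 0 < (β ^ (k' - k)) ^ s := Real.rpow_pos_of_pos (pow_pos D.bpos _) s
  have h3 : κ * ((β ^ (k' - k)) ^ s * ((1 / β) ^ k') ^ s) ≤ κ ^ 2 * G k u := by
    have := mul_le_mul_of_nonneg_left h1 (sq_nonneg κ)
    refine le_trans (le_of_eq ?_) this
    field_simp
  refine le_trans ?_ h3
  calc (β ^ (k' - k)) ^ s * G k' v
      ≤ (β ^ (k' - k)) ^ s * (κ * ((1 / β) ^ k') ^ s) := mul_le_mul_of_nonneg_left h2 h4.le
    _ = κ * ((β ^ (k' - k)) ^ s * ((1 / β) ^ k') ^ s) := by ring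

theorem Dat.ratio0 (D : Dat X V par G c code β Λ0 κ s) (k : ℕ) (u v : V k) :
    G k u ≤ κ ^ 2 * G k v := by
  have h := D.ratio1 k k le_rfl u v
  rwa [Nat.sub_self, pow_zero, Real.one_rpow, mul_one] at h

theorem Dat.Sgpos (D : Dat X V par G c code β Λ0 κ s) (k : ℕ) (v : V k) : 0 < Sg par G k v := by
  classical
  obtain ⟨u, hu⟩ := D.surj k v
  refine Finset.sum_pos (fun u _ => D.Gpos (k + 1) u) ⟨u, ?_⟩
  exact Finset.mem_filter.2 ⟨Finset.mem_univ _, hu⟩

theorem Dat.bound (D : Dat X V par G c code β Λ0 κ s) :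
    ∃ M : ℝ, 1 ≤ M ∧ ∀ k v, G k v ≤ M * Sg par G k v ∧ Sg par G k v ≤ M * G k v := by
  classical
  obtain ⟨H, hH⟩ := D.count (2 * Λ0 * β)
  have hk1 := D.one_le_k
  have hb := D.bpos
  have hbs : 0 < β ^ s := Real.rpow_pos_of_pos hb s
  have hH0 : (0 : ℝ) ≤ H := Nat.cast_nonneg H
  have e1 : 0 ≤ κ ^ 2 * β ^ s := mul_nonneg (sq_nonneg κ) hbs.le
  have e2 : 0 ≤ (H : ℝ) * κ ^ 2 := mul_nonneg hH0 (sq_nonneg κ)
  refine ⟨1 + κ ^ 2 * β ^ s + H * κ ^ 2, by linarith, ?_⟩
  intro k v
  have hS := D.Sgpos k v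
  have hG := D.Gpos k v
  constructor
  · obtain ⟨u, hu⟩ := D.surj k v
    have h1 : G (k + 1) u ≤ Sg par G k v := by
      unfold Sg
      exact Finset.single_le_sum (f := fun u => G (k + 1) u)
        (fun u _ => (D.Gpos (k + 1) u).le) (Finset.mem_filter.2 ⟨Finset.mem_univ _, hu⟩)
    have h2 := D.ratio1 k (k + 1) (Nat.le_succ k) v u
    rw [Nat.add_sub_cancel_left, pow_one] at h2
    have h3 := mul_le_mul_of_nonneg_left h1 e1
    nlinarith [mul_nonneg e2 hS.le]
  · obtain ⟨u0, hu0⟩ := D.surj k v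
    have hcard : (Finset.univ.filter (fun u => par k u = v)).card ≤ H := by
      refine hH (k + 1) u0 _ ?_
      intro u hu
      rw [Finset.mem_filter] at hu
      have h1 := D.dpar k u
      have h2 := D.dpar k u0
      rw [hu.2] at h1
      rw [hu0] at h2
      have h3 := dist_triangle_right (c (k + 1) u) (c (k + 1) u0) (c k v)
      have h4 : 2 * Λ0 * β * (1 / β) ^ (k + 1) = 2 * (Λ0 * (1 / β) ^ k) := by
        rw [pow_succ]
        field_simp
      rw [h4]
      linarith
    have hle : Sg par G k v ≤ (H : ℝ) * (κ ^ 2 * G k v) := by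
      unfold Sg
      have h1 : ∀ u ∈ Finset.univ.filter (fun u => par k u = v),
          G (k + 1) u ≤ κ ^ 2 * G k v := by
        intro u _
        have h2 := D.ratio2 k (k + 1) (Nat.le_succ k) v u
        rw [Nat.add_sub_cancel_left, pow_one] at h2
        have h5 : (1 : ℝ) ≤ β ^ s := by
          refine Real.one_le_rpow ?_ D.spos
          have := D.b12
          linarith
        have h6 := D.Gpos (k + 1) u
        nlinarith
      have h2 := Finset.sum_le_card_nsmul _ _ _ h1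
      rw [nsmul_eq_mul] at h2
      refine h2.trans ?_
      refine mul_le_mul_of_nonneg_right ?_ (mul_nonneg (sq_nonneg κ) hG.le)
      exact_mod_cast hcard
    have e3 := mul_nonneg e1 hG.le
    nlinarith

/-- The measure, with general constants. -/
theorem core [CompactSpace X] [MeasurableSpace X] [BorelSpace X] (hM : S_MEAS) (hB : S_BALL)
    (D : Dat X V par G c code β Λ0 κ s) (a b : ℝ) (ha : 0 < a) (hb : 0 < b)
    (hθ : ∀ k v, 1 / b ≤ G k v / Sg par G k v ∧ G k v / Sg par G k v ≤ 1 / a) :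
    ∃ (μ : Measure X) (m : ∀ k, V k → ℝ) (C2 : ℝ), IsProbabilityMeasure μ ∧ 0 < C2 ∧
      (∀ k v, 0 < m k v) ∧
      (∀ k u, m k (par k u) / G k (par k u) ≤ b * (m (k + 1) u / G (k + 1) u)) ∧
      (∀ k u, a * (m (k + 1) u / G (k + 1) u) ≤ m k (par k u) / G k (par k u)) ∧
      (∀ (x : X) (r : ℝ), 0 < r → 0 < μ.real (ball x r)) ∧
      ((∀ k k' x, k ≤ k' →
          m k (code k x) ≤ κ ^ 2 * (β ^ (k' - k)) ^ s * m k' (code k' x)) →
        ∀ (x : X) (r R : ℝ), 0 < r → r < R → R ≤ 1 →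
          μ.real (ball x R) ≤ C2 * (R / r) ^ s * μ.real (ball x r)) ∧
      ((∀ k k' x, k ≤ k' →
          (β ^ (k' - k)) ^ s * m k' (code k' x) ≤ κ ^ 2 * m k (code k x)) →
        ∀ (x : X) (r R : ℝ), 0 < r → r < R → R ≤ 1 →
          (R / r) ^ s * μ.real (ball x r) ≤ C2 * μ.real (ball x R)) := by
  classical
  have hβ := D.bpos
  have hL := D.lpos
  have hb12 := D.b12
  have hbL := D.bL
  have hk1 := D.one_le_k
  have hC1 : 1 ≤ max 1 (b / a) := le_max_left _ _
  have hC2 : b ≤ max 1 (b / a) * a := by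
    have := mul_le_mul_of_nonneg_right (le_max_right 1 (b / a)) ha.le
    rwa [div_mul_cancel₀ b ha.ne'] at this
  have hwθ : ∀ k (u : V (k + 1)), G (k + 1) u / Sg par G k (par k u) * G k (par k u) /
      G (k + 1) u = G k (par k u) / Sg par G k (par k u) := by
    intro k u
    have h1 := (D.Gpos (k + 1) u).ne'
    have h2 := (D.Sgpos k (par k u)).ne'
    field_simp
  obtain ⟨μ, m, hμ, hm, hadj, hup, hdown, hm1, hm2⟩ := hM X V par
    (fun k u v => dist (c k u) (c k v) ≤ (4 * Λ0 + 4) * (1 / β) ^ k)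
    (fun k u => G (k + 1) u / Sg par G k (par k u)) G c a b (max 1 (b / a)) β Λ0 (4 * Λ0 + 4)
    (fun k u => by
      show dist (c k u) (c k u) ≤ _
      rw [dist_self]
      exact mul_nonneg (by linarith) (D.qpos k).le)
    (fun k u u' h => by
      show dist (c k u') (c k u) ≤ _
      rw [dist_comm]
      exact h)
    (fun k u0 u1 u2 u3 h1 h2 h3 => by
      show dist (c k (par k u0)) (c k (par k u3)) ≤ _
      have h1' : dist (c (k + 1) u0) (c (k + 1) u1) ≤ (4 * Λ0 + 4) * (1 / β) ^ (k + 1) := h1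
      have h2' : dist (c (k + 1) u1) (c (k + 1) u2) ≤ (4 * Λ0 + 4) * (1 / β) ^ (k + 1) := h2
      have h3' : dist (c (k + 1) u2) (c (k + 1) u3) ≤ (4 * Λ0 + 4) * (1 / β) ^ (k + 1) := h3
      have h4 := D.dpar k u0
      have h5 := D.dpar k u3
      rw [dist_comm] at h4
      have t1 := dist_triangle4 (c k (par k u0)) (c (k + 1) u0) (c (k + 1) u3) (c k (par k u3))
      have t2 := dist_triangle4 (c (k + 1) u0) (c (k + 1) u1) (c (k + 1) u2) (c (k + 1) u3)
      have hq := D.qpos k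
      have h6 : (1 / β) ^ (k + 1) ≤ 1 / 12 * (1 / β) ^ k := by
        rw [pow_succ, mul_comm]
        exact mul_le_mul_of_nonneg_right (one_div_le_one_div_of_le (by norm_num) hb12) hq.le
      have h7 := mul_le_mul_of_nonneg_left h6 (show 0 ≤ 4 * Λ0 + 4 by linarith)
      nlinarith [mul_nonneg hL hq.le])
    D.root D.Gpos ha hb hC1 hC2
    (fun k u => div_pos (D.Gpos (k + 1) u) (D.Sgpos k _))
    (fun k u => by
      rw [hwθ k u]
      exact hθ k (par k u))
    (fun k v F hF => by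
      have hFe : F = Finset.univ.filter (fun u => par k u = v) := by
        ext u
        rw [hF u, Finset.mem_filter]
        simp
      have h1 : ∑ u ∈ F, G (k + 1) u / Sg par G k (par k u) =
          ∑ u ∈ F, G (k + 1) u / Sg par G k v := by
        refine Finset.sum_congr rfl fun u hu => ?_
        rw [(hF u).1 hu]
      rw [h1, ← Finset.sum_div, hFe]
      exact div_self (D.Sgpos k v).ne')
    (by linarith) hL (by linarith) hbL D.dpar (fun k u u' h => h)
  obtain ⟨H, hH⟩ := D.count (3 * Λ0 + 3)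
  have hC' : 1 ≤ max 1 (b / a) * κ ^ 2 := by
    have : 1 ≤ κ ^ 2 := one_le_pow₀ hk1
    nlinarith
  have hnear : ∀ k x u, dist (c k u) x < (2 * Λ0 + 3) * (1 / β) ^ k →
      dist (c k u) (c k (code k x)) ≤ (3 * Λ0 + 3) * (1 / β) ^ k := by
    intro k x u h
    have h1 := D.dcode k x
    have h2 := dist_triangle_right (c k u) (c k (code k x)) x
    nlinarith
  obtain ⟨C2, hC20, hpos, hupper, hlower⟩ := hB X V c code (max 1 (b / a) * κ ^ 2) β Λ0 s
    (κ ^ 2) H μ m hμ D.dcode
    (fun k x u h => by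
      have h1 := hnear k x u h
      have hq := D.qpos k
      have h2 := hadj k u (code k x) (by
        show dist (c k u) (c k (code k x)) ≤ _
        nlinarith [mul_nonneg hL hq.le])
      have hGu := D.Gpos k u
      have hGx := D.Gpos k (code k x)
      have hr := D.ratio0 k u (code k x)
      have hmx := hm k (code k x)
      rw [div_le_iff₀ hGu] at h2
      refine h2.trans ?_
      have hC0 : 0 ≤ max 1 (b / a) := le_trans zero_le_one hC1
      have h3 : m k (code k x) / G k (code k x) * G k u ≤ κ ^ 2 * m k (code k x) := by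
        rw [div_mul_eq_mul_div, div_le_iff₀ hGx]
        nlinarith
      calc max 1 (b / a) * (m k (code k x) / G k (code k x)) * G k u
          = max 1 (b / a) * (m k (code k x) / G k (code k x) * G k u) := by ring
        _ ≤ max 1 (b / a) * (κ ^ 2 * m k (code k x)) := mul_le_mul_of_nonneg_left h3 hC0
        _ = max 1 (b / a) * κ ^ 2 * m k (code k x) := by ring)
    (fun k x F hF => hH k (code k x) F fun u hu => hnear k x u (hF u hu))
    hm hm1 hm2 hC' (by linarith) hL D.spos (one_le_pow₀ hk1)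
  exact ⟨μ, m, C2, hμ, hC20, hm, hup, hdown, hpos, hupper, hlower⟩

end

theorem main (hM : S_MEAS) (hB : S_BALL) : S_TREE := by
  classical
  intro X _ _ _ _ V _ par G c code β Λ0 κ s root surj pcode dcode dpar count kpos spos lpos b12
    bL Gb
  have D : Dat X V par G c code β Λ0 κ s :=
    ⟨root, surj, pcode, dcode, dpar, count, kpos, spos, lpos, b12, bL, Gb⟩
  obtain ⟨M, hM1, hMb⟩ := D.bound
  have hM0 : 0 < M := by linarith
  have hfib : ∀ k (v : V k) (u : V (k + 1)),
      u ∈ Finset.univ.filter (fun u => par k u = v) ↔ par k u = v := by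
    intro k v u
    rw [Finset.mem_filter]
    simp
  constructor
  · intro hs
    have hs' : ∀ k v, Sg par G k v ≤ G k v := fun k v => hs k v _ (hfib k v)
    obtain ⟨μ, m, C2, hμ, hC2, hm, hup, -, hpos, hupper, -⟩ := core hM hB D (1 / M) 1
      (one_div_pos.2 hM0) one_pos (fun k v => by
        have hS := D.Sgpos k v
        rw [le_div_iff₀ hS, div_le_iff₀ hS, one_div_one, one_mul, one_div_one_div]
        exact ⟨hs' k v, (hMb k v).1⟩)
    refine ⟨μ, C2, hμ, hC2, hpos, hupper ?_⟩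
    have hmono : ∀ x k j, m k (code k x) / G k (code k x) ≤
        m (k + j) (code (k + j) x) / G (k + j) (code (k + j) x) := by
      intro x k j
      induction j with
      | zero => exact le_rfl
      | succ j ih =>
        refine ih.trans ?_
        have := hup (k + j) (code (k + j + 1) x)
        rwa [D.pcode, one_mul] at this
    intro k k' x hkk
    have h1 : m k (code k x) / G k (code k x) ≤ m k' (code k' x) / G k' (code k' x) := by
      obtain ⟨j, rfl⟩ := Nat.exists_eq_add_of_le hkk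
      exact hmono x k j
    have h2 := D.ratio1 k k' hkk (code k x) (code k' x)
    have hG1 := D.Gpos k (code k x)
    have hG2 := D.Gpos k' (code k' x)
    have hmk := hm k' (code k' x)
    rw [div_le_iff₀ hG1] at h1
    refine h1.trans ?_
    rw [div_mul_eq_mul_div, div_le_iff₀ hG2]
    calc m k' (code k' x) * G k (code k x)
        ≤ m k' (code k' x) * (κ ^ 2 * (β ^ (k' - k)) ^ s * G k' (code k' x)) :=
          mul_le_mul_of_nonneg_left h2 hmk.le
      _ = κ ^ 2 * (β ^ (k' - k)) ^ s * m k' (code k' x) * G k' (code k' x) := by ring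
  · intro hs
    have hs' : ∀ k v, G k v ≤ Sg par G k v := fun k v => hs k v _ (hfib k v)
    obtain ⟨μ, m, C2, hμ, hC2, hm, -, hdown, hpos, -, hlower⟩ := core hM hB D 1 M
      one_pos hM0 (fun k v => by
        have hS := D.Sgpos k v
        rw [le_div_iff₀ hS, div_le_iff₀ hS, one_div_one, one_mul]
        refine ⟨?_, hs' k v⟩
        rw [div_mul_eq_mul_div, one_mul, div_le_iff₀ hM0, mul_comm]
        exact (hMb k v).2)
    refine ⟨μ, C2, hμ, hC2, hpos, hlower ?_⟩
    have hmono : ∀ x k j, m (k + j) (code (k + j) x) / G (k + j) (code (k + j) x) ≤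
        m k (code k x) / G k (code k x) := by
      intro x k j
      induction j with
      | zero => exact le_rfl
      | succ j ih =>
        refine le_trans ?_ ih
        have := hdown (k + j) (code (k + j + 1) x)
        rwa [D.pcode, one_mul] at this
    intro k k' x hkk
    have h1 : m k' (code k' x) / G k' (code k' x) ≤ m k (code k x) / G k (code k x) := by
      obtain ⟨j, rfl⟩ := Nat.exists_eq_add_of_le hkk
      exact hmono x k j
    have h2 := D.ratio2 k k' hkk (code k x) (code k' x)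
    have hG1 := D.Gpos k (code k x)
    have hG2 := D.Gpos k' (code k' x)
    have hmk := hm k (code k x)
    have h4 : 0 < (β ^ (k' - k)) ^ s := Real.rpow_pos_of_pos (pow_pos D.bpos _) s
    rw [div_le_iff₀ hG2] at h1
    calc (β ^ (k' - k)) ^ s * m k' (code k' x)
        ≤ (β ^ (k' - k)) ^ s * (m k (code k x) / G k (code k x) * G k' (code k' x)) :=
          mul_le_mul_of_nonneg_left h1 h4.le
      _ = m k (code k x) / G k (code k x) * ((β ^ (k' - k)) ^ s * G k' (code k' x)) := by ring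
      _ ≤ m k (code k x) / G k (code k x) * (κ ^ 2 * G k (code k x)) :=
          mul_le_mul_of_nonneg_left h2 (div_pos hmk hG1).le
      _ = κ ^ 2 * m k (code k x) := by field_simp

end Pool.Agent.R660.SC.TREE
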